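import Mathlib

namespace RootCH

open Finset Polynomial

/-- Liouville type lower bound for a value at an algebraic number. -/
theorem alg_lower (P h : ℤ[X]) (hP : P ≠ 0) (c : ℂ) (hc : aeval c P = 0) (hhc : aeval c h ≠ 0)
    (A B : ℝ) (hA : (|P.leadingCoeff| : ℝ) ≤ A) (hB1 : 1 ≤ B)
    (hB : ∀ z : ℂ, aeval z P = 0 → ‖aeval z h‖ ≤ B) (n : ℕ) (hn : h.natDegree ≤ n) :
    1 ≤ A ^ n * B ^ P.natDegree * ‖aeval c h‖ := by
  classical
  -- an irreducible factor with root c
  obtain ⟨fs, hfs1, hfs2⟩ := WfDvdMonoid.exists_factors P hP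
  obtain ⟨q, hqmem, hqc⟩ : ∃ q ∈ fs, aeval c q = 0 := by
    obtain ⟨u, hu⟩ := hfs2
    have h1 : aeval c (fs.prod * (u : ℤ[X])) = 0 := by rw [hu]; exact hc
    rw [map_mul, mul_eq_zero] at h1
    rcases h1 with h1 | h1
    · rw [map_multiset_prod, Multiset.prod_eq_zero_iff, Multiset.mem_map] at h1
      exact h1
    · exfalso
      have h2 : IsUnit (aeval c (u : ℤ[X])) := u.isUnit.map (aeval c)
      rw [h1] at h2
      exact not_isUnit_zero h2
  have hirr : Irreducible q := hfs1 q hqmem
  have hqP : q ∣ P := (Multiset.dvd_prod hqmem).trans hfs2.dvd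
  have hq0 : q ≠ 0 := hirr.ne_zero
  have hdeg : q.natDegree ≠ 0 := by
    intro h0
    rw [eq_C_of_natDegree_eq_zero h0, aeval_C] at hqc
    have : q.coeff 0 = 0 := by
      have : (algebraMap ℤ ℂ) (q.coeff 0) = ((q.coeff 0 : ℤ) : ℂ) := rfl
      rw [this] at hqc
      exact_mod_cast hqc
    apply hq0
    rw [eq_C_of_natDegree_eq_zero h0, this, C_0]
  have hprim : q.IsPrimitive := hirr.isPrimitive hdeg
  have hirrQ : Irreducible (q.map (Int.castRingHom ℚ)) :=
    (IsPrimitive.Int.irreducible_iff_irreducible_map_cast hprim).1 hirr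
  -- aeval through ℚ
  have haQ : ∀ (z : ℂ) (r : ℤ[X]), aeval z (r.map (Int.castRingHom ℚ)) = aeval z r := by
    intro z r
    have : Int.castRingHom ℚ = algebraMap ℤ ℚ := rfl
    rw [this, aeval_map_algebraMap]
  have hne : ∀ z : ℂ, aeval z q = 0 → aeval z h ≠ 0 := by
    intro z hz hzh
    have hnd : ¬ (q.map (Int.castRingHom ℚ)) ∣ h.map (Int.castRingHom ℚ) := by
      rintro ⟨r, hr⟩
      apply hhc
      rw [← haQ, hr, map_mul, haQ, hqc, zero_mul]
    obtain ⟨a, b, hab⟩ := (hirrQ.coprime_iff_not_dvd).2 hnd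
    have h1 := congrArg (aeval z) hab
    rw [map_add, map_mul, map_mul, haQ, haQ, hz, hzh, map_one] at h1
    simp at h1
  -- the resultant
  set qc := q.map (Int.castRingHom ℂ) with hqcdef
  set hcc := h.map (Int.castRingHom ℂ) with hhcdef
  have hinj : Function.Injective (Int.castRingHom ℂ) := Int.cast_injective
  have hqd : qc.natDegree = q.natDegree := natDegree_map_eq_of_injective hinj q
  have hqlc : qc.leadingCoeff = (q.leadingCoeff : ℂ) := leadingCoeff_map_of_injective hinj q
  have hqc0 : qc ≠ 0 := (Polynomial.map_ne_zero_iff hinj).2 hq0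
  have heval : ∀ (z : ℂ) (r : ℤ[X]), (r.map (Int.castRingHom ℂ)).eval z = aeval z r := by
    intro z r
    have : Int.castRingHom ℂ = algebraMap ℤ ℂ := rfl
    rw [this, eval_map_algebraMap]
  have hres := resultant_map_map q h q.natDegree n (Int.castRingHom ℂ)
  rw [← hqcdef, ← hhcdef, ← hqd,
    resultant_eq_prod_eval qc hcc n (natDegree_map_le.trans hn) (IsAlgClosed.splits qc), hqlc] at hres
  set R := resultant q h qc.natDegree n with hR
  have hRne : R ≠ 0 := by
    intro h0
    rw [h0, map_zero, mul_eq_zero] at hres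
    rcases hres with h1 | h1
    · have h2 : ((q.leadingCoeff : ℤ) : ℂ) = 0 := by
        by_contra h3; exact pow_ne_zero n h3 h1
      exact (leadingCoeff_ne_zero.2 hq0) (by exact_mod_cast h2)
    · rw [Multiset.prod_eq_zero_iff, Multiset.mem_map] at h1
      obtain ⟨z, hz, hz2⟩ := h1
      have h3 : aeval z q = 0 := by
        rw [← heval]; exact isRoot_of_mem_roots hz
      exact hne z h3 (by rw [← heval]; exact hz2)
  have hR1 : (1 : ℝ) ≤ ‖((R : ℤ) : ℂ)‖ := by
    rw [Complex.norm_intCast]
    exact_mod_cast Int.one_le_abs hRne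
  have hRval : ((R : ℤ) : ℂ) = (q.leadingCoeff : ℂ) ^ n * (qc.roots.map hcc.eval).prod := hres.symm
  rw [hRval, norm_mul, norm_pow] at hR1
  -- bound of the leading coefficient
  have hlc : ‖(q.leadingCoeff : ℂ)‖ ≤ A := by
    rw [Complex.norm_intCast]
    obtain ⟨r, hr⟩ := hqP
    have h1 : P.leadingCoeff = q.leadingCoeff * r.leadingCoeff := by rw [hr, leadingCoeff_mul]
    have hr0 : r ≠ 0 := by rintro rfl; rw [mul_zero] at hr; exact hP hr
    have h2 : (1 : ℤ) ≤ |r.leadingCoeff| := Int.one_le_abs (leadingCoeff_ne_zero.2 hr0)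
    have h3 : |q.leadingCoeff| ≤ |P.leadingCoeff| := by
      rw [h1, abs_mul]
      exact le_mul_of_one_le_right (abs_nonneg _) h2
    calc (|(q.leadingCoeff : ℝ)|) ≤ |(P.leadingCoeff : ℝ)| := by exact_mod_cast h3
      _ ≤ A := hA
  -- the product
  have hcroot : c ∈ qc.roots := by
    rw [mem_roots hqc0, IsRoot, heval]; exact hqc
  have hprod : ‖(qc.roots.map hcc.eval).prod‖ ≤ ‖aeval c h‖ * B ^ P.natDegree := by
    rw [← Multiset.cons_erase hcroot, Multiset.map_cons, Multiset.prod_cons, norm_mul, heval]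
    refine mul_le_mul_of_nonneg_left ?_ (norm_nonneg _)
    have h1 : ‖((qc.roots.erase c).map hcc.eval).prod‖ ≤ B ^ Multiset.card (qc.roots.erase c) := by
      have : ∀ s : Multiset ℂ, (∀ z ∈ s, z ∈ qc.roots) →
          ‖(s.map hcc.eval).prod‖ ≤ B ^ Multiset.card s := by
        intro s
        induction s using Multiset.induction_on with
        | empty => intro _; simp
        | cons a s ih =>
          intro hs
          rw [Multiset.map_cons, Multiset.prod_cons, Multiset.card_cons, norm_mul, pow_succ']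
          have ha : aeval a P = 0 := by
            obtain ⟨r, hr⟩ := hqP
            rw [hr, map_mul, ← heval a q, isRoot_of_mem_roots (hs a (Multiset.mem_cons_self a s)),
              zero_mul]
          have h2 := hB a ha
          rw [← heval] at h2
          exact mul_le_mul h2 (ih fun z hz => hs z (Multiset.mem_cons_of_mem hz)) (norm_nonneg _)
            (by linarith)
      exact this _ fun z hz => Multiset.mem_of_mem_erase hz
    refine h1.trans (pow_le_pow_right₀ hB1 ?_)
    calc Multiset.card (qc.roots.erase c) ≤ Multiset.card qc.roots :=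
          Multiset.card_le_card (Multiset.erase_le _ _)
      _ ≤ qc.natDegree := qc.card_roots'
      _ = q.natDegree := hqd
      _ ≤ P.natDegree := natDegree_le_of_dvd hqP hP
  calc (1 : ℝ) ≤ ‖(q.leadingCoeff : ℂ)‖ ^ n * ‖(qc.roots.map hcc.eval).prod‖ := hR1
    _ ≤ A ^ n * (‖aeval c h‖ * B ^ P.natDegree) :=
        mul_le_mul (pow_le_pow_left₀ (norm_nonneg _) hlc n) hprod (norm_nonneg _)
          (pow_nonneg ((norm_nonneg _).trans hlc) n)
    _ = _ := by ring

end RootCH
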