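import Pool.Agent.Work.MP_859ada_lc.CH.Fun

namespace RootCH

lemma Fn.div {F G : (ℕ → ℕ) → ℕ} (hF : Fn F) (hG : Fn G) : Fn fun v => F v / G v := by
  refine Fn.of_graph (R := fun y v => (G v = 0 ∧ y = 0) ∨ (G v ≠ 0 ∧ G v * y ≤ F v ∧
      F v < G v * (y + 1)))
    (((CH.eq hG.shift Fn.zero).and (CH.eq (Fn.var 0) Fn.zero)).or
      ((CH.eq hG.shift Fn.zero).not.and
        ((CH.le (hG.shift.mul (Fn.var 0)) hF.shift).and
          (CH.lt hF.shift (hG.shift.mul ((Fn.var 0).add Fn.one)))))) (fun v y => ?_)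
    (PolyB.size_of_le hF.2 fun v => Nat.div_le_self _ _)
  rcases Nat.eq_zero_or_pos (G v) with h | h
  · simp [h, eq_comm]
  · have h1 : G v ≠ 0 := by omega
    simp only [h1, false_and, ne_eq, not_false_eq_true, true_and, false_or]
    constructor
    · rintro ⟨h2, h3⟩
      refine (Nat.div_eq_of_lt_le ?_ ?_)
      · rw [mul_comm]; exact h2
      · rw [mul_comm]; exact h3
    · rintro rfl
      exact ⟨Nat.mul_div_le _ _, Nat.lt_mul_div_succ _ h⟩

lemma Fn.mod {F G : (ℕ → ℕ) → ℕ} (hF : Fn F) (hG : Fn G) : Fn fun v => F v % G v :=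
  (hF.sub (hG.mul (hF.div hG))).congr fun v => by
    have := Nat.div_add_mod (F v) (G v); omega

lemma Fn.min {F G : (ℕ → ℕ) → ℕ} (hF : Fn F) (hG : Fn G) : Fn fun v => Min.min (F v) (G v) :=
  (hF.sub (hF.sub hG)).congr fun v => by omega

lemma Fn.max {F G : (ℕ → ℕ) → ℕ} (hF : Fn F) (hG : Fn G) : Fn fun v => Max.max (F v) (G v) :=
  (hF.add (hG.sub hF)).congr fun v => by omega

lemma CH.dvd {F G : (ℕ → ℕ) → ℕ} (hF : Fn F) (hG : Fn G) : CH fun v => F v ∣ G v :=
  (CH.eq (hG.mod hF) Fn.zero).congr fun v => by rw [Nat.dvd_iff_mod_eq_zero]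

/-- least witness below a bound -/
noncomputable def mu (B : ℕ) (P : ℕ → Prop) : ℕ := cnt B fun y => ∀ z ≤ y, ¬ P z

lemma Fn.mu {B : (ℕ → ℕ) → ℕ} (hB : Fn B) {R : ℕ → (ℕ → ℕ) → Prop}
    (hR : CH fun v => R (v 0) (tail v)) : Fn fun v => RootCH.mu (B v) (fun y => R y v) := by
  refine Fn.count hB (R := fun y v => ∀ z ≤ y, ¬ R z v) ?_
  have h : CH fun v => ∀ z < v 0 + 1, ¬ R z (tail v) := by
    refine CH.allB (R := fun z v => ¬ R z (tail v)) ((Fn.var 0).add Fn.one) ?_
    refine (hR.not.rename (fun k => match k with | 0 => 0 | k + 1 => k + 2)).congr fun v => ?_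
    exact Iff.rfl
  exact h.congr fun v => by simp only [Nat.lt_succ_iff]

lemma mu_eq {B n : ℕ} {P : ℕ → Prop} (hn : n < B) (hP : P n) (hmin : ∀ z < n, ¬ P z) :
    mu B P = n := by
  classical
  unfold mu
  rw [cnt_eq_card]
  have : (Finset.range B).filter (fun y => ∀ z ≤ y, ¬ P z) = Finset.range n := by
    ext y
    simp only [Finset.mem_filter, Finset.mem_range]
    constructor
    · rintro ⟨_, h2⟩
      by_contra h
      exact h2 n (by omega) hP
    · intro h
      exact ⟨by omega, fun z hz => hmin z (by omega)⟩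
  rw [this, Finset.card_range]

lemma mu_spec {B : ℕ} {P : ℕ → Prop} (h : ∃ n < B, P n) :
    mu B P < B ∧ P (mu B P) ∧ ∀ z < mu B P, ¬ P z := by
  classical
  obtain ⟨n, hn, hP⟩ := h
  have hex : ∃ n, P n := ⟨n, hP⟩
  have h1 : Nat.find hex < B := lt_of_le_of_lt (Nat.find_min' hex hP) hn
  have e : mu B P = Nat.find hex :=
    mu_eq h1 (Nat.find_spec hex) fun z hz => Nat.find_min hex hz
  rw [e]
  exact ⟨h1, Nat.find_spec hex, fun z hz => Nat.find_min hex hz⟩

/-! ### powers of two -/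

def IsP2 (y : ℕ) : Prop := y ≠ 0 ∧ ∀ d < y + 1, d ∣ y → d = 1 ∨ 2 ∣ d

lemma isP2_iff (y : ℕ) : IsP2 y ↔ ∃ k, y = 2 ^ k := by
  constructor
  · rintro ⟨h0, h⟩
    rcases Nat.eq_two_pow_or_exists_odd_prime_and_dvd y with ⟨k, hk⟩ | ⟨p, hp, hpd, hodd⟩
    · exact ⟨k, hk⟩
    · exfalso
      rcases h p (Nat.lt_succ_of_le (Nat.le_of_dvd (Nat.pos_of_ne_zero h0) hpd)) hpd with h1 | h1
      · exact hp.one_lt.ne' h1
      · exact (Nat.not_even_iff_odd.2 hodd) (even_iff_two_dvd.2 h1)
  · rintro ⟨k, rfl⟩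
    refine ⟨by positivity, fun d _ hd => ?_⟩
    obtain ⟨j, _, rfl⟩ := (Nat.dvd_prime_pow Nat.prime_two).1 hd
    cases j with
    | zero => left; simp
    | succ j => right; exact dvd_pow_self 2 (by omega)

lemma CH.isP2 {F : (ℕ → ℕ) → ℕ} (hF : Fn F) : CH fun v => IsP2 (F v) := by
  refine CH.comp1 (P := IsP2) ?_ hF
  refine (CH.eq (Fn.var 0) Fn.zero).not.and (CH.allB (R := fun d v => d ∣ v 0 → d = 1 ∨ 2 ∣ d)
    ((Fn.var 0).add Fn.one) ?_)
  exact (CH.dvd (Fn.var 0) (Fn.var 1)).imp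
    ((CH.eq (Fn.var 0) Fn.one).or (CH.dvd (Fn.const 2) (Fn.var 0)))

lemma cnt_isP2 (x : ℕ) : cnt (x + 1) IsP2 = Nat.size x := by
  classical
  rw [cnt_eq_card]
  have : (Finset.range (x + 1)).filter IsP2 =
      (Finset.range (Nat.size x)).image fun k => 2 ^ k := by
    ext y
    simp only [Finset.mem_filter, Finset.mem_range, Finset.mem_image, isP2_iff]
    constructor
    · rintro ⟨h1, k, rfl⟩
      exact ⟨k, Nat.lt_size.2 (by omega), rfl⟩
    · rintro ⟨k, hk, rfl⟩
      exact ⟨by have := Nat.lt_size.1 hk; omega, k, rfl⟩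
  rw [this, Finset.card_image_of_injective, Finset.card_range]
  exact Nat.pow_right_injective le_rfl

lemma Fn.size {F : (ℕ → ℕ) → ℕ} (hF : Fn F) : Fn fun v => Nat.size (F v) :=
  (Fn.count (hF.add Fn.one) (R := fun y _ => IsP2 y) (CH.isP2 (Fn.var 0))).congr
    fun v => cnt_isP2 _

lemma Fn.two_pow {F : (ℕ → ℕ) → ℕ} (hF : Fn F) (hb : PolyB F) : Fn fun v => 2 ^ F v := by
  refine Fn.of_graph (R := fun y v => IsP2 y ∧ Nat.size y = F v + 1)
    ((CH.isP2 (Fn.var 0)).and (CH.eq (Fn.var 0).size (hF.shift.add Fn.one))) (fun v y => ?_)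
    ((hb.add (PolyB.const 1)).mono fun v => by rw [Nat.size_pow])
  rw [isP2_iff]
  constructor
  · rintro ⟨⟨k, rfl⟩, h⟩
    rw [Nat.size_pow] at h
    congr 1; omega
  · intro h
    exact ⟨⟨F v, h.symm⟩, by rw [← h, Nat.size_pow]⟩

/-- `PolyB` functions are also bounded after composition with length -/
lemma PolyB.size {F : (ℕ → ℕ) → ℕ} (hF : PolyB F) : PolyB fun v => Nat.size (F v) :=
  hF.mono fun v => by
    rw [Nat.size_le]
    exact Nat.lt_two_pow_self

/-! ### digits and bounded recursion -/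

/-- the `i`-th digit of `s` in base `2 ^ w` -/
def dig (w s i : ℕ) : ℕ := s / 2 ^ (w * i) % 2 ^ w

lemma dig_lt (w s i : ℕ) : dig w s i < 2 ^ w := Nat.mod_lt _ (by positivity)

lemma exists_dig (w n : ℕ) (a : ℕ → ℕ) (ha : ∀ i < n, a i < 2 ^ w) :
    ∃ s < 2 ^ (w * n), ∀ i < n, dig w s i = a i := by
  induction n with
  | zero => exact ⟨0, by simp, fun i hi => by omega⟩
  | succ n ih =>
    obtain ⟨s, hs, h⟩ := ih fun i hi => ha i (by omega)
    refine ⟨s + 2 ^ (w * n) * a n, ?_, fun i hi => ?_⟩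
    · have h1 := ha n (by omega)
      calc s + 2 ^ (w * n) * a n < 2 ^ (w * n) + 2 ^ (w * n) * a n := by omega
        _ = 2 ^ (w * n) * (a n + 1) := by ring
        _ ≤ 2 ^ (w * n) * 2 ^ w := Nat.mul_le_mul_left _ h1
        _ = 2 ^ (w * (n + 1)) := by rw [← pow_add]; ring_nf
    · rcases Nat.lt_succ_iff_lt_or_eq.1 hi with h1 | rfl
      · rw [← h i h1]
        unfold dig
        have e1 : 2 ^ (w * n) = 2 ^ (w * i) * (2 ^ w * 2 ^ (w * (n - i - 1))) := by
          rw [← pow_add, ← pow_add]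
          congr 1
          obtain ⟨k, rfl⟩ : ∃ k, n = i + 1 + k := ⟨n - (i + 1), by omega⟩
          have : i + 1 + k - i - 1 = k := by omega
          rw [this]; ring
        rw [e1, mul_assoc, Nat.add_mul_div_left _ _ (by positivity), mul_assoc,
          Nat.add_mul_mod_self_left]
      · unfold dig
        rw [Nat.add_mul_div_left _ _ (by positivity), Nat.div_eq_of_lt hs, zero_add,
          Nat.mod_eq_of_lt (ha i (by omega))]

lemma Fn.dig {W S I : (ℕ → ℕ) → ℕ} (hW : Fn W) (hS : Fn S) (hI : Fn I) (bW : PolyB W)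
    (bI : PolyB I) : Fn fun v => RootCH.dig (W v) (S v) (I v) :=
  (hS.div ((hW.mul hI).two_pow (bW.mul bI))).mod (hW.two_pow bW)

/-- bounded recursion of polynomial length -/
theorem Fn.natRec {m w b : (ℕ → ℕ) → ℕ} {h : ℕ → ℕ → (ℕ → ℕ) → ℕ} (hm : Fn m) (bm : PolyB m)
    (hw : Fn w) (bw : PolyB w) (hb : Fn b) (hh : Fn fun v => h (v 0) (v 1) (tail (tail v)))
    (hbd : ∀ v, ∀ i ≤ m v, Nat.rec (b v) (fun i r => h i r v) i < 2 ^ w v) :
    Fn fun v => Nat.rec (motive := fun _ => ℕ) (b v) (fun i r => h i r v) (m v) := by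
  -- graph with a coded table
  have hT : ∀ v y, (∃ s < 2 ^ (w v * (m v + 1)), RootCH.dig (w v) s 0 = b v ∧
      (∀ i < m v, RootCH.dig (w v) s (Min.min (i + 1) (m v)) =
        h i (RootCH.dig (w v) s (Min.min i (m v))) v) ∧ RootCH.dig (w v) s (m v) = y) ↔
      Nat.rec (motive := fun _ => ℕ) (b v) (fun i r => h i r v) (m v) = y := by
    intro v y
    constructor
    · rintro ⟨s, _, h0, h1, h2⟩
      rw [← h2]
      have : ∀ i ≤ m v, RootCH.dig (w v) s i =
          Nat.rec (motive := fun _ => ℕ) (b v) (fun i r => h i r v) i := by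
        intro i
        induction i with
        | zero => intro _; exact h0
        | succ i ih =>
          intro hi
          have h3 := h1 i (by omega)
          rw [min_eq_left hi, min_eq_left (by omega : i ≤ m v), ih (by omega)] at h3
          exact h3
      exact (this _ le_rfl).symm
    · intro hy
      obtain ⟨s, hs, h1⟩ := exists_dig (w v) (m v + 1)
        (fun i => Nat.rec (motive := fun _ => ℕ) (b v) (fun i r => h i r v) i)
        (fun i hi => hbd v i (by omega))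
      refine ⟨s, hs, ?_, fun i hi => ?_, ?_⟩
      · rw [h1 0 (by omega)]; rfl
      · rw [min_eq_left (by omega : i + 1 ≤ m v), min_eq_left (by omega : i ≤ m v),
          h1 _ (by omega), h1 _ (by omega)]
      · rw [h1 _ (by omega), hy]
  refine Fn.of_graph (R := fun y v => ∃ s < 2 ^ (w v * (m v + 1)), RootCH.dig (w v) s 0 = b v ∧
      (∀ i < m v, RootCH.dig (w v) s (Min.min (i + 1) (m v)) =
        h i (RootCH.dig (w v) s (Min.min i (m v))) v) ∧ RootCH.dig (w v) s (m v) = y) ?_ hT ?_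
  · refine CH.exB (R := fun s u => RootCH.dig (w (tail u)) s 0 = b (tail u) ∧
      (∀ i < m (tail u), RootCH.dig (w (tail u)) s (Min.min (i + 1) (m (tail u))) =
        h i (RootCH.dig (w (tail u)) s (Min.min i (m (tail u)))) (tail u)) ∧
        RootCH.dig (w (tail u)) s (m (tail u)) = u 0)
      ((hw.shift.mul (hm.shift.add Fn.one)).two_pow
        (bw.shift.mul (bm.shift.add (PolyB.const 1)))) ?_
    -- env: 0 = s, 1 = y, rest
    refine (CH.eq (Fn.dig hw.shift.shift (Fn.var 0) Fn.zero bw.shift.shift (PolyB.const 0))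
      hb.shift.shift).and (CH.and ?_ (CH.eq (Fn.dig hw.shift.shift (Fn.var 0) hm.shift.shift
        bw.shift.shift bm.shift.shift) (Fn.var 1)))
    refine CH.allB (R := fun i u => RootCH.dig (w (tail (tail u))) (u 0)
        (Min.min (i + 1) (m (tail (tail u)))) =
        h i (RootCH.dig (w (tail (tail u))) (u 0) (Min.min i (m (tail (tail u)))))
          (tail (tail u))) hm.shift.shift ?_
    -- env: 0 = i, 1 = s, 2 = y, rest
    have bmin : PolyB fun u => Min.min (u 0) (m (tail (tail (tail u)))) :=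
      bm.shift.shift.shift.mono fun u => min_le_right _ _
    have bmin1 : PolyB fun u => Min.min (u 0 + 1) (m (tail (tail (tail u)))) :=
      bm.shift.shift.shift.mono fun u => min_le_right _ _
    refine CH.eq (Fn.dig hw.shift.shift.shift (Fn.var 1)
      (((Fn.var 0).add Fn.one).min hm.shift.shift.shift) bw.shift.shift.shift bmin1) ?_
    -- substitute the digit into h
    have hd := Fn.dig hw.shift.shift.shift (Fn.var 1) ((Fn.var 0).min hm.shift.shift.shift)
      bw.shift.shift.shift bmin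
    exact (hh.rename (fun k => match k with | 0 => 1 | 1 => 0 | k + 2 => k + 4)).subst hd
  · refine (bw).mono fun v => ?_
    rw [Nat.size_le]
    exact hbd v _ le_rfl

end RootCH
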