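import Pool.Agent.Work.MP_859ada_lc.CH.Defs

namespace RootCH

/-- Forget the first value of an environment. -/
def tail (v : ℕ → ℕ) : ℕ → ℕ := fun k => v (k + 1)

@[simp] lemma cons_zero (y : ℕ) (v : ℕ → ℕ) : cons y v 0 = y := rfl
@[simp] lemma cons_succ (y : ℕ) (v : ℕ → ℕ) (k : ℕ) : cons y v (k + 1) = v k := rfl
@[simp] lemma tail_cons (y : ℕ) (v : ℕ → ℕ) : tail (cons y v) = v := rfl
@[simp] lemma tail_apply (v : ℕ → ℕ) (k : ℕ) : tail v k = v (k + 1) := rfl
lemma cons_head_tail (v : ℕ → ℕ) : cons (v 0) (tail v) = v := by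
  funext k; cases k <;> rfl

lemma CH.congr {R S : (ℕ → ℕ) → Prop} (h : CH R) (e : ∀ v, R v ↔ S v) : CH S := by
  have : R = S := by funext v; exact propext (e v)
  exact this ▸ h

/-- lift a renaming under a binder -/
def lift (r : ℕ → ℕ) : ℕ → ℕ
  | 0 => 0
  | k + 1 => r k + 1

lemma cons_comp_lift (y : ℕ) (v r : ℕ → ℕ) : cons y v ∘ lift r = cons y (v ∘ r) := by
  funext k; cases k <;> rfl

lemma len_comp (J : List ℕ) (v r : ℕ → ℕ) : len J (v ∘ r) = len (J.map r) v := by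
  simp [len, List.map_map, Function.comp_def]

lemma bd_comp (J : List ℕ) (c : ℕ) (v r : ℕ → ℕ) : bd J c (v ∘ r) = bd (J.map r) c v := by
  simp [bd, len_comp]

theorem CH.rename {R : (ℕ → ℕ) → Prop} (h : CH R) : ∀ r : ℕ → ℕ, CH fun v => R (v ∘ r) := by
  induction h with
  | add i j k => intro r; exact CH.add (r i) (r j) (r k)
  | mul i j k => intro r; exact CH.mul (r i) (r j) (r k)
  | not _ ih => intro r; exact (ih r).not
  | and _ _ ih1 ih2 => intro r; exact (ih1 r).and (ih2 r)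
  | ex J c _ ih =>
    intro r
    refine ((ih (lift r)).ex (J.map r) c).congr fun v => ?_
    simp only [cons_comp_lift, bd_comp]
  | count J c i _ ih =>
    intro r
    refine ((ih (lift r)).count (J.map r) c (r i)).congr fun v => ?_
    simp only [cons_comp_lift, bd_comp, Function.comp]

lemma CH.shift {R : (ℕ → ℕ) → Prop} (h : CH R) : CH fun v => R (tail v) :=
  (h.rename fun k => k + 1).congr fun _ => Iff.rfl

lemma CH.or {R S : (ℕ → ℕ) → Prop} (h1 : CH R) (h2 : CH S) : CH fun v => R v ∨ S v :=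
  ((h1.not.and h2.not).not).congr fun v => by tauto

lemma CH.imp {R S : (ℕ → ℕ) → Prop} (h1 : CH R) (h2 : CH S) : CH fun v => R v → S v :=
  (h1.not.or h2).congr fun v => by tauto

lemma CH.iff {R S : (ℕ → ℕ) → Prop} (h1 : CH R) (h2 : CH S) : CH fun v => R v ↔ S v :=
  ((h1.imp h2).and (h2.imp h1)).congr fun v => by tauto

lemma CH.true : CH fun _ => True := by
  refine ((CH.add 0 0 0).or (CH.add 0 0 0).not).congr fun v => ?_
  simp [em]

lemma CH.false : CH fun _ => False := CH.true.not.congr fun v => by simp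

lemma CH.const (p : Prop) : CH fun _ => p := by
  by_cases hp : p
  · exact CH.true.congr fun v => by simp [hp]
  · exact CH.false.congr fun v => by simp [hp]

/-! ### polynomially bounded functions -/

/-- The value of `G` is bounded by a polynomial in the bit length of finitely many inputs. -/
def PolyB (G : (ℕ → ℕ) → ℕ) : Prop := ∃ (J : List ℕ) (c : ℕ), ∀ v, G v ≤ (len J v + c) ^ c

lemma len_append (J K : List ℕ) (v : ℕ → ℕ) : len (J ++ K) v = len J v + len K v := by
  simp [len]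

lemma PolyB.mono {F G : (ℕ → ℕ) → ℕ} (hG : PolyB G) (h : ∀ v, F v ≤ G v) : PolyB F := by
  obtain ⟨J, c, hc⟩ := hG
  exact ⟨J, c, fun v => (h v).trans (hc v)⟩

lemma PolyB.const (a : ℕ) : PolyB fun _ => a := by
  refine ⟨[], a + 1, fun v => ?_⟩
  have : a ≤ a + 1 := Nat.le_succ a
  calc a ≤ (len [] v + (a + 1)) := by omega
    _ ≤ (len [] v + (a + 1)) ^ (a + 1) := Nat.le_self_pow (by omega) _

lemma PolyB.size_var (i : ℕ) : PolyB fun v => Nat.size (v i) := by
  refine ⟨[i], 1, fun v => ?_⟩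
  simp [len]

lemma PolyB.two {F G : (ℕ → ℕ) → ℕ} (hF : PolyB F) (hG : PolyB G) :
    ∃ (J : List ℕ) (c : ℕ), (∀ v, F v ≤ (len J v + c) ^ c) ∧ ∀ v, G v ≤ (len J v + c) ^ c := by
  obtain ⟨J, c, hc⟩ := hF
  obtain ⟨K, d, hd⟩ := hG
  refine ⟨J ++ K, c + d + 1, fun v => (hc v).trans ?_, fun v => (hd v).trans ?_⟩
  · rw [len_append]
    calc (len J v + c) ^ c ≤ (len J v + len K v + (c + d + 1)) ^ c :=
          Nat.pow_le_pow_left (by omega) _
      _ ≤ _ := Nat.pow_le_pow_right (by omega) (by omega)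
  · rw [len_append]
    calc (len K v + d) ^ d ≤ (len J v + len K v + (c + d + 1)) ^ d :=
          Nat.pow_le_pow_left (by omega) _
      _ ≤ _ := Nat.pow_le_pow_right (by omega) (by omega)

lemma PolyB.mul {F G : (ℕ → ℕ) → ℕ} (hF : PolyB F) (hG : PolyB G) :
    PolyB fun v => F v * G v := by
  obtain ⟨J, c, h1, h2⟩ := hF.two hG
  refine ⟨J, c + c, fun v => (Nat.mul_le_mul (h1 v) (h2 v)).trans ?_⟩
  rw [← pow_add]
  exact Nat.pow_le_pow_left (by omega) _

lemma PolyB.add {F G : (ℕ → ℕ) → ℕ} (hF : PolyB F) (hG : PolyB G) :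
    PolyB fun v => F v + G v := by
  obtain ⟨J, c, h1, h2⟩ := hF.two hG
  refine ⟨J, c + 2, fun v => (add_le_add (h1 v) (h2 v)).trans ?_⟩
  have : (len J v + c) ^ c ≤ (len J v + (c + 2)) ^ c := Nat.pow_le_pow_left (by omega) _
  calc (len J v + c) ^ c + (len J v + c) ^ c ≤ 2 * (len J v + (c + 2)) ^ c := by omega
    _ ≤ (len J v + (c + 2)) * (len J v + (c + 2)) ^ c := Nat.mul_le_mul_right _ (by omega)
    _ = (len J v + (c + 2)) ^ (c + 1) := by rw [pow_succ, mul_comm]
    _ ≤ _ := Nat.pow_le_pow_right (by omega) (by omega)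

lemma PolyB.pow {F : (ℕ → ℕ) → ℕ} (hF : PolyB F) (n : ℕ) : PolyB fun v => F v ^ n := by
  induction n with
  | zero => simpa using PolyB.const 1
  | succ n ih => simpa [pow_succ] using ih.mul hF

/-- `PolyB` for the total length of a list of functions with polynomially bounded length. -/
lemma PolyB.sum_list {ι : Type} (l : List ι) (F : ι → (ℕ → ℕ) → ℕ)
    (h : ∀ i ∈ l, PolyB (F i)) : PolyB fun v => (l.map fun i => F i v).sum := by
  induction l with
  | nil => simpa using PolyB.const 0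
  | cons a l ih =>
    simp only [List.map_cons, List.sum_cons]
    exact (h a (by simp)).add (ih fun i hi => h i (by simp [hi]))

/-- composition of polynomial bounds -/
lemma PolyB.comp {G : (ℕ → ℕ) → ℕ} (hG : PolyB G) (E : (ℕ → ℕ) → ℕ → ℕ)
    (hE : ∀ i, PolyB fun v => Nat.size (E v i)) : PolyB fun v => G (E v) := by
  obtain ⟨J, c, hc⟩ := hG
  have h1 : PolyB fun v => len J (E v) := by
    unfold len
    exact PolyB.sum_list J (fun j v => Nat.size (E v j)) fun i _ => hE i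
  exact ((h1.add (PolyB.const c)).pow c).mono fun v => hc _

lemma PolyB.shift {G : (ℕ → ℕ) → ℕ} (hG : PolyB G) : PolyB fun v => G (tail v) :=
  hG.comp (fun v => tail v) fun i => PolyB.size_var (i + 1)

/-! ### definable functions -/

/-- `F` has its graph in `CH` and polynomially bounded length. -/
def Fn (F : (ℕ → ℕ) → ℕ) : Prop :=
  CH (fun v => F (tail v) = v 0) ∧ PolyB fun v => Nat.size (F v)

lemma size_lt_iff {m n : ℕ} : Nat.size m ≤ n ↔ m < 2 ^ n := Nat.size_le

lemma Fn.bound {F : (ℕ → ℕ) → ℕ} (h : Fn F) : ∃ J c, ∀ v, F v < bd J c v := by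
  obtain ⟨J, c, hc⟩ := h.2
  exact ⟨J, c, fun v => Nat.size_le.1 (hc v)⟩

theorem CH.subst {R : (ℕ → ℕ) → Prop} (hR : CH R) {F : (ℕ → ℕ) → ℕ} (hF : Fn F) :
    CH fun v => R (cons (F v) v) := by
  obtain ⟨J, c, hb⟩ := hF.bound
  refine ((hF.1.and hR).ex J c).congr fun v => ?_
  constructor
  · rintro ⟨y, _, h1, h2⟩
    simp only [tail_cons, cons_zero] at h1
    rw [h1]; exact h2
  · intro h
    exact ⟨F v, hb v, by simp, h⟩

lemma Fn.congr {F G : (ℕ → ℕ) → ℕ} (h : Fn F) (e : ∀ v, F v = G v) : Fn G := by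
  have : F = G := funext e
  exact this ▸ h

lemma Fn.shift {F : (ℕ → ℕ) → ℕ} (h : Fn F) : Fn fun v => F (tail v) := by
  refine ⟨?_, h.2.shift⟩
  refine (h.1.rename (fun k => match k with | 0 => 0 | k + 1 => k + 2)).congr fun v => ?_
  have : tail (v ∘ fun k => match k with | 0 => 0 | k + 1 => k + 2)
      = tail (tail v) := by funext k; rfl
  rw [this]; rfl

lemma eq_graph : CH fun v => v 0 = v 1 := by
  -- v0 = v1 iff exists z, z + z = z (z = 0) and v0 + z = v1
  refine (((CH.add 0 0 0).and (CH.add 1 0 2)).ex [] 0).congr fun v => ?_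
  simp only [cons_zero]
  constructor
  · rintro ⟨y, _, h1, h2⟩
    have h2' : v 0 + y = v 1 := h2
    omega
  · intro h
    refine ⟨0, by simp [bd], by simp, ?_⟩
    change v 0 + 0 = v 1
    omega

lemma CH.eqv (i j : ℕ) : CH fun v => v i = v j :=
  (eq_graph.rename fun k => match k with | 0 => i | _ => j).congr fun _ => Iff.rfl

lemma Fn.var (i : ℕ) : Fn fun v => v i :=
  ⟨CH.eqv (i + 1) 0, PolyB.size_var i⟩

/-- two-variable relations -/
lemma CH.comp1 {P : ℕ → Prop} (h : CH fun v => P (v 0)) {A : (ℕ → ℕ) → ℕ} (hA : Fn A) :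
    CH fun v => P (A v) := h.subst hA

lemma CH.comp2 {P : ℕ → ℕ → Prop} (h : CH fun v => P (v 0) (v 1)) {A B : (ℕ → ℕ) → ℕ}
    (hA : Fn A) (hB : Fn B) : CH fun v => P (A v) (B v) :=
  (h.subst hA.shift).subst hB

lemma CH.comp3 {P : ℕ → ℕ → ℕ → Prop} (h : CH fun v => P (v 0) (v 1) (v 2))
    {A B C : (ℕ → ℕ) → ℕ} (hA : Fn A) (hB : Fn B) (hC : Fn C) :
    CH fun v => P (A v) (B v) (C v) :=
  ((h.subst hA.shift.shift).subst hB.shift).subst hC

lemma CH.comp4 {P : ℕ → ℕ → ℕ → ℕ → Prop} (h : CH fun v => P (v 0) (v 1) (v 2) (v 3))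
    {A B C D : (ℕ → ℕ) → ℕ} (hA : Fn A) (hB : Fn B) (hC : Fn C) (hD : Fn D) :
    CH fun v => P (A v) (B v) (C v) (D v) :=
  (((h.subst hA.shift.shift.shift).subst hB.shift.shift).subst hC.shift).subst hD

end RootCH
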