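import Mathlib

namespace RootCH

open Finset Polynomial

lemma res_quadratic (g : ℝ[X]) (n : ℕ) (hn : g.natDegree ≤ n) (z : ℂ) :
    0 ≤ resultant (X ^ 2 - C (2 * z.re) * X + C (‖z‖ ^ 2)) g 2 n := by
  have h1 : (X ^ 2 - C (2 * z.re) * X + C (‖z‖ ^ 2) : ℝ[X]).map (algebraMap ℝ ℂ) =
      (X - C z) * (X - C (starRingEnd ℂ z)) := by
    have e1 : (C (2 * z.re : ℂ) : ℂ[X]) = C z + C (starRingEnd ℂ z) := by
      rw [← C_add, Complex.add_conj]; push_cast; rfl
    have e2 : (C ((‖z‖ : ℂ) ^ 2) : ℂ[X]) = C z * C (starRingEnd ℂ z) := by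
      rw [← C_mul, Complex.mul_conj']
    simp only [Polynomial.map_add, Polynomial.map_sub, Polynomial.map_mul, Polynomial.map_pow,
      map_X, map_C, Complex.coe_algebraMap]
    push_cast
    rw [e1, e2]; ring
  have h2 := resultant_map_map (X ^ 2 - C (2 * z.re) * X + C (‖z‖ ^ 2)) g 2 n (algebraMap ℝ ℂ)
  rw [h1] at h2
  have hg : (g.map (algebraMap ℝ ℂ)).natDegree ≤ n := natDegree_map_le.trans hn
  have h3 := resultant_mul_left (X - C z) (X - C (starRingEnd ℂ z)) (g.map (algebraMap ℝ ℂ)) n hg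
  simp only [natDegree_X_sub_C] at h3
  rw [resultant_X_sub_C_left _ _ _ hg, resultant_X_sub_C_left _ _ _ hg] at h3
  have h4 : eval (starRingEnd ℂ z) (g.map (algebraMap ℝ ℂ)) =
      starRingEnd ℂ (eval z (g.map (algebraMap ℝ ℂ))) := by
    rw [eval_map_algebraMap, eval_map_algebraMap]
    exact aeval_conj g z
  rw [h4, Complex.mul_conj] at h3
  have h5 : (algebraMap ℝ ℂ) (resultant (X ^ 2 - C (2 * z.re) * X + C (‖z‖ ^ 2)) g 2 n) =
      ((Complex.normSq (eval z (g.map (algebraMap ℝ ℂ))) : ℝ) : ℂ) := by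
    rw [← h2]; exact h3
  have h6 : resultant (X ^ 2 - C (2 * z.re) * X + C (‖z‖ ^ 2)) g 2 n =
      Complex.normSq (eval z (g.map (algebraMap ℝ ℂ))) := by
    rw [Complex.coe_algebraMap] at h5
    exact_mod_cast h5
  rw [h6]
  exact Complex.normSq_nonneg _

lemma monic_quadratic (z : ℂ) : (X ^ 2 - C (2 * z.re) * X + C (‖z‖ ^ 2) : ℝ[X]).Monic := by
  monicity!

lemma natDegree_quadratic (z : ℂ) :
    (X ^ 2 - C (2 * z.re) * X + C (‖z‖ ^ 2) : ℝ[X]).natDegree = 2 := by
  compute_degree!

/-- The resultant of a monic real polynomial without real roots with any real polynomial is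
nonnegative. -/
theorem res_nonneg (g : ℝ[X]) (n : ℕ) (hn : g.natDegree ≤ n) : ∀ (d : ℕ) (Q : ℝ[X]),
    Q.natDegree = d → Q.Monic → (∀ x : ℝ, Q.eval x ≠ 0) → 0 ≤ resultant Q g Q.natDegree n := by
  intro d
  induction d using Nat.strong_induction_on with
  | _ d ih =>
    intro Q hd hQ hroot
    rcases Nat.eq_zero_or_pos d with h0 | h0
    · rw [hQ.natDegree_eq_zero.1 (hd.trans h0)]
      simp
    · obtain ⟨z, hz⟩ := IsAlgClosed.exists_aeval_eq_zero ℂ Q (by
        rw [degree_eq_natDegree hQ.ne_zero, hd]; exact_mod_cast h0.ne')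
      have hzim : z.im ≠ 0 := by
        intro h
        have : z = (z.re : ℂ) := by
          apply Complex.ext <;> simp [h]
        apply hroot z.re
        rw [this] at hz
        have h2 : aeval ((z.re : ℝ) : ℂ) Q = ((Q.eval z.re : ℝ) : ℂ) := by
          rw [← Complex.coe_algebraMap, aeval_algebraMap_apply, Polynomial.coe_aeval_eq_eval]
        rw [h2] at hz
        exact_mod_cast hz
      obtain ⟨Q1, hQ1⟩ := Q.quadratic_dvd_of_aeval_eq_zero_im_ne_zero hz hzim
      have hq := monic_quadratic z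
      have hQ1m : Q1.Monic := hq.of_mul_monic_left (by rw [← hQ1]; exact hQ)
      have hdeg : Q.natDegree = 2 + Q1.natDegree := by
        conv_lhs => rw [hQ1]
        rw [hq.natDegree_mul hQ1m, natDegree_quadratic]
      have h1 := resultant_mul_left (X ^ 2 - C (2 * z.re) * X + C (‖z‖ ^ 2)) Q1 g n hn
      rw [natDegree_quadratic, ← hdeg, ← hQ1] at h1
      rw [h1]
      refine mul_nonneg (res_quadratic g n hn z) (ih Q1.natDegree (by omega) Q1 rfl hQ1m ?_)
      intro x hx
      apply hroot x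
      rw [hQ1, eval_mul, hx, mul_zero]

/-- splitting off the real roots -/
lemma exists_split (F : ℝ[X]) (hF : F.Monic) : ∃ Q : ℝ[X], Q.Monic ∧ (∀ x : ℝ, Q.eval x ≠ 0) ∧
    F = (F.roots.map fun a => X - C a).prod * Q := by
  obtain ⟨Q, h1, _, h3⟩ := exists_prod_multiset_X_sub_C_mul F
  have hm : ((F.roots.map fun a => X - C a).prod).Monic := monic_multiset_prod_of_monic _ _
    fun a _ => monic_X_sub_C a
  have hQ : Q.Monic := hm.of_mul_monic_left (by rw [h1]; exact hF)
  refine ⟨Q, hQ, fun x hx => ?_, h1.symm⟩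
  have : x ∈ Q.roots := (mem_roots hQ.ne_zero).2 hx
  rw [h3] at this
  exact Multiset.notMem_zero _ this

lemma res_multiset (g : ℝ[X]) (n : ℕ) (hn : g.natDegree ≤ n) (s : Multiset ℝ) :
    resultant (s.map fun a => X - C a).prod g (Multiset.card s) n = (s.map fun a => g.eval a).prod := by
  induction s using Multiset.induction_on with
  | empty => simp
  | cons a s ih =>
    rw [Multiset.map_cons, Multiset.prod_cons, Multiset.map_cons, Multiset.prod_cons,
      Multiset.card_cons, ← ih]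
    have h1 := resultant_mul_left (X - C a) ((s.map fun a => X - C a).prod) g n hn
    rw [natDegree_X_sub_C, natDegree_multiset_prod_X_sub_C_eq_card,
      resultant_X_sub_C_left _ _ _ hn] at h1
    rw [add_comm] at h1
    exact h1

/-- the resultant as product over real roots times a nonnegative factor -/
theorem res_eq (F g : ℝ[X]) (hF : F.Monic) (n : ℕ) (hn : g.natDegree ≤ n) :
    ∃ c : ℝ, 0 ≤ c ∧ resultant F g F.natDegree n = (F.roots.map fun a => g.eval a).prod * c := by
  obtain ⟨Q, hQ, hroot, hprod⟩ := exists_split F hF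
  refine ⟨resultant Q g Q.natDegree n, res_nonneg g n hn _ Q rfl hQ hroot, ?_⟩
  have h1 := resultant_mul_left ((F.roots.map fun a => X - C a).prod) Q g n hn
  rw [natDegree_multiset_prod_X_sub_C_eq_card, res_multiset g n hn] at h1
  have hm : ((F.roots.map fun a => X - C a).prod).Monic := monic_multiset_prod_of_monic _ _
    fun a _ => monic_X_sub_C a
  have hdeg : F.natDegree = Multiset.card F.roots + Q.natDegree := by
    conv_lhs => rw [hprod]
    rw [hm.natDegree_mul hQ, natDegree_multiset_prod_X_sub_C_eq_card]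
  rw [← hdeg, ← hprod] at h1
  exact h1

lemma prod_sign (F g : ℝ[X]) (α : ℝ) (hα : α ∈ F.roots) (hodd : Odd (F.roots.count α))
    (hneg : g.eval α < 0)
    (hpos : ∀ β ∈ F.roots, β ≠ α → Odd (F.roots.count β) → 0 < g.eval β) :
    (F.roots.map fun a => g.eval a).prod ≤ 0 := by
  classical
  rw [Finset.prod_multiset_map_count, ← Finset.mul_prod_erase _ _ (Multiset.mem_toFinset.2 hα)]
  refine mul_nonpos_of_nonpos_of_nonneg (hodd.pow_neg hneg).le (Finset.prod_nonneg fun β hβ => ?_)
  rw [Finset.mem_erase, Multiset.mem_toFinset] at hβ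
  rcases Nat.even_or_odd (F.roots.count β) with h | h
  · exact h.pow_nonneg _
  · exact pow_nonneg (hpos β hβ.2 hβ.1 h).le _

/-- the test polynomial detects an odd real root -/
theorem res_neg (F g : ℝ[X]) (hF : F.Monic) (n : ℕ) (hn : g.natDegree ≤ n) (α : ℝ)
    (hα : α ∈ F.roots) (hodd : Odd (F.roots.count α)) (hneg : g.eval α < 0)
    (hpos : ∀ β ∈ F.roots, β ≠ α → Odd (F.roots.count β) → 0 < g.eval β)
    (hne : resultant F g F.natDegree n ≠ 0) : resultant F g F.natDegree n < 0 := by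
  obtain ⟨c, hc, h⟩ := res_eq F g hF n hn
  refine lt_of_le_of_ne ?_ hne
  rw [h]
  exact mul_nonpos_of_nonpos_of_nonneg (prod_sign F g α hα hodd hneg hpos) hc

/-- a polynomial without real zeros has nonnegative resultants -/
theorem res_nonneg' (F g : ℝ[X]) (hF : F.Monic) (n : ℕ) (hn : g.natDegree ≤ n)
    (hroot : ∀ x : ℝ, F.eval x ≠ 0) : 0 ≤ resultant F g F.natDegree n :=
  res_nonneg g n hn _ F rfl hF hroot

lemma monic_pos_of_no_root (Q : ℝ[X]) (hQ : Q.Monic) (hroot : ∀ x : ℝ, Q.eval x ≠ 0) (ρ : ℝ) :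
    0 < Q.eval ρ := by
  rcases Nat.eq_zero_or_pos Q.natDegree with h0 | h0
  · rw [hQ.natDegree_eq_zero.1 h0]; simp
  · by_contra hcon
    have hneg : Q.eval ρ < 0 := lt_of_le_of_ne (not_lt.1 hcon) (hroot ρ)
    have ht := Q.tendsto_atTop_of_leadingCoeff_nonneg (natDegree_pos_iff_degree_pos.1 h0)
      (by rw [hQ.leadingCoeff]; norm_num)
    obtain ⟨x, hx1, hx2⟩ := ((ht.eventually_gt_atTop 0).and (Filter.eventually_ge_atTop ρ)).exists
    have h := intermediate_value_Icc hx2 Q.continuous.continuousOn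
    obtain ⟨y, _, hy⟩ := h ⟨hneg.le, hx1.le⟩
    exact hroot y hy

/-- a monic polynomial with a negative value has a real root of odd multiplicity -/
theorem exists_odd_root (F : ℝ[X]) (hF : F.Monic) (ρ : ℝ) (hρ : F.eval ρ < 0) :
    ∃ α ∈ F.roots, Odd (F.roots.count α) := by
  classical
  by_contra hcon
  push Not at hcon
  obtain ⟨Q, hQ, hroot, hprod⟩ := exists_split F hF
  have hQpos : 0 < Q.eval ρ := monic_pos_of_no_root Q hQ hroot ρ
  have h1 : 0 ≤ ((F.roots.map fun a => X - C a).prod).eval ρ := by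
    rw [eval_multiset_prod, Multiset.map_map, Finset.prod_multiset_map_count]
    refine Finset.prod_nonneg fun β hβ => ?_
    rw [Multiset.mem_toFinset] at hβ
    exact (Nat.not_odd_iff_even.1 (hcon β hβ)).pow_nonneg _
  rw [hprod, eval_mul] at hρ
  exact absurd (mul_nonneg h1 hQpos.le) (by linarith)

end RootCH
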