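import Pool.Agent.Work.MP_859ada_lc.CH.Thom
import Pool.Agent.Work.MP_859ada_lc.CH.ResSign

namespace RootCH

open Finset Polynomial

/-- The test polynomial. -/
noncomputable def gpoly {R : Type*} [CommRing R] (F : R[X]) (E : ℕ) (l : List (ℕ × ℕ × ℤ))
    (c : R) : R[X] :=
  (l.map fun t => (C (2 ^ t.2.1) * hasseDeriv t.1 F - C ((t.2.2 : R) * 2 ^ E)) ^ 2).sum - C c

lemma map_hasseDeriv {R S : Type*} [CommRing R] [CommRing S] (φ : R →+* S) (F : R[X]) (k : ℕ) :
    (hasseDeriv k F).map φ = hasseDeriv k (F.map φ) := by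
  ext i
  rw [coeff_map, hasseDeriv_coeff, hasseDeriv_coeff, coeff_map, map_mul, map_natCast]

lemma map_gpoly {R S : Type*} [CommRing R] [CommRing S] (φ : R →+* S) (F : R[X]) (E : ℕ)
    (l : List (ℕ × ℕ × ℤ)) (c : R) :
    (gpoly F E l c).map φ = gpoly (F.map φ) E l (φ c) := by
  unfold gpoly
  rw [Polynomial.map_sub, map_C, ← coe_mapRingHom, map_list_sum, List.map_map]
  congr 2
  refine List.map_congr_left fun t _ => ?_
  simp [map_hasseDeriv, map_ofNat]

lemma eval_gpoly {R : Type*} [CommRing R] (F : R[X]) (E : ℕ) (l : List (ℕ × ℕ × ℤ))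
    (c x : R) : (gpoly F E l c).eval x =
      (l.map fun t => (2 ^ t.2.1 * (hasseDeriv t.1 F).eval x - (t.2.2 : R) * 2 ^ E) ^ 2).sum - c := by
  unfold gpoly
  rw [eval_sub, eval_C, eval_listSum, List.map_map]
  congr 2
  refine List.map_congr_left fun t _ => ?_
  simp

lemma natDegree_sum_le_of {R : Type*} [CommRing R] (n : ℕ) (l : List R[X])
    (h : ∀ p ∈ l, p.natDegree ≤ n) : l.sum.natDegree ≤ n := by
  induction l with
  | nil => simp
  | cons a l ih =>
    rw [List.sum_cons]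
    refine (natDegree_add_le _ _).trans (max_le (h a List.mem_cons_self) (ih fun p hp => ?_))
    exact h p (List.mem_cons_of_mem _ hp)

lemma natDegree_gpoly_le {R : Type*} [CommRing R] (F : R[X]) (E : ℕ) (l : List (ℕ × ℕ × ℤ))
    (c : R) : (gpoly F E l c).natDegree ≤ 2 * F.natDegree := by
  unfold gpoly
  rw [natDegree_sub_C]
  refine natDegree_sum_le_of _ _ fun p hp => ?_
  obtain ⟨t, _, rfl⟩ := List.mem_map.1 hp
  refine natDegree_pow_le_of_le 2 ?_
  rw [natDegree_sub_C]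
  refine (natDegree_C_mul_le _ _).trans ?_
  exact (natDegree_hasseDeriv_le _ _).trans (Nat.sub_le _ _)

/-- approximation data for a real number -/
lemma exists_approx (y : ℝ) (E q : ℕ) (hE : q + 2 ≤ 2 ^ E) (hlow : y ≠ 0 → 1 ≤ 2 ^ E * |y|)
    (hup : |y| ≤ 2 ^ E) : ∃ (a : ℕ) (m : ℤ), a ≤ 3 * E ∧ |m| ≤ 2 * (q + 2) ∧
      |2 ^ a * y - m * 2 ^ E| ≤ 2 ^ E ∧
      ∀ w : ℝ, (w ≠ 0 → 1 ≤ 2 ^ E * |w|) → SignType.sign w ≠ SignType.sign y →
        ((q : ℝ) + 2) * 2 ^ E ≤ |2 ^ a * w - m * 2 ^ E| := by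
  have hE' : (q : ℝ) + 2 ≤ 2 ^ E := by exact_mod_cast hE
  have h2E : (0 : ℝ) < 2 ^ E := by positivity
  rcases eq_or_ne y 0 with rfl | hy
  · refine ⟨3 * E, 0, le_rfl, by positivity, by simp, fun w hw hs => ?_⟩
    have hw0 : w ≠ 0 := by
      rintro rfl; exact hs rfl
    have h1 := hw hw0
    have e1 : (2 : ℝ) ^ (3 * E) = 2 ^ E * 2 ^ E * 2 ^ E := by rw [← pow_add, ← pow_add]; congr 1; ring
    simp only [Int.cast_zero, zero_mul, sub_zero]
    rw [abs_mul, abs_of_pos (by positivity), e1]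
    calc ((q : ℝ) + 2) * 2 ^ E ≤ 2 ^ E * 2 ^ E := mul_le_mul_of_nonneg_right hE' h2E.le
      _ = 2 ^ E * 2 ^ E * 1 := by ring
      _ ≤ 2 ^ E * 2 ^ E * (2 ^ E * |w|) := mul_le_mul_of_nonneg_left h1 (by positivity)
      _ = _ := by ring
  · have hy0 : 0 < |y| := abs_pos.2 hy
    have h1 := hlow hy
    have hex : ∃ a : ℕ, ((q : ℝ) + 2) * 2 ^ E ≤ 2 ^ a * |y| := by
      refine ⟨3 * E, ?_⟩
      have e1 : (2 : ℝ) ^ (3 * E) = 2 ^ E * 2 ^ E * 2 ^ E := by
        rw [← pow_add, ← pow_add]; congr 1; ring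
      rw [e1]
      calc ((q : ℝ) + 2) * 2 ^ E ≤ 2 ^ E * 2 ^ E := mul_le_mul_of_nonneg_right hE' h2E.le
        _ = 2 ^ E * 2 ^ E * 1 := by ring
        _ ≤ 2 ^ E * 2 ^ E * (2 ^ E * |y|) := mul_le_mul_of_nonneg_left h1 (by positivity)
        _ = _ := by ring
    classical
    set a := Nat.find hex with ha
    have ha1 := Nat.find_spec hex
    have ha3 : a ≤ 3 * E := by
      refine Nat.find_min' hex ?_
      have e1 : (2 : ℝ) ^ (3 * E) = 2 ^ E * 2 ^ E * 2 ^ E := by
        rw [← pow_add, ← pow_add]; congr 1; ring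
      rw [e1]
      calc ((q : ℝ) + 2) * 2 ^ E ≤ 2 ^ E * 2 ^ E := mul_le_mul_of_nonneg_right hE' h2E.le
        _ = 2 ^ E * 2 ^ E * 1 := by ring
        _ ≤ 2 ^ E * 2 ^ E * (2 ^ E * |y|) := mul_le_mul_of_nonneg_left h1 (by positivity)
        _ = _ := by ring
    have ha0 : 0 < a := by
      rw [Nat.pos_iff_ne_zero]
      intro h0
      rw [← ha, h0] at ha1
      rw [pow_zero, one_mul] at ha1
      have hq0 : (0 : ℝ) ≤ q := by positivity
      nlinarith
    have ha2 : 2 ^ a * |y| < 2 * (((q : ℝ) + 2) * 2 ^ E) := by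
      have h3 := Nat.find_min hex (Nat.sub_lt ha0 one_pos)
      push Not at h3
      have e1 : (2 : ℝ) ^ a = 2 * 2 ^ (a - 1) := by
        rw [← pow_succ']; congr 1; omega
      rw [e1]; linarith
    rw [← ha] at ha1
    -- m
    set r : ℝ := 2 ^ a * y / 2 ^ E with hr
    have hr1 : (q : ℝ) + 2 ≤ |r| := by
      rw [hr, abs_div, abs_mul, abs_of_pos (by positivity : (0 : ℝ) < 2 ^ a),
        abs_of_pos h2E, le_div_iff₀ h2E]
      exact ha1
    have hr2 : |r| < 2 * ((q : ℝ) + 2) := by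
      rw [hr, abs_div, abs_mul, abs_of_pos (by positivity : (0 : ℝ) < 2 ^ a),
        abs_of_pos h2E, div_lt_iff₀ h2E]
      linarith
    have hry : 2 ^ a * y = r * 2 ^ E := by rw [hr]; field_simp
    refine ⟨a, ⌊r⌋, ha3, ?_, ?_, ?_⟩
    · rw [abs_le]
      rw [abs_lt] at hr2
      constructor
      · rw [Int.le_floor]; push_cast; linarith
      · have : ⌊r⌋ < 2 * (q + 2) := by rw [Int.floor_lt]; push_cast; linarith
        exact this.le
    · rw [hry, ← sub_mul, abs_mul, abs_of_pos h2E]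
      have h3 := Int.floor_le r
      have h4 := Int.lt_floor_add_one r
      have : |r - ⌊r⌋| ≤ 1 := by rw [abs_le]; constructor <;> linarith
      calc |r - ⌊r⌋| * 2 ^ E ≤ 1 * 2 ^ E := mul_le_mul_of_nonneg_right this h2E.le
        _ = _ := one_mul _
    · intro w _ hs
      rcases lt_or_gt_of_ne hy with hneg | hpos
      · -- y < 0
        have hw : 0 ≤ w := by
          by_contra h
          exact hs (by rw [sign_neg hneg, sign_neg (not_le.1 h)])
        have hrneg : r < 0 := by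
          rw [hr]; exact div_neg_of_neg_of_pos (mul_neg_of_pos_of_neg (by positivity) hneg) h2E
        rw [abs_of_neg hrneg] at hr1
        have h3 : (⌊r⌋ : ℝ) ≤ -((q : ℝ) + 2) := by
          have := Int.floor_le r; linarith
        rw [abs_of_nonneg]
        · have h4 : (0 : ℝ) ≤ 2 ^ a * w := by positivity
          nlinarith
        · have h4 : (0 : ℝ) ≤ 2 ^ a * w := by positivity
          have hq0 : (0 : ℝ) ≤ q := by positivity
          nlinarith
      · have hw : w ≤ 0 := by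
          by_contra h
          exact hs (by rw [sign_pos hpos, sign_pos (not_le.1 h)])
        have hrpos : 0 < r := by
          rw [hr]; positivity
        rw [abs_of_pos hrpos] at hr1
        have h3 : (q : ℝ) + 2 ≤ ⌊r⌋ := by
          have : ((q + 2 : ℤ)) ≤ ⌊r⌋ := by rw [Int.le_floor]; push_cast; linarith
          exact_mod_cast this
        have h4 : 2 ^ a * w ≤ 0 := mul_nonpos_of_nonneg_of_nonpos (by positivity) hw
        rw [abs_of_nonpos]
        · nlinarith
        · have hq0 : (0 : ℝ) ≤ q := by positivity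
          nlinarith

/-- one of the constants `0, …, N` makes the resultant nonzero -/
lemma exists_good_const (F g : ℤ[X]) (hF : F.Monic) (n : ℕ) (hn : g.natDegree ≤ n) :
    ∃ j ≤ F.natDegree, resultant F (g - C (j : ℤ)) F.natDegree n ≠ 0 := by
  classical
  by_contra hcon
  push Not at hcon
  set Fc := F.map (Int.castRingHom ℂ) with hFc
  set gc := g.map (Int.castRingHom ℂ) with hgc
  have hFcm : Fc.Monic := hF.map _
  have hdeg : Fc.natDegree = F.natDegree := hF.natDegree_map _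
  have hs : Fc.Splits := IsAlgClosed.splits Fc
  have h1 : ∀ j ≤ F.natDegree, ∃ z ∈ Fc.roots, gc.eval z = (j : ℂ) := by
    intro j hj
    have h2 := resultant_map_map F (g - C (j : ℤ)) F.natDegree n (Int.castRingHom ℂ)
    rw [hcon j hj, map_zero, ← hFc, ← hdeg, resultant_eq_prod_eval _ _ _ ?_ hs,
      hFcm.leadingCoeff, one_pow, one_mul, Multiset.prod_eq_zero_iff, Multiset.mem_map] at h2
    · obtain ⟨z, hz, h3⟩ := h2
      refine ⟨z, hz, ?_⟩
      rw [Polynomial.map_sub, map_C, eval_sub, eval_C, sub_eq_zero] at h3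
      rw [hgc, h3]; simp
    · refine natDegree_map_le.trans ?_
      rw [natDegree_sub_C]; exact hn
  choose! f hf1 hf2 using h1
  have hinj : Set.InjOn f (Finset.range (F.natDegree + 1)) := by
    intro a ha b hb hab
    rw [Finset.coe_range, Set.mem_Iio] at ha hb
    have e1 := hf2 a (by omega)
    have e2 := hf2 b (by omega)
    rw [hab, e2] at e1
    exact_mod_cast e1.symm
  have hmaps : ∀ j ∈ Finset.range (F.natDegree + 1), f j ∈ Fc.roots.toFinset := by
    intro j hj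
    rw [Finset.mem_range] at hj
    exact Multiset.mem_toFinset.2 (hf1 j (by omega))
  have h3 := Finset.card_le_card_of_injOn f hmaps hinj
  rw [Finset.card_range] at h3
  have h4 := Multiset.toFinset_card_le Fc.roots
  have h5 := Fc.card_roots'
  omega

/-- Existence of a certificate. -/
theorem exists_cert (F : ℤ[X]) (hF : F.Monic) (E : ℕ)
    (hEN : F.natDegree + 3 ≤ 2 ^ E)
    (hlow : ∀ (α : ℝ) (k : ℕ), (F.map (Int.castRingHom ℝ)).eval α = 0 →
      (hasseDeriv k (F.map (Int.castRingHom ℝ))).eval α ≠ 0 →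
      1 ≤ 2 ^ E * |(hasseDeriv k (F.map (Int.castRingHom ℝ))).eval α|)
    (hup : ∀ (α : ℝ) (k : ℕ), (F.map (Int.castRingHom ℝ)).eval α = 0 →
      |(hasseDeriv k (F.map (Int.castRingHom ℝ))).eval α| ≤ 2 ^ E)
    (hodd : ∃ α ∈ (F.map (Int.castRingHom ℝ)).roots,
      Odd ((F.map (Int.castRingHom ℝ)).roots.count α)) :
    ∃ (l : List (ℕ × ℕ × ℤ)) (j : ℕ), l.length ≤ Nat.log 2 F.natDegree ∧ j ≤ F.natDegree ∧
      (∀ t ∈ l, 1 ≤ t.1 ∧ t.1 ≤ F.natDegree ∧ t.2.1 ≤ 3 * E ∧
        |t.2.2| ≤ 2 * (Nat.log 2 F.natDegree + 2)) ∧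
      resultant F (gpoly F E l ((l.length + 1) * 2 ^ (2 * E) + j)) F.natDegree
        (2 * F.natDegree) < 0 := by
  classical
  set Fr := F.map (Int.castRingHom ℝ) with hFr
  have hFm : Fr.Monic := hF.map _
  have hdeg : Fr.natDegree = F.natDegree := hF.natDegree_map _
  set S : Finset ℝ := Fr.roots.toFinset.filter fun α => Odd (Fr.roots.count α) with hS
  have hSne : S.Nonempty := by
    obtain ⟨α, h1, h2⟩ := hodd
    exact ⟨α, by rw [hS, mem_filter, Multiset.mem_toFinset]; exact ⟨h1, h2⟩⟩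
  have hSroot : ∀ x ∈ S, Fr.eval x = 0 := by
    intro x hx
    rw [hS, mem_filter, Multiset.mem_toFinset] at hx
    exact (isRoot_of_mem_roots hx.1)
  have hScard : S.card ≤ F.natDegree := by
    calc S.card ≤ Fr.roots.toFinset.card := Finset.card_filter_le _ _
      _ ≤ Multiset.card Fr.roots := Multiset.toFinset_card_le _
      _ ≤ Fr.natDegree := Fr.card_roots'
      _ = _ := hdeg
  obtain ⟨α, hαS, ks, hks1, hks2, hks3⟩ := isolate hFm.ne_zero S hSne hSroot
  have hα0 := hSroot α hαS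
  have hq : ks.length ≤ Nat.log 2 F.natDegree := hks1.trans (Nat.log_mono_right hScard)
  set q := ks.length with hqdef
  have hqE : q + 2 ≤ 2 ^ E := by
    have : Nat.log 2 F.natDegree ≤ F.natDegree := Nat.log_le_self _ _
    omega
  -- data
  have hdata : ∀ k : ℕ, ∃ (am : ℕ × ℤ), am.1 ≤ 3 * E ∧ |am.2| ≤ 2 * (q + 2) ∧
      |2 ^ am.1 * (hasseDeriv k Fr).eval α - am.2 * 2 ^ E| ≤ 2 ^ E ∧
      ∀ w : ℝ, (w ≠ 0 → 1 ≤ 2 ^ E * |w|) →
        SignType.sign w ≠ SignType.sign ((hasseDeriv k Fr).eval α) →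
        ((q : ℝ) + 2) * 2 ^ E ≤ |2 ^ am.1 * w - am.2 * 2 ^ E| := by
    intro k
    obtain ⟨a, m, h1, h2, h3, h4⟩ := exists_approx ((hasseDeriv k Fr).eval α) E q hqE
      (hlow α k hα0) (hup α k hα0)
    exact ⟨(a, m), h1, h2, h3, h4⟩
  choose am ham1 ham2 ham3 ham4 using hdata
  set l : List (ℕ × ℕ × ℤ) := ks.map fun k => (k, (am k).1, (am k).2) with hl
  have hllen : l.length = q := by rw [hl, List.length_map]
  -- the constant
  obtain ⟨j, hj, hres⟩ := exists_good_const F (gpoly F E l ((l.length + 1) * 2 ^ (2 * E))) hF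
    (2 * F.natDegree) (natDegree_gpoly_le _ _ _ _)
  have hgj : gpoly F E l ((l.length + 1) * 2 ^ (2 * E)) - C (j : ℤ) =
      gpoly F E l ((l.length + 1) * 2 ^ (2 * E) + j) := by
    unfold gpoly; rw [C_add]; ring
  rw [hgj] at hres
  refine ⟨l, j, by rw [hllen]; exact hq, hj, ?_, ?_⟩
  · intro t ht
    rw [hl, List.mem_map] at ht
    obtain ⟨k, hk, rfl⟩ := ht
    have h1 := hks2 k hk
    refine ⟨h1.1, by rw [← hdeg]; exact h1.2, ham1 k, (ham2 k).trans ?_⟩
    have : (q : ℤ) ≤ (Nat.log 2 F.natDegree : ℕ) := by exact_mod_cast hq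
    linarith
  · -- real version
    set c : ℤ := (l.length + 1) * 2 ^ (2 * E) + j with hc
    have h1 := resultant_map_map F (gpoly F E l c) F.natDegree (2 * F.natDegree)
      (Int.castRingHom ℝ)
    rw [map_gpoly, ← hFr] at h1
    have hresR : resultant Fr (gpoly Fr E l (Int.castRingHom ℝ c)) Fr.natDegree
        (2 * F.natDegree) ≠ 0 := by
      rw [hdeg, h1]
      simpa using hres
    have hα : α ∈ Fr.roots := (mem_roots hFm.ne_zero).2 hα0
    have hneg := res_neg Fr (gpoly Fr E l (Int.castRingHom ℝ c)) hFm (2 * F.natDegree)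
      (by rw [← hdeg]; exact natDegree_gpoly_le _ _ _ _) α hα (by
        rw [hS, mem_filter] at hαS; exact hαS.2) ?_ ?_ hresR
    · rw [hdeg, h1] at hneg
      have : ((resultant F (gpoly F E l c) F.natDegree (2 * F.natDegree) : ℤ) : ℝ) < 0 := hneg
      exact_mod_cast this
    · rw [eval_gpoly, hl, List.map_map]
      have h2 : (ks.map ((fun t : ℕ × ℕ × ℤ => (2 ^ t.2.1 * (hasseDeriv t.1 Fr).eval α -
          (t.2.2 : ℝ) * 2 ^ E) ^ 2) ∘ fun k => (k, (am k).1, (am k).2))).sum ≤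
          ks.length • ((2 : ℝ) ^ E) ^ 2 := by
        have := List.sum_le_card_nsmul (ks.map ((fun t : ℕ × ℕ × ℤ =>
          (2 ^ t.2.1 * (hasseDeriv t.1 Fr).eval α - (t.2.2 : ℝ) * 2 ^ E) ^ 2) ∘
            fun k => (k, (am k).1, (am k).2))) (((2 : ℝ) ^ E) ^ 2) ?_
        · rwa [List.length_map] at this
        · intro x hx
          obtain ⟨k, _, rfl⟩ := List.mem_map.1 hx
          simp only [Function.comp]
          exact sq_le_sq' (by linarith [(abs_le.1 (ham3 k)).1]) (abs_le.1 (ham3 k)).2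
      have h3 : (Int.castRingHom ℝ c) = ((q : ℝ) + 1) * (2 ^ E) ^ 2 + j := by
        rw [hc, hllen]; rw [← pow_mul, mul_comm E 2]; simp
      rw [h3]
      rw [nsmul_eq_mul] at h2
      have h4 : (0 : ℝ) < (2 ^ E) ^ 2 := by positivity
      have h5 : (0 : ℝ) ≤ j := by positivity
      rw [← hqdef] at h2
      linarith
    · intro β hβ hne hβodd
      have hβS : β ∈ S := by
        rw [hS, mem_filter, Multiset.mem_toFinset]; exact ⟨hβ, hβodd⟩
      have hβ0 := hSroot β hβS
      have hex : ∃ k ∈ ks, SignType.sign ((hasseDeriv k Fr).eval β) ≠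
          SignType.sign ((hasseDeriv k Fr).eval α) := by
        by_contra hno
        push Not at hno
        exact hne (hks3 β hβS hno)
      obtain ⟨k, hk, hsk⟩ := hex
      have h6 := ham4 k ((hasseDeriv k Fr).eval β) (hlow β k hβ0) hsk
      rw [eval_gpoly, hl, List.map_map]
      have h2 : (2 ^ (am k).1 * (hasseDeriv k Fr).eval β - ((am k).2 : ℝ) * 2 ^ E) ^ 2 ≤
          (ks.map ((fun t : ℕ × ℕ × ℤ => (2 ^ t.2.1 * (hasseDeriv t.1 Fr).eval β -
          (t.2.2 : ℝ) * 2 ^ E) ^ 2) ∘ fun k => (k, (am k).1, (am k).2))).sum := by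
        refine List.single_le_sum ?_ _ ?_
        · intro x hx
          obtain ⟨k, _, rfl⟩ := List.mem_map.1 hx
          simp only [Function.comp]
          positivity
        · exact List.mem_map.2 ⟨k, hk, rfl⟩
      have h3 : (Int.castRingHom ℝ c) = ((q : ℝ) + 1) * (2 ^ E) ^ 2 + j := by
        rw [hc, hllen]; rw [← pow_mul, mul_comm E 2]; simp
      rw [h3]
      have hq0 : (0 : ℝ) ≤ q := by positivity
      have h7 : (((q : ℝ) + 2) * 2 ^ E) ^ 2 ≤
          (2 ^ (am k).1 * (hasseDeriv k Fr).eval β - ((am k).2 : ℝ) * 2 ^ E) ^ 2 := by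
        rw [← sq_abs (2 ^ (am k).1 * (hasseDeriv k Fr).eval β - ((am k).2 : ℝ) * 2 ^ E)]
        exact pow_le_pow_left₀ (by positivity) h6 2
      have hjE : (j : ℝ) < 2 ^ E := by
        have : j < 2 ^ E := by omega
        exact_mod_cast this
      have h1E : (1 : ℝ) ≤ 2 ^ E := one_le_pow₀ (by norm_num)
      nlinarith [mul_nonneg hq0 hq0, sq_nonneg ((2 : ℝ) ^ E)]

end RootCH
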