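import Mathlib

namespace RootCH

open Finset

/-- Chinese remaindering: the standard combination of residues. -/
lemma crt_dvd (S : Finset ℕ) (hS : ∀ q ∈ S, q.Prime) (Z : ℤ) (c : ℕ → ℕ) (M : ℕ)
    (hMdef : M = ∏ p ∈ S, p)
    (hc : ∀ q ∈ S, ((c q * (M / q) : ℕ) : ZMod q) = (Z : ZMod q)) :
    (M : ℤ) ∣ ((∑ q ∈ S, c q * (M / q) : ℕ) : ℤ) - Z := by
  have hcop : (M : ℤ) = ∏ p ∈ S, (p : ℤ) := by rw [hMdef]; push_cast; rfl
  rw [hcop]
  refine Finset.prod_dvd_of_coprime ?_ ?_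
  · intro p hp q hq hne
    exact Nat.isCoprime_iff_coprime.2 ((Nat.coprime_primes (hS p hp) (hS q hq)).2 hne)
  · intro q hq
    rw [← ZMod.intCast_eq_intCast_iff_dvd_sub, Int.cast_natCast, Nat.cast_sum,
      Finset.sum_eq_single q]
    · exact (hc q hq).symm
    · intro p hp hpq
      have h2 : M / p = ∏ r ∈ S.erase p, r := by
        rw [hMdef, ← Finset.mul_prod_erase S _ hp]
        exact Nat.mul_div_cancel_left _ (hS p hp).pos
      rw [ZMod.natCast_eq_zero_iff, h2]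
      exact Dvd.dvd.mul_left (Finset.dvd_prod_of_mem _
        (Finset.mem_erase.2 ⟨fun h => hpq h.symm, hq⟩)) _
    · intro h; exact absurd hq h

/-- The residues determine the fractional part of `Z / M` up to a small error. -/
lemma crt_approx (S : Finset ℕ) (hS : ∀ q ∈ S, q.Prime) (Z : ℤ) (b : ℕ) (c : ℕ → ℕ) (M : ℕ)
    (hMdef : M = ∏ p ∈ S, p)
    (hc : ∀ q ∈ S, ((c q * (M / q) : ℕ) : ZMod q) = (Z : ZMod q)) :
    ∃ (a δ t : ℤ), ((∑ q ∈ S, 2 ^ b * c q / q : ℕ) : ℤ) = a + 2 ^ b * t ∧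
      (M : ℤ) * a = 2 ^ b * Z - δ ∧ 0 ≤ δ ∧ δ ≤ (S.card : ℤ) * (M : ℤ) := by
  obtain ⟨t, ht⟩ := crt_dvd S hS Z c M hMdef hc
  set A := ∑ q ∈ S, 2 ^ b * c q / q with hA
  set W := ∑ q ∈ S, c q * (M / q) with hW
  have hdiv : ∀ q ∈ S, q ∣ M := fun q hq => by rw [hMdef]; exact Finset.dvd_prod_of_mem _ hq
  have hpos : ∀ q ∈ S, 0 < q := fun q hq => (hS q hq).pos
  -- 2^b W = M A + rest
  have h2 : 2 ^ b * W = M * A + ∑ q ∈ S, (2 ^ b * c q % q) * (M / q) := by
    rw [hA, hW, Finset.mul_sum, Finset.mul_sum, ← Finset.sum_add_distrib]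
    refine Finset.sum_congr rfl fun q hq => ?_
    have e1 : q * (M / q) = M := Nat.mul_div_cancel' (hdiv q hq)
    have e2 := Nat.div_add_mod (2 ^ b * c q) q
    calc 2 ^ b * (c q * (M / q)) = (2 ^ b * c q) * (M / q) := by ring
      _ = (q * (2 ^ b * c q / q) + 2 ^ b * c q % q) * (M / q) := by rw [e2]
      _ = (q * (M / q)) * (2 ^ b * c q / q) + (2 ^ b * c q % q) * (M / q) := by ring
      _ = _ := by rw [e1]
  set D := ∑ q ∈ S, (2 ^ b * c q % q) * (M / q) with hD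
  have h3 : D ≤ S.card * M := by
    rw [hD, ← smul_eq_mul S.card M]
    refine Finset.sum_le_card_nsmul _ _ _ fun q hq => ?_
    calc (2 ^ b * c q % q) * (M / q) ≤ q * (M / q) :=
          Nat.mul_le_mul_right _ (Nat.mod_lt _ (hpos q hq)).le
      _ = M := Nat.mul_div_cancel' (hdiv q hq)
  refine ⟨(A : ℤ) - 2 ^ b * t, (D : ℤ), t, by ring, ?_, by positivity, by exact_mod_cast h3⟩
  have h4 : (2 : ℤ) ^ b * (W : ℤ) = M * A + D := by exact_mod_cast h2
  have h5 : (W : ℤ) = Z + M * t := by linarith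
  rw [h5] at h4
  linarith

/-- Sign of an integer from its residues: `r e` is an approximation of `2 ^ b * frac (2 ^ e Y / M)`.
-/
theorem sign_crt (S : Finset ℕ) (hS : ∀ q ∈ S, q.Prime) (Y : ℤ) (b E M : ℕ)
    (hMdef : M = ∏ p ∈ S, p) (hM : 8 * |Y| < (M : ℤ)) (hE : M ≤ 2 ^ E)
    (hb : 64 * S.card ≤ 2 ^ b) (c : ℕ → ℕ → ℕ)
    (hc : ∀ e, ∀ q ∈ S, ((c e q * (M / q) : ℕ) : ZMod q) = ((2 ^ e * Y : ℤ) : ZMod q))
    (r : ℕ → ℕ) (hr : ∀ e, r e = (∑ q ∈ S, 2 ^ b * c e q / q) % 2 ^ b) :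
    Y < 0 ↔ ∃ e < E + 1, (5 * 2 ^ b ≤ 8 * r e ∧ 8 * r e < 7 * 2 ^ b) ∧
      ∀ e' < e, ¬ (2 ^ b ≤ 8 * r e' ∧ 8 * r e' < 3 * 2 ^ b) := by
  have hM0 : 0 < (M : ℤ) := by
    have := abs_nonneg Y; omega
  -- the basic approximation
  have hap : ∀ e, ∃ a t' : ℤ, ((r e : ℕ) : ℤ) = a + 2 ^ b * t' ∧
      (M : ℤ) * a ≤ 2 ^ b * (2 ^ e * Y) ∧
      2 ^ b * (2 ^ e * Y) ≤ (M : ℤ) * a + (S.card : ℤ) * M := by
    intro e
    obtain ⟨a, δ, t, h1, h2, h3, h4⟩ := crt_approx S hS (2 ^ e * Y) b (c e) M hMdef (hc e)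
    refine ⟨a, t - ((∑ q ∈ S, 2 ^ b * c e q / q : ℕ) : ℤ) / 2 ^ b, ?_, by linarith, by linarith⟩
    rw [hr e]
    have h5 := Int.emod_add_mul_ediv ((∑ q ∈ S, 2 ^ b * c e q / q : ℕ) : ℤ) (2 ^ b)
    rw [Int.natCast_mod]
    push_cast at h5 h1 ⊢
    linarith
  have hrb : ∀ e, ((r e : ℕ) : ℤ) < 2 ^ b := by
    intro e
    rw [hr e]
    exact_mod_cast Nat.mod_lt _ (by positivity)
  have hr0 : ∀ e, 0 ≤ ((r e : ℕ) : ℤ) := fun e => by positivity
  set K : ℤ := (S.card : ℤ) with hK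
  have hbK : 64 * K ≤ 2 ^ b := by rw [hK]; exact_mod_cast hb
  have hB : (0 : ℤ) < 2 ^ b := by positivity
  -- normalised statement: everything divided by M
  have key : ∀ e (lo hi : ℤ), lo * M ≤ 64 * (2 ^ e * Y) → 64 * (2 ^ e * Y) ≤ hi * M →
      ∃ a t' : ℤ, ((r e : ℕ) : ℤ) = a + 2 ^ b * t' ∧ (lo - 1) * 2 ^ b ≤ 64 * a ∧
        64 * a ≤ hi * 2 ^ b := by
    intro e lo hi hlo hhi
    obtain ⟨a, t', h1, h2, h3⟩ := hap e
    refine ⟨a, t', h1, ?_, ?_⟩
    · have : (lo - 1) * 2 ^ b * M ≤ 64 * a * M := by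
        have e1 : 2 ^ b * (lo * M) ≤ 2 ^ b * (64 * (2 ^ e * Y)) :=
          mul_le_mul_of_nonneg_left hlo hB.le
        have e2 : 64 * K * M ≤ 2 ^ b * M := mul_le_mul_of_nonneg_right hbK hM0.le
        nlinarith
      exact le_of_mul_le_mul_right this hM0
    · have : 64 * a * M ≤ hi * 2 ^ b * M := by
        have e1 : 2 ^ b * (64 * (2 ^ e * Y)) ≤ 2 ^ b * (hi * M) :=
          mul_le_mul_of_nonneg_left hhi hB.le
        nlinarith
      exact le_of_mul_le_mul_right this hM0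
  -- first exponent at which the fractional part is not small
  have hfirst : Y ≠ 0 → ∃ e0 ≤ E, 10 * (M : ℤ) ≤ 64 * (2 ^ e0 * |Y|) ∧
      64 * (2 ^ e0 * |Y|) ≤ 20 * (M : ℤ) ∧ ∀ e < e0, 64 * (2 ^ e * |Y|) ≤ 10 * (M : ℤ) := by
    intro hY
    have hY1 : 1 ≤ |Y| := Int.one_le_abs hY
    have hex : ∃ e, 10 * (M : ℤ) ≤ 64 * (2 ^ e * |Y|) := by
      refine ⟨E, ?_⟩
      have h1 : (M : ℤ) ≤ 2 ^ E := by exact_mod_cast hE
      have h2 : (2 : ℤ) ^ E * 1 ≤ 2 ^ E * |Y| := mul_le_mul_of_nonneg_left hY1 (by positivity)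
      linarith
    have hexE : 10 * (M : ℤ) ≤ 64 * (2 ^ E * |Y|) := by
      have h1 : (M : ℤ) ≤ 2 ^ E := by exact_mod_cast hE
      have h2 : (2 : ℤ) ^ E * 1 ≤ 2 ^ E * |Y| := mul_le_mul_of_nonneg_left hY1 (by positivity)
      linarith
    classical
    refine ⟨Nat.find hex, Nat.find_min' hex hexE, Nat.find_spec hex, ?_, fun e he => ?_⟩
    · rcases Nat.eq_zero_or_pos (Nat.find hex) with h0 | h0
      · rw [h0]; simp only [pow_zero, one_mul]; linarith
      · have := Nat.find_min hex (Nat.sub_lt h0 one_pos)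
        push Not at this
        have e1 : (2 : ℤ) ^ (Nat.find hex) = 2 * 2 ^ (Nat.find hex - 1) := by
          rw [← pow_succ']; congr 1; omega
        rw [e1]; linarith
    · have := Nat.find_min hex he
      push Not at this
      exact this.le
  constructor
  · intro hY
    obtain ⟨e0, he0, h1, h2, h3⟩ := hfirst hY.ne
    rw [abs_of_neg hY] at h1 h2
    refine ⟨e0, by omega, ?_, fun e' he' => ?_⟩
    · obtain ⟨a, t', ht, ha1, ha2⟩ := key e0 (-20) (-10) (by linarith) (by linarith)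
      have hr0' := hr0 e0
      have hrb' := hrb e0
      have ht1 : 0 < t' := by
        by_contra h
        have : 2 ^ b * t' ≤ 0 := mul_nonpos_of_nonneg_of_nonpos hB.le (by omega)
        linarith
      have ht2 : t' < 2 := by
        by_contra h
        have : 2 ^ b * 2 ≤ 2 ^ b * t' := mul_le_mul_of_nonneg_left (by omega) hB.le
        linarith
      have ht3 : t' = 1 := by omega
      subst ht3
      constructor
      · have : (5 : ℤ) * 2 ^ b ≤ 8 * (r e0 : ℤ) := by linarith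
        exact_mod_cast this
      · have : 8 * (r e0 : ℤ) < 7 * 2 ^ b := by linarith
        exact_mod_cast this
    · have h4 := h3 e' he'
      rw [abs_of_neg hY] at h4
      have h5 : (2 : ℤ) ^ e' * Y ≤ 0 := mul_nonpos_of_nonneg_of_nonpos (by positivity) hY.le
      obtain ⟨a, t', ht, ha1, ha2⟩ := key e' (-10) 0 (by linarith) (by linarith)
      have hr0' := hr0 e'
      have hrb' := hrb e'
      have ht1 : -1 < t' := by
        by_contra h
        have : 2 ^ b * t' ≤ 2 ^ b * (-1) := mul_le_mul_of_nonneg_left (by omega) hB.le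
        linarith
      have ht2 : t' < 2 := by
        by_contra h
        have : 2 ^ b * 2 ≤ 2 ^ b * t' := mul_le_mul_of_nonneg_left (by omega) hB.le
        linarith
      rintro ⟨h6, h7⟩
      have h6' : (2 : ℤ) ^ b ≤ 8 * (r e' : ℤ) := by exact_mod_cast h6
      have h7' : 8 * (r e' : ℤ) < 3 * 2 ^ b := by exact_mod_cast h7
      have : t' = 0 ∨ t' = 1 := by omega
      rcases this with rfl | rfl
      · linarith
      · linarith
  · rintro ⟨e, _, ⟨h1, h2⟩, h3⟩
    by_contra hY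
    push Not at hY
    have h1' : (5 : ℤ) * 2 ^ b ≤ 8 * (r e : ℤ) := by exact_mod_cast h1
    have h2' : 8 * (r e : ℤ) < 7 * 2 ^ b := by exact_mod_cast h2
    have small : 64 * (2 ^ e * Y) ≤ 10 * (M : ℤ) → False := by
      intro h
      have h5 : (0 : ℤ) ≤ 2 ^ e * Y := mul_nonneg (by positivity) hY
      obtain ⟨a, t', ht, ha1, ha2⟩ := key e 0 10 (by linarith) (by linarith)
      have ht1 : -1 < t' := by
        by_contra h
        have : 2 ^ b * t' ≤ 2 ^ b * (-1) := mul_le_mul_of_nonneg_left (by omega) hB.le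
        linarith [hr0 e]
      have ht2 : t' < 2 := by
        by_contra h
        have : 2 ^ b * 2 ≤ 2 ^ b * t' := mul_le_mul_of_nonneg_left (by omega) hB.le
        linarith [hrb e]
      have : t' = 0 ∨ t' = 1 := by omega
      rcases this with rfl | rfl
      · linarith
      · linarith
    rcases hY.eq_or_lt with h0 | hpos
    · apply small
      rw [← h0]; simp only [mul_zero]; positivity
    · obtain ⟨e0, he0, g1, g2, g3⟩ := hfirst hpos.ne'
      rw [abs_of_pos hpos] at g1 g2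
      obtain ⟨a, t', ht, ha1, ha2⟩ := key e0 10 20 (by linarith) (by linarith)
      have hr0' := hr0 e0
      have hrb' := hrb e0
      have ht1 : -1 < t' := by
        by_contra h
        have : 2 ^ b * t' ≤ 2 ^ b * (-1) := mul_le_mul_of_nonneg_left (by omega) hB.le
        linarith
      have ht2 : t' < 1 := by
        by_contra h
        have : 2 ^ b * 1 ≤ 2 ^ b * t' := mul_le_mul_of_nonneg_left (by omega) hB.le
        linarith
      have ht3 : t' = 0 := by omega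
      subst ht3
      rcases lt_trichotomy e e0 with he | he | he
      · apply small
        have := g3 e he
        rwa [abs_of_pos hpos] at this
      · subst he; linarith
      · apply h3 e0 he
        constructor
        · have : (2 : ℤ) ^ b ≤ 8 * (r e0 : ℤ) := by linarith
          exact_mod_cast this
        · have : 8 * (r e0 : ℤ) < 3 * 2 ^ b := by linarith
          exact_mod_cast this

end RootCH
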