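import Mathlib

/-!
# MP_859ada_lc: ROOT and the counting hierarchy, definitions

Relations on natural numbers (written in binary) are treated as properties of environments
`v : ℕ → ℕ`, which assign a natural number to each variable. `RootCH.CH` is the counting hierarchy
over addition and multiplication, `RootCH.ROOT` the problem ROOT.
-/

namespace RootCH

open Finset Polynomial

/-! ### The counting hierarchy -/

/-- Push a value in front of an environment. -/
def cons (y : ℕ) (v : ℕ → ℕ) : ℕ → ℕ
  | 0 => y
  | k + 1 => v k

/-- The total bit length of the values of the variables in the list `J`. -/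
def len (J : List ℕ) (v : ℕ → ℕ) : ℕ := (J.map fun j => Nat.size (v j)).sum

/-- The bound `2 ^ ((bit length + c) ^ c)`. -/
def bd (J : List ℕ) (c : ℕ) (v : ℕ → ℕ) : ℕ := 2 ^ ((len J v + c) ^ c)

/-- The number of `y < B` with `P y`. -/
noncomputable def cnt (B : ℕ) (P : ℕ → Prop) : ℕ := Set.ncard {y | y < B ∧ P y}

/-- The counting hierarchy over `+` and `*`: the least class of relations on environments which
contains the graphs of addition and multiplication and is closed under negation, conjunction,
polynomially bounded existential quantifiers and polynomially bounded counting quantifiers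
(`there are at least v i numbers y < 2 ^ poly with R y v`). -/
inductive CH : ((ℕ → ℕ) → Prop) → Prop
  | add (i j k : ℕ) : CH fun v => v i + v j = v k
  | mul (i j k : ℕ) : CH fun v => v i * v j = v k
  | not {R : (ℕ → ℕ) → Prop} : CH R → CH fun v => ¬ R v
  | and {R S : (ℕ → ℕ) → Prop} : CH R → CH S → CH fun v => R v ∧ S v
  | ex (J : List ℕ) (c : ℕ) {R : (ℕ → ℕ) → Prop} :
      CH R → CH fun v => ∃ y < bd J c v, R (cons y v)
  | count (J : List ℕ) (c i : ℕ) {R : (ℕ → ℕ) → Prop} :
      CH R → CH fun v => v i ≤ cnt (bd J c v) fun y => R (cons y v)

/-! ### Straight-line programs -/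

/-- The instructions of a straight-line program in one variable: the constant `1`, the variable,
and `g_i + g_j`, `g_i - g_j`, `g_i * g_j` (places are counted from `0`). -/
inductive Op
  | one
  | var
  | add (i j : ℕ)
  | sub (i j : ℕ)
  | mul (i j : ℕ)

/-- The value of an instruction, `t` being the values of the earlier ones. -/
def Op.val {R : Type*} [CommRing R] (x : R) (t : ℕ → R) : Op → R
  | .one => 1
  | .var => x
  | .add i j => t i + t j
  | .sub i j => t i - t j
  | .mul i j => t i * t j

/-- The values of the first `n` instructions (with `0` at the places `n, n + 1, …`). -/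
def tab {R : Type*} [CommRing R] (ops : ℕ → Op) (x : R) : ℕ → ℕ → R
  | 0 => fun _ => 0
  | n + 1 => fun i => if i = n then (ops n).val x (tab ops x n) else tab ops x n i

/-- The instruction at place `k` refers to earlier places only. -/
def Op.refs (k : ℕ) : Op → Prop
  | .one => True
  | .var => True
  | .add i j => i < k ∧ j < k
  | .sub i j => i < k ∧ j < k
  | .mul i j => i < k ∧ j < k

/-- A straight-line program: a nonempty list of instructions which refer to earlier places. -/
def Valid (P : List Op) : Prop := P ≠ [] ∧ ∀ k < P.length, (P.getD k .one).refs k

/-- The polynomial computed by a straight-line program: the value of its last instruction. -/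
noncomputable def poly (P : List Op) : ℤ[X] :=
  tab (fun k => P.getD k .one) (X : ℤ[X]) P.length (P.length - 1)

/-- The three entries (kind, left reference, right reference) describing an instruction. -/
def Op.entry : Op → ℕ → ℕ
  | .one, _ => 0
  | .var, n => if n = 0 then 1 else 0
  | .add i j, n => if n = 0 then 2 else if n = 1 then i else j
  | .sub i j, n => if n = 0 then 3 else if n = 1 then i else j
  | .mul i j, n => if n = 0 then 4 else if n = 1 then i else j

/-- The code of a straight-line program: the number whose digits in base `2 ^ (length + 3)` are
the entries of its instructions. -/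
def enc (P : List Op) : ℕ :=
  ∑ i ∈ range (3 * P.length), (P.getD (i / 3) .one).entry (i % 3) * 2 ^ ((P.length + 3) * i)

/-- The problem `ROOT`: the pair `(u, c)` consists of the padding `u = 2 ^ length` and the code `c`
of a straight-line program computing a polynomial with a real root. -/
def ROOT (u c : ℕ) : Prop :=
  ∃ P : List Op, Valid P ∧ u = 2 ^ P.length ∧ c = enc P ∧ ∃ x : ℝ, aeval x (poly P) = 0

end RootCH
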