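import Pool.Agent.Work.MP_859ada_lc.CH.Mod

namespace RootCH

open Finset

/-- `g` is a primitive root modulo `p` (for `p` prime and `g < p`) -/
def IsGen (g p : ℕ) : Prop := g ≠ 0 ∧ ∀ e < p - 1, e ≠ 0 → md (g ^ e) p ≠ 1

noncomputable def gen (p : ℕ) : ℕ := mu p fun g => IsGen g p

noncomputable def idx (g a p : ℕ) : ℕ := mu p fun e => md (g ^ e) p = md a p

lemma md_eq_md_iff {a b p : ℕ} (hp : p ≠ 0) : md a p = md b p ↔ (a : ZMod p) = b := by
  rw [md_eq hp, md_eq hp, ZMod.natCast_eq_natCast_iff']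

lemma md_eq_zero_iff {a p : ℕ} (hp : p ≠ 0) : md a p = 0 ↔ (a : ZMod p) = 0 := by
  rw [md_eq hp, ZMod.natCast_eq_zero_iff, Nat.dvd_iff_mod_eq_zero]

lemma md_eq_one_iff {a p : ℕ} (hp : 1 < p) : md a p = 1 ↔ (a : ZMod p) = 1 := by
  have h1 : md 1 p = 1 := by rw [md_eq (by omega)]; exact Nat.mod_eq_of_lt hp
  rw [← h1, md_eq_md_iff (by omega)]; simp

lemma exists_isGen {p : ℕ} (hp : p.Prime) : ∃ g < p, IsGen g p := by
  have := Fact.mk hp
  obtain ⟨u, hu⟩ := IsCyclic.exists_generator (α := (ZMod p)ˣ)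
  refine ⟨(u : ZMod p).val, ZMod.val_lt _, ?_, fun e he h0 h1 => ?_⟩
  · intro h
    have : (u : ZMod p) = 0 := by
      rw [← ZMod.val_eq_zero]; exact h
    exact u.ne_zero this
  · rw [md_eq_one_iff hp.one_lt] at h1
    push_cast at h1
    rw [ZMod.natCast_zmod_val] at h1
    have h2 : u ^ e = 1 := by ext; push_cast; exact h1
    have h3 : orderOf u = p - 1 := by
      rw [orderOf_eq_card_of_forall_mem_zpowers hu, Nat.card_eq_fintype_card,
        ZMod.card_units]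
    have h4 := orderOf_dvd_of_pow_eq_one h2
    rw [h3] at h4
    have := Nat.le_of_dvd (Nat.pos_of_ne_zero h0) h4
    omega

lemma exists_idx {g p : ℕ} (hp : p.Prime) (hg : g < p) (h : IsGen g p) {a : ℕ}
    (ha : md a p ≠ 0) : ∃ e < p, md (g ^ e) p = md a p := by
  have := Fact.mk hp
  have hp0 : p ≠ 0 := hp.ne_zero
  have hg0 : (g : ZMod p) ≠ 0 := by
    rw [Ne, ZMod.natCast_eq_zero_iff]
    intro hd
    exact absurd (Nat.le_of_dvd (Nat.pos_of_ne_zero h.1) hd) (by omega)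
  have ha0 : (a : ZMod p) ≠ 0 := by
    rw [Ne, ← md_eq_zero_iff hp0]; exact ha
  set u : (ZMod p)ˣ := Units.mk0 _ hg0
  have hord : orderOf u = p - 1 := by
    have h1 : orderOf u ∣ p - 1 := by
      have := orderOf_dvd_natCard u
      rwa [Nat.card_eq_fintype_card, ZMod.card_units] at this
    have hp1 : 0 < p - 1 := by have := hp.one_lt; omega
    have h2 : orderOf u ≤ p - 1 := Nat.le_of_dvd hp1 h1
    by_contra h3
    have h4 := h.2 (orderOf u) (by omega) (orderOf_pos u).ne'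
    apply h4
    rw [md_eq_one_iff hp.one_lt]
    push_cast
    have h5 := congrArg (fun x : (ZMod p)ˣ => (x : ZMod p)) (pow_orderOf_eq_one u)
    simp only [Units.val_pow_eq_pow_val, Units.val_one] at h5
    exact h5
  have hgen : ∀ x : (ZMod p)ˣ, x ∈ Subgroup.zpowers u := by
    have : Subgroup.zpowers u = ⊤ := by
      apply Subgroup.eq_top_of_card_eq
      rw [Nat.card_zpowers, hord, Nat.card_eq_fintype_card, ZMod.card_units]
    intro x; rw [this]; trivial
  classical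
  obtain ⟨e, he, h1⟩ : ∃ e < orderOf u, u ^ e = Units.mk0 _ ha0 := by
    have := ((isOfFinOrder_of_finite u).mem_zpowers_iff_mem_range_orderOf).1 (hgen (Units.mk0 _ ha0))
    simpa using this
  refine ⟨e, by omega, ?_⟩
  rw [md_eq_md_iff hp0]
  push_cast
  have h5 := congrArg (fun x : (ZMod p)ˣ => (x : ZMod p)) h1
  simp only [Units.val_pow_eq_pow_val] at h5
  exact h5

lemma gen_spec {p : ℕ} (hp : p.Prime) : gen p < p ∧ IsGen (gen p) p := by
  have := mu_spec (exists_isGen hp)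
  exact ⟨this.1, this.2.1⟩

lemma idx_spec {p a : ℕ} (hp : p.Prime) (ha : md a p ≠ 0) :
    md (gen p ^ idx (gen p) a p) p = md a p := by
  have h := gen_spec hp
  exact (mu_spec (exists_idx hp h.1 h.2 ha)).2.1

lemma idx_le (g a p : ℕ) : idx g a p ≤ p := cnt_le _ _

/-- the product formula through discrete logarithms -/
lemma prod_formula {p : ℕ} (hp : p.Prime) (T : ℕ) (g : ℕ → ℕ) :
    md (∏ k ∈ range T, g k) p =
      if ∃ k < T, md (g k) p = 0 then 0
      else md (gen p ^ ∑ k ∈ range T, idx (gen p) (g k) p) p := by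
  have hp0 : p ≠ 0 := hp.ne_zero
  have := Fact.mk hp
  split_ifs with h
  · obtain ⟨k, hk, h0⟩ := h
    rw [md_eq_zero_iff hp0] at h0 ⊢
    push_cast
    exact prod_eq_zero (mem_range.2 hk) h0
  · push Not at h
    rw [md_eq_md_iff hp0]
    push_cast
    rw [← Finset.prod_pow_eq_pow_sum]
    refine prod_congr rfl fun k hk => ?_
    have h1 := idx_spec hp (h k (mem_range.1 hk))
    rw [md_eq_md_iff hp0] at h1
    push_cast at h1
    exact h1.symm

lemma Fn.gen {P : (ℕ → ℕ) → ℕ} (hP : Fn P) : Fn fun v => RootCH.gen (P v) := by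
  refine Fn.comp1 (f := RootCH.gen) ?_ hP
  refine Fn.mu (R := fun g v => IsGen g (v 0)) (Fn.var 0) ?_
  refine (CH.eq (Fn.var 0) Fn.zero).not.and (CH.allB
    (R := fun e v => e ≠ 0 → RootCH.md (v 0 ^ e) (v 1) ≠ 1) ((Fn.var 1).sub Fn.one) ?_)
  exact (CH.eq (Fn.var 0) Fn.zero).not.imp
    (CH.eq (Fn.powM (Fn.var 1) (Fn.var 0) (Fn.var 2)) Fn.one).not

lemma Fn.idx {G A P : (ℕ → ℕ) → ℕ} (hG : Fn G) (hA : Fn A) (hP : Fn P) :
    Fn fun v => RootCH.idx (G v) (A v) (P v) := by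
  refine Fn.comp3 (f := RootCH.idx) ?_ hG hA hP
  refine Fn.mu (R := fun e v => RootCH.md (v 0 ^ e) (v 2) = RootCH.md (v 1) (v 2)) (Fn.var 2) ?_
  exact CH.eq (Fn.powM (Fn.var 1) (Fn.var 0) (Fn.var 3)) ((Fn.var 2).md (Fn.var 3))

/-- exponentially long products modulo a prime -/
theorem Fn.prodMod {T P : (ℕ → ℕ) → ℕ} {g : ℕ → (ℕ → ℕ) → ℕ} (hT : Fn T) (hP : Fn P)
    (hg : Fn fun v => g (v 0) (tail v)) [DecidablePred fun v => (P v).Prime] :
    Fn fun v => if (P v).Prime then RootCH.md (∏ k ∈ range (T v), g k v) (P v) else 0 := by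
  classical
  have h1 : Fn fun v => if (P v).Prime then (if ∃ k < T v, RootCH.md (g k v) (P v) = 0 then 0
      else RootCH.md (RootCH.gen (P v) ^ ∑ k ∈ range (T v),
        RootCH.idx (RootCH.gen (P v)) (g k v) (P v)) (P v)) else 0 := by
    refine Fn.ite (CH.prime hP) (Fn.ite (CH.exB (R := fun k v => RootCH.md (g k v) (P v) = 0) hT
      (CH.eq (hg.md hP.shift) Fn.zero)) Fn.zero (Fn.powM hP.gen (Fn.sum hT hP
        (g := fun k v => RootCH.idx (RootCH.gen (P v)) (g k v) (P v))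
        (Fn.idx hP.shift.gen hg hP.shift) fun _ _ _ => idx_le _ _ _) hP)) Fn.zero
  refine h1.congr fun v => ?_
  by_cases hp : (P v).Prime
  · rw [if_pos hp, if_pos hp, prod_formula hp]
  · rw [if_neg hp, if_neg hp]

/-- inverse modulo a prime -/
def invM (a p : ℕ) : ℕ := md (a ^ (p - 2)) p

lemma Fn.invM {A P : (ℕ → ℕ) → ℕ} (hA : Fn A) (hP : Fn P) :
    Fn fun v => RootCH.invM (A v) (P v) :=
  Fn.powM hA (hP.sub (Fn.const 2)) hP

lemma cast_md (x : ℕ) {p : ℕ} (hp : p ≠ 0) : ((md x p : ℕ) : ZMod p) = x := by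
  rw [md_eq hp]; exact ZMod.natCast_mod x p

lemma cast_invM {a p : ℕ} (hp : p.Prime) (ha : (a : ZMod p) ≠ 0) :
    ((invM a p : ℕ) : ZMod p) = (a : ZMod p)⁻¹ := by
  have := Fact.mk hp
  unfold invM
  rw [cast_md _ hp.ne_zero]
  push_cast
  have h1 := ZMod.pow_card_sub_one_eq_one ha
  have h2 := hp.two_le
  apply eq_inv_of_mul_eq_one_left
  rw [← pow_succ, show p - 2 + 1 = p - 1 by omega]
  exact h1

end RootCH
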