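import Pool.Agent.Work.MP_859ada_lc.CH.SLP
import Pool.Agent.Work.MP_859ada_lc.CH.Prod

namespace RootCH

open Finset Polynomial

/-! ### digits without a bound for the index -/

lemma dig_min (w s i : ℕ) : dig w s i = dig w s (min i (Nat.size s)) := by
  rcases Nat.eq_zero_or_pos w with rfl | hw
  · simp [dig, Nat.mod_one]
  · rcases le_or_gt i (Nat.size s) with h | h
    · rw [min_eq_left h]
    · rw [min_eq_right h.le]
      have h1 : ∀ k, Nat.size s ≤ k → dig w s k = 0 := by
        intro k hk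
        unfold dig
        have h2 : s < 2 ^ (w * k) := by
          rw [← Nat.size_le]
          calc Nat.size s ≤ k := hk
            _ ≤ w * k := Nat.le_mul_of_pos_left _ hw
        rw [Nat.div_eq_of_lt h2, Nat.zero_mod]
      rw [h1 i h.le, h1 _ le_rfl]

lemma Fn.dig' {W S I : (ℕ → ℕ) → ℕ} (hW : Fn W) (hS : Fn S) (hI : Fn I) (bW : PolyB W) :
    Fn fun v => RootCH.dig (W v) (S v) (I v) :=
  (Fn.dig hW hS (hI.min hS.size) bW (hS.2.mono fun _ => min_le_right _ _)).congr
    fun _ => (dig_min _ _ _).symm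

/-! ### modular sums -/

/-- `∑ k < T, g k` modulo `p` -/
def sM (T p : ℕ) (g : ℕ → ℕ) : ℕ := md (∑ k ∈ range T, md (g k) p) p

lemma cast_sM {T p : ℕ} (hp : p ≠ 0) (g : ℕ → ℕ) :
    ((sM T p g : ℕ) : ZMod p) = ∑ k ∈ range T, ((g k : ℕ) : ZMod p) := by
  unfold sM
  rw [cast_md _ hp]
  push_cast
  exact Finset.sum_congr rfl fun k _ => cast_md _ hp

theorem Fn.sM {T P : (ℕ → ℕ) → ℕ} {g : ℕ → (ℕ → ℕ) → ℕ} (hT : Fn T) (hP : Fn P)
    (hg : Fn fun v => g (v 0) (tail v)) : Fn fun v => RootCH.sM (T v) (P v) (fun k => g k v) :=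
  Fn.sumMod hT hP hg

/-- minus one modulo `p` -/
lemma cast_pred {p : ℕ} (hp : p ≠ 0) : ((p - 1 : ℕ) : ZMod p) = -1 := by
  rw [Nat.cast_sub (by omega)]; simp

/-! ### evaluation of straight-line programs modulo `p` -/

/-- result of an instruction modulo `p`, from the coded table `T` -/
def opM (t i j x p T : ℕ) : ℕ :=
  md (if t = 0 then 1 else if t = 1 then x else if t = 2 then dig (Nat.size p) T i +
    dig (Nat.size p) T j else if t = 3 then dig (Nat.size p) T i + (p - 1) * dig (Nat.size p) T j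
    else dig (Nat.size p) T i * dig (Nat.size p) T j) p

lemma opM_lt (t i j x p T : ℕ) : opM t i j x p T < 2 ^ Nat.size p := md_lt_two_pow _ _

lemma Fn.opM {T' I J X P T : (ℕ → ℕ) → ℕ} (hT' : Fn T') (hI : Fn I) (hJ : Fn J) (hX : Fn X)
    (hP : Fn P) (hT : Fn T) :
    Fn fun v => RootCH.opM (T' v) (I v) (J v) (X v) (P v) (T v) := by
  unfold RootCH.opM
  have d1 := Fn.dig' hP.size hT hI hP.2
  have d2 := Fn.dig' hP.size hT hJ hP.2
  exact (Fn.ite (CH.eq hT' Fn.zero) Fn.one (Fn.ite (CH.eq hT' Fn.one) hX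
    (Fn.ite (CH.eq hT' (Fn.const 2)) (d1.add d2) (Fn.ite (CH.eq hT' (Fn.const 3))
      (d1.add ((hP.sub Fn.one).mul d2)) (d1.mul d2))))).md hP

/-- coded table of the first `n` values -/
def evT (L c x p : ℕ) (n : ℕ) : ℕ :=
  Nat.rec (motive := fun _ => ℕ) 0 (fun k r => r + 2 ^ (Nat.size p * min k L) *
    opM (dig (L + 3) c (3 * k)) (dig (L + 3) c (3 * k + 1)) (dig (L + 3) c (3 * k + 2)) x p r) n

lemma evT_succ (L c x p n : ℕ) : evT L c x p (n + 1) = evT L c x p n +
    2 ^ (Nat.size p * min n L) * opM (dig (L + 3) c (3 * n)) (dig (L + 3) c (3 * n + 1))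
      (dig (L + 3) c (3 * n + 2)) x p (evT L c x p n) := rfl

lemma evT_lt (L c x p n : ℕ) (hn : n ≤ L) : evT L c x p n < 2 ^ (Nat.size p * n) := by
  induction n with
  | zero => simp [evT]
  | succ n ih =>
    have ih := ih (by omega)
    rw [evT_succ, min_eq_left (by omega : n ≤ L)]
    have h1 := opM_lt (dig (L + 3) c (3 * n)) (dig (L + 3) c (3 * n + 1))
      (dig (L + 3) c (3 * n + 2)) x p (evT L c x p n)
    set o := opM (dig (L + 3) c (3 * n)) (dig (L + 3) c (3 * n + 1))
      (dig (L + 3) c (3 * n + 2)) x p (evT L c x p n)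
    calc evT L c x p n + 2 ^ (Nat.size p * n) * o
        < 2 ^ (Nat.size p * n) + 2 ^ (Nat.size p * n) * o := by omega
      _ = 2 ^ (Nat.size p * n) * (o + 1) := by ring
      _ ≤ 2 ^ (Nat.size p * n) * 2 ^ Nat.size p := Nat.mul_le_mul_left _ h1
      _ = _ := by rw [← pow_add]; ring_nf

lemma dig_evT_succ (L c x p n : ℕ) (hn : n < L) (i : ℕ) :
    dig (Nat.size p) (evT L c x p (n + 1)) i = if i = n then
      opM (dig (L + 3) c (3 * n)) (dig (L + 3) c (3 * n + 1)) (dig (L + 3) c (3 * n + 2)) x p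
        (evT L c x p n) else dig (Nat.size p) (evT L c x p n) i := by
  rw [evT_succ, min_eq_left hn.le]
  have hs := evT_lt L c x p n hn.le
  have h1 := opM_lt (dig (L + 3) c (3 * n)) (dig (L + 3) c (3 * n + 1))
      (dig (L + 3) c (3 * n + 2)) x p (evT L c x p n)
  set o := opM (dig (L + 3) c (3 * n)) (dig (L + 3) c (3 * n + 1))
      (dig (L + 3) c (3 * n + 2)) x p (evT L c x p n)
  set s := evT L c x p n
  set w := Nat.size p
  rcases lt_trichotomy i n with h | rfl | h
  · rw [if_neg h.ne]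
    unfold dig
    have e1 : 2 ^ (w * n) = 2 ^ (w * i) * (2 ^ w * 2 ^ (w * (n - i - 1))) := by
      rw [← pow_add, ← pow_add]
      congr 1
      obtain ⟨j, rfl⟩ : ∃ j, n = i + 1 + j := ⟨n - (i + 1), by omega⟩
      have : i + 1 + j - i - 1 = j := by omega
      rw [this]; ring
    rw [e1, mul_assoc, Nat.add_mul_div_left _ _ (by positivity), mul_assoc,
      Nat.add_mul_mod_self_left]
  · rw [if_pos rfl]
    unfold dig
    rw [Nat.add_mul_div_left _ _ (by positivity), Nat.div_eq_of_lt hs, zero_add,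
      Nat.mod_eq_of_lt h1]
  · rw [if_neg h.ne']
    have hz : ∀ y, y < 2 ^ (w * (n + 1)) → dig w y i = 0 := by
      intro y hy
      unfold dig
      rw [Nat.div_eq_of_lt (lt_of_lt_of_le hy (Nat.pow_le_pow_right (by norm_num)
        (Nat.mul_le_mul_left _ h))), Nat.zero_mod]
    rw [hz, hz]
    · exact lt_of_lt_of_le hs (Nat.pow_le_pow_right (by norm_num)
        (Nat.mul_le_mul_left _ (by omega)))
    · have := evT_lt L c x p (n + 1) hn
      rw [evT_succ, min_eq_left hn.le] at this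
      exact this

lemma cast_dig_evT {L c x p : ℕ} (hp : p ≠ 0) (n : ℕ) (hn : n ≤ L) (i : ℕ) :
    ((dig (Nat.size p) (evT L c x p n) i : ℕ) : ZMod p) = tab (opAt L c) (x : ZMod p) n i := by
  induction n generalizing i with
  | zero => simp [evT, tab, dig]
  | succ n ih =>
    rw [dig_evT_succ L c x p n (by omega)]
    simp only [tab]
    split_ifs with h
    · have hop : opAt L c n = mkOp (dig (L + 3) c (3 * n)) (dig (L + 3) c (3 * n + 1))
        (dig (L + 3) c (3 * n + 2)) := rfl
      rw [hop]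
      unfold opM
      rw [cast_md _ hp]
      have ih' := ih (by omega)
      set t := dig (L + 3) c (3 * n)
      have ht : t = 0 ∨ t = 1 ∨ t = 2 ∨ t = 3 ∨ 4 ≤ t := by omega
      rcases ht with ht | ht | ht | ht | ht
      · rw [ht]; simp [mkOp, Op.val]
      · rw [ht]; simp [mkOp, Op.val]
      · rw [ht]; simp [mkOp, Op.val, ih']
      · rw [ht]
        simp only [mkOp, Op.val, OfNat.ofNat_ne_zero, OfNat.ofNat_ne_one, if_false,
          Nat.reduceEqDiff, if_true]
        push_cast
        rw [cast_pred hp, ih', ih']; ring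
      · rw [if_neg (by omega), if_neg (by omega), if_neg (by omega), if_neg (by omega)]
        have hmk : ∀ a b, mkOp t a b = .mul a b := by
          intro a b
          obtain ⟨k, hk⟩ : ∃ k, t = k + 4 := ⟨t - 4, by omega⟩
          rw [hk]; rfl
        rw [hmk]
        simp only [Op.val]
        push_cast
        rw [ih', ih']
    · exact ih (by omega) i

/-- the value of the program with code `c` and length `size u - 1` at `x`, modulo `p` -/
def ev (u c x p : ℕ) : ℕ :=
  dig (Nat.size p) (evT (Nat.size u - 1) c x p (Nat.size u - 1)) (Nat.size u - 1 - 1)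

lemma Fn.len {U : (ℕ → ℕ) → ℕ} (hU : Fn U) : Fn fun v => Nat.size (U v) - 1 :=
  hU.size.sub Fn.one

lemma PolyB.len {U : (ℕ → ℕ) → ℕ} (hU : Fn U) : PolyB fun v => Nat.size (U v) - 1 :=
  hU.2.mono fun _ => Nat.sub_le _ _

theorem Fn.ev {U C X P : (ℕ → ℕ) → ℕ} (hU : Fn U) (hC : Fn C) (hX : Fn X) (hP : Fn P) :
    Fn fun v => RootCH.ev (U v) (C v) (X v) (P v) := by
  have hT : Fn fun v => evT (Nat.size (U v) - 1) (C v) (X v) (P v) (Nat.size (U v) - 1) := by
    unfold evT
    refine Fn.natRec (m := fun v => Nat.size (U v) - 1)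
      (w := fun v => Nat.size (P v) * (Nat.size (U v) - 1))
      (b := fun _ => 0)
      (h := fun k r v => r + 2 ^ (Nat.size (P v) * Min.min k (Nat.size (U v) - 1)) *
        RootCH.opM (RootCH.dig (Nat.size (U v) - 1 + 3) (C v) (3 * k))
          (RootCH.dig (Nat.size (U v) - 1 + 3) (C v) (3 * k + 1))
          (RootCH.dig (Nat.size (U v) - 1 + 3) (C v) (3 * k + 2)) (X v) (P v) r)
      hU.len (PolyB.len hU) (hP.size.mul hU.len) (hP.2.mul (PolyB.len hU)) Fn.zero ?_ ?_
    · have hU2 := hU.shift.shift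
      have hC2 := hC.shift.shift
      have hP2 := hP.shift.shift
      have hX2 := hX.shift.shift
      have hd : ∀ a, Fn fun v => RootCH.dig (Nat.size (U (tail (tail v))) - 1 + 3)
          (C (tail (tail v))) (3 * v 0 + a) := fun a =>
        Fn.dig' (hU2.len.add (Fn.const 3)) hC2 (((Fn.const 3).mul (Fn.var 0)).add (Fn.const a))
          ((PolyB.len hU2).add (PolyB.const 3))
      refine (Fn.var 1).add (((hP2.size.mul ((Fn.var 0).min hU2.len)).two_pow
        (hP2.2.mul ((PolyB.len hU2).mono fun _ => min_le_right _ _))).mul ?_)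
      exact Fn.opM (hd 0) (hd 1) (hd 2) hX2 hP2 (Fn.var 1)
    · intro v i hi
      refine lt_of_lt_of_le (evT_lt (Nat.size (U v) - 1) (C v) (X v) (P v) i hi) ?_
      exact Nat.pow_le_pow_right (by norm_num) (Nat.mul_le_mul_left _ hi)
  exact Fn.dig' hP.size hT (hU.len.sub Fn.one) hP.2

lemma tab_congr {R : Type*} [CommRing R] (ops ops' : ℕ → Op) (x : R) (n : ℕ)
    (h : ∀ k < n, ops k = ops' k) : tab ops x n = tab ops' x n := by
  induction n with
  | zero => rfl
  | succ n ih =>
    funext i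
    simp only [tab]
    rw [ih fun k hk => h k (by omega), h n (by omega)]

/-- the polynomial with code `c` -/
noncomputable def pol (u c : ℕ) : ℤ[X] := poly (dec (Nat.size u - 1) c)

lemma natDegree_pol_le (u c : ℕ) : (pol u c).natDegree ≤ 2 ^ (Nat.size u - 1) := by
  have := natDegree_poly_le (dec (Nat.size u - 1) c)
  rwa [length_dec] at this

lemma nrm_pol_le (u c : ℕ) : nrm (pol u c) ≤ 2 ^ 2 ^ (Nat.size u - 1) := by
  have := nrm_poly_le (dec (Nat.size u - 1) c)
  rwa [length_dec] at this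

theorem cast_ev {p : ℕ} (hp : p ≠ 0) (u c x : ℕ) :
    ((ev u c x p : ℕ) : ZMod p) = ((pol u c).map (Int.castRingHom (ZMod p))).eval (x : ZMod p) := by
  unfold ev
  rw [cast_dig_evT hp _ le_rfl]
  unfold pol poly
  rw [length_dec]
  have h1 := tab_map ((evalRingHom (x : ZMod p)).comp (mapRingHom (Int.castRingHom (ZMod p))))
    (fun k => (dec (Nat.size u - 1) c).getD k .one) (X : ℤ[X]) (Nat.size u - 1)
    (Nat.size u - 1 - 1)
  simp only [RingHom.comp_apply, coe_mapRingHom, coe_evalRingHom, map_X, eval_X] at h1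
  rw [h1]
  rw [tab_congr (fun k => (dec (Nat.size u - 1) c).getD k .one) (opAt (Nat.size u - 1) c)]
  intro k hk
  exact getD_dec _ _ _ hk

end RootCH
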