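import Mathlib

namespace RootCH

open Finset Polynomial

section Units

variable (p : ℕ) [hp : Fact p.Prime]

/-- sums over the units of `ZMod p` as sums over `1, …, p - 1` -/
lemma sum_range_eq_units (g : ZMod p → ZMod p) :
    ∑ b ∈ range (p - 1), g ((b + 1 : ℕ) : ZMod p) = ∑ x : (ZMod p)ˣ, g x := by
  classical
  have hp1 := hp.out.one_lt
  symm
  refine Finset.sum_bij (fun (x : (ZMod p)ˣ) _ => (x : ZMod p).val - 1) ?_ ?_ ?_ ?_
  · intro x _
    have h1 := ZMod.val_lt (x : ZMod p)
    rw [mem_range]; omega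
  · intro x _ y _ h
    have hx : (x : ZMod p).val ≠ 0 := by
      rw [Ne, ZMod.val_eq_zero]; exact x.ne_zero
    have hy : (y : ZMod p).val ≠ 0 := by
      rw [Ne, ZMod.val_eq_zero]; exact y.ne_zero
    have : (x : ZMod p).val = (y : ZMod p).val := by omega
    exact Units.ext (ZMod.val_injective p this)
  · intro b hb
    rw [mem_range] at hb
    have h0 : ((b + 1 : ℕ) : ZMod p) ≠ 0 := by
      rw [Ne, ZMod.natCast_eq_zero_iff]
      intro h
      have := Nat.le_of_dvd (by omega) h
      omega
    refine ⟨Units.mk0 _ h0, mem_univ _, ?_⟩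
    simp only [Units.val_mk0]
    rw [ZMod.val_natCast, Nat.mod_eq_of_lt (by omega)]
    omega
  · intro x _
    have hx : (x : ZMod p).val ≠ 0 := by
      rw [Ne, ZMod.val_eq_zero]; exact x.ne_zero
    have : (x : ZMod p).val - 1 + 1 = (x : ZMod p).val := by omega
    rw [this, ZMod.natCast_zmod_val]

lemma sum_pow_range (i : ℕ) :
    ∑ b ∈ range (p - 1), (((b + 1 : ℕ) : ZMod p)) ^ i = if p - 1 ∣ i then -1 else 0 := by
  classical
  rw [sum_range_eq_units p (fun x => x ^ i)]
  have := FiniteField.sum_pow_units (ZMod p) i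
  rw [ZMod.card] at this
  exact this

/-- coefficient extraction -/
theorem coeff_eq_sum (h : (ZMod p)[X]) (hd : h.natDegree < p - 1) (k : ℕ) (hk : k < p - 1) :
    h.coeff k = -∑ b ∈ range (p - 1), h.eval (((b + 1 : ℕ) : ZMod p)) *
      (((b + 1 : ℕ) : ZMod p)) ^ (p - 1 - k) := by
  have h1 : ∀ x : ZMod p, h.eval x * x ^ (p - 1 - k) =
      ∑ i ∈ range (p - 1), h.coeff i * x ^ (i + (p - 1 - k)) := by
    intro x
    rw [Polynomial.eval_eq_sum_range' (n := p - 1) hd, Finset.sum_mul]
    exact Finset.sum_congr rfl fun i _ => by rw [pow_add]; ring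
  simp_rw [h1]
  rw [Finset.sum_comm]
  have h2 : ∀ i ∈ range (p - 1), ∑ b ∈ range (p - 1), h.coeff i *
      (((b + 1 : ℕ) : ZMod p)) ^ (i + (p - 1 - k)) = if i = k then -h.coeff k else 0 := by
    intro i hi
    rw [mem_range] at hi
    rw [← Finset.mul_sum, sum_pow_range]
    by_cases hik : i = k
    · subst hik
      rw [if_pos rfl, if_pos (by
        have : i + (p - 1 - i) = p - 1 := by omega
        rw [this])]
      ring
    · rw [if_neg hik, if_neg, mul_zero]
      intro hd
      rcases lt_or_gt_of_ne hik with h3 | h3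
      · have := Nat.le_of_dvd (by omega) hd
        omega
      · have h4 : i + (p - 1 - k) = (p - 1) + (i - k) := by omega
        rw [h4, Nat.dvd_add_right (dvd_refl _)] at hd
        have := Nat.le_of_dvd (by omega) hd
        omega
  rw [Finset.sum_congr rfl h2, Finset.sum_ite_eq' (range (p - 1)) k, if_pos (mem_range.2 hk),
    neg_neg]

/-- Hasse derivatives from values -/
theorem hasse_eq_sum (F : (ZMod p)[X]) (hd : F.natDegree < p - 1) (k : ℕ) (hk : k < p - 1)
    (a : ZMod p) :
    (hasseDeriv k F).eval a = -∑ b ∈ range (p - 1), F.eval (a + ((b + 1 : ℕ) : ZMod p)) *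
      (((b + 1 : ℕ) : ZMod p)) ^ (p - 1 - k) := by
  rw [← taylor_coeff, coeff_eq_sum p (taylor a F) (by rw [natDegree_taylor]; exact hd) k hk]
  simp only [taylor_eval, add_comm a]

end Units

end RootCH
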