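import Mathlib

namespace RootCH

open Finset Real

lemma sixteen_mul_le (k : ℕ) (hk : 7 ≤ k) : 16 * k ≤ 2 ^ k := by
  induction k, hk using Nat.le_induction with
  | base => norm_num
  | succ n hn ih => rw [pow_succ]; omega

/-- `4 ^ k / 2 * log 2 ≤ θ (4 ^ k)` for `k ≥ 7` -/
lemma theta_four_pow (k : ℕ) (hk : 7 ≤ k) :
    (4 : ℝ) ^ k / 2 * log 2 ≤ Chebyshev.theta ((4 ^ k : ℕ) : ℝ) := by
  have h := Chebyshev.theta_ge (4 ^ k)
  refine le_trans ?_ h
  have hlog2 : 0 < log 2 := log_pos (by norm_num)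
  have e1 : √(((4 ^ k : ℕ) : ℝ)) = 2 ^ k := by
    push_cast
    rw [show (4 : ℝ) ^ k = (2 ^ k) ^ 2 by rw [← pow_mul, mul_comm, pow_mul]; norm_num]
    exact sqrt_sq (by positivity)
  have e2 : log (((4 ^ k : ℕ) : ℝ)) = 2 * k * log 2 := by
    push_cast
    rw [log_pow, show (4 : ℝ) = 2 ^ 2 by norm_num, log_pow]; push_cast; ring
  have e3 : log (((4 ^ k : ℕ) : ℝ) + 1) ≤ (2 * k + 1) * log 2 := by
    have : ((4 ^ k : ℕ) : ℝ) + 1 ≤ 2 ^ (2 * k + 1) := by
      push_cast
      rw [pow_succ, pow_mul]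
      have : (1 : ℝ) ≤ 4 ^ k := one_le_pow₀ (by norm_num)
      norm_num
      linarith
    calc log (((4 ^ k : ℕ) : ℝ) + 1) ≤ log (2 ^ (2 * k + 1)) := log_le_log (by positivity) this
      _ = _ := by rw [log_pow]; push_cast; ring
  rw [e1, e2]
  have hcast : ((4 ^ k : ℕ) : ℝ) = 4 ^ k := by push_cast; rfl
  have hsq : (4 : ℝ) ^ k = 2 ^ k * 2 ^ k := by rw [← mul_pow]; norm_num
  have key : (4 : ℝ) ^ k / 2 + (2 * k + 1) + 2 * 2 ^ k * (2 * k) ≤ 4 ^ k := by
    have h1 : (16 : ℝ) * k ≤ 2 ^ k := by exact_mod_cast sixteen_mul_le k hk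
    have hk' : (7 : ℝ) ≤ k := by exact_mod_cast hk
    rw [hsq]
    nlinarith
  rw [hcast] at e3 ⊢
  nlinarith

lemma log_prod_primes (A k : ℕ) (hA : A ≤ 4 ^ k) :
    Chebyshev.theta ((4 ^ k : ℕ) : ℝ) = Chebyshev.theta (A : ℝ) +
      log ((∏ q ∈ (range (4 ^ k + 1)).filter (fun q => q.Prime ∧ A < q), q : ℕ) : ℝ) := by
  rw [Chebyshev.theta_eq_log_primorial, Chebyshev.theta_eq_log_primorial, Nat.floor_natCast,
    Nat.floor_natCast]
  have h : primorial (4 ^ k) = primorial A *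
      ∏ q ∈ (range (4 ^ k + 1)).filter (fun q => q.Prime ∧ A < q), q := by
    unfold primorial
    rw [← Finset.prod_union]
    · congr 1
      ext q
      simp only [mem_filter, mem_range, mem_union]
      constructor
      · rintro ⟨h1, h2⟩
        rcases Nat.lt_or_ge A q with h3 | h3
        · right; exact ⟨h1, h2, h3⟩
        · left; exact ⟨by omega, h2⟩
      · rintro (⟨h1, h2⟩ | ⟨h1, h2, _⟩)
        · exact ⟨by omega, h2⟩
        · exact ⟨h1, h2⟩
    · rw [Finset.disjoint_left]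
      intro q hq1 hq2
      simp only [mem_filter, mem_range] at hq1 hq2
      omega
  rw [h]
  push_cast
  rw [log_mul]
  · exact_mod_cast (primorial_pos A).ne'
  · refine (Finset.prod_pos fun q hq => ?_).ne'
    simp only [mem_filter, mem_range] at hq
    exact_mod_cast hq.2.1.pos

/-- The product of the primes in `(A, 4 ^ k]` is large. -/
theorem prod_primes_ge (A n k : ℕ) (hk : 7 ≤ k) (h : 2 * (2 * A + n) ≤ 4 ^ k) :
    2 ^ n ≤ ∏ q ∈ (range (4 ^ k + 1)).filter (fun q => q.Prime ∧ A < q), q := by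
  have hA : A ≤ 4 ^ k := by omega
  have h1 := log_prod_primes A k hA
  have h2 := theta_four_pow k hk
  have h3 := Chebyshev.theta_le_log4_mul_x (x := (A : ℝ)) (by positivity)
  have h4 : log 4 = 2 * log 2 := by
    rw [show (4 : ℝ) = 2 ^ 2 by norm_num, log_pow]; push_cast; ring
  rw [h4] at h3
  set P := ∏ q ∈ (range (4 ^ k + 1)).filter (fun q => q.Prime ∧ A < q), q with hP
  have hPpos : 0 < P := by
    refine Finset.prod_pos fun q hq => ?_
    simp only [mem_filter, mem_range] at hq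
    exact hq.2.1.pos
  have hlog2 : 0 < log 2 := log_pos (by norm_num)
  have h' : (2 : ℝ) * (2 * A + n) ≤ 4 ^ k := by exact_mod_cast h
  have h5 : (n : ℝ) * log 2 ≤ log (P : ℝ) := by nlinarith
  have h6 : log ((2 : ℝ) ^ n) ≤ log (P : ℝ) := by rw [log_pow]; exact h5
  have h7 : (2 : ℝ) ^ n ≤ P := (log_le_log_iff (by positivity) (by exact_mod_cast hPpos)).1 h6
  exact_mod_cast h7

theorem prod_primes_le (A X : ℕ) :
    ∏ q ∈ (range (X + 1)).filter (fun q => q.Prime ∧ A < q), q ≤ 2 ^ (2 * X) := by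
  have h1 := primorial_le_four_pow X
  have h2 : ∏ q ∈ (range (X + 1)).filter (fun q => q.Prime ∧ A < q), q ≤ primorial X := by
    unfold primorial
    refine Finset.prod_le_prod_of_subset_of_one_le' (fun q hq => ?_) fun q hq _ => ?_
    · simp only [mem_filter, mem_range] at hq ⊢
      exact ⟨hq.1, hq.2.1⟩
    · simp only [mem_filter, mem_range] at hq
      exact hq.2.pos
  calc _ ≤ 4 ^ X := h2.trans h1
    _ = 2 ^ (2 * X) := by rw [pow_mul]; norm_num

end RootCH
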