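import Pool.Agent.Work.MP_859ada_lc.CH.Prod
import Pool.Agent.Work.MP_859ada_lc.CH.Crt
import Pool.Agent.Work.MP_859ada_lc.CH.Primes

namespace RootCH

open Finset

/-- the primes in `(A, X]` -/
def prs (A X : ℕ) : Finset ℕ := (range (X + 1)).filter fun q => q.Prime ∧ A < q

lemma mem_prs {A X q : ℕ} : q ∈ prs A X ↔ q < X + 1 ∧ q.Prime ∧ A < q := by
  simp [prs]

/-- product of the other primes -/
def oth (A X q : ℕ) : ℕ :=
  ∏ k ∈ range (X + 1), if k.Prime ∧ A < k ∧ k ≠ q then k else 1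

lemma oth_eq {A X q : ℕ} (hq : q ∈ prs A X) : oth A X q = (∏ p ∈ prs A X, p) / q := by
  have h1 : oth A X q = ∏ r ∈ (prs A X).erase q, r := by
    unfold oth
    rw [← Finset.prod_filter]
    congr 1
    ext k
    simp only [mem_filter, mem_range, mem_erase, mem_prs]
    tauto
  rw [h1, ← Finset.mul_prod_erase _ _ hq, Nat.mul_div_cancel_left _ (mem_prs.1 hq).2.1.pos]

lemma oth_ne_zero {A X q : ℕ} (hq : q.Prime) : ((oth A X q : ℕ) : ZMod q) ≠ 0 := by
  rw [Ne, ZMod.natCast_eq_zero_iff]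
  unfold oth
  rw [hq.prime.dvd_finsetProd_iff]
  rintro ⟨k, _, hk⟩
  split_ifs at hk with h
  · exact h.2.2 ((Nat.prime_dvd_prime_iff_eq hq h.1).1 hk).symm
  · exact hq.one_lt.ne' (Nat.dvd_one.1 hk)

/-- residue of the coefficient in the Chinese remainder formula; `y` is the residue of `Y` -/
noncomputable def cf (A X y e q : ℕ) : ℕ :=
  md (md (2 ^ e) q * y * invM (if q.Prime then md (oth A X q) q else 0) q) q

lemma cf_spec {A X y e q : ℕ} (hq : q ∈ prs A X) :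
    ((cf A X y e q * ((∏ p ∈ prs A X, p) / q) : ℕ) : ZMod q) = 2 ^ e * y := by
  have hp := (mem_prs.1 hq).2.1
  have := Fact.mk hp
  have h0 := oth_ne_zero (A := A) (X := X) hp
  have hq0 := hp.ne_zero
  rw [← oth_eq hq]
  unfold cf
  rw [if_pos hp]
  push_cast
  rw [cast_md _ hq0]
  push_cast
  rw [cast_md _ hq0, cast_invM hp (by rw [cast_md _ hq0]; exact h0), cast_md _ hq0]
  push_cast
  field_simp

noncomputable def rr (A X b e : ℕ) (y : ℕ → ℕ) : ℕ :=
  (∑ q ∈ range (X + 1), if q.Prime ∧ A < q then 2 ^ b * cf A X (y q) e q / q else 0) % 2 ^ b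

/-- The sign test. -/
theorem sign_test (A n k : ℕ) (hk : 7 ≤ k) (h : 2 * (2 * A + n + 4) ≤ 4 ^ k) (Y : ℤ)
    (hY : |Y| < 2 ^ n) (y : ℕ → ℕ)
    (hy : ∀ q, q.Prime → A < q → ((y q : ℕ) : ZMod q) = (Y : ZMod q)) :
    Y < 0 ↔ ∃ e < 2 * 4 ^ k + 1,
      (5 * 2 ^ (2 * k + 7) ≤ 8 * rr A (4 ^ k) (2 * k + 7) e y ∧
        8 * rr A (4 ^ k) (2 * k + 7) e y < 7 * 2 ^ (2 * k + 7)) ∧
      ∀ e' < e, ¬ (2 ^ (2 * k + 7) ≤ 8 * rr A (4 ^ k) (2 * k + 7) e' y ∧
        8 * rr A (4 ^ k) (2 * k + 7) e' y < 3 * 2 ^ (2 * k + 7)) := by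
  have h1 : 2 ^ (n + 4) ≤ ∏ q ∈ prs A (4 ^ k), q := prod_primes_ge A (n + 4) k hk (by omega)
  have h2 : ∏ q ∈ prs A (4 ^ k), q ≤ 2 ^ (2 * 4 ^ k) := prod_primes_le A (4 ^ k)
  have hcard : 64 * (prs A (4 ^ k)).card ≤ 2 ^ (2 * k + 7) := by
    have : (prs A (4 ^ k)).card ≤ 4 ^ k + 1 := by
      unfold prs
      exact (Finset.card_filter_le _ _).trans (by simp)
    have e1 : 2 ^ (2 * k + 7) = 128 * 4 ^ k := by
      rw [pow_add, pow_mul]; norm_num; ring
    have e2 : 1 ≤ 4 ^ k := Nat.one_le_pow _ _ (by norm_num)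
    omega
  refine sign_crt (prs A (4 ^ k)) (fun q hq => (mem_prs.1 hq).2.1) Y (2 * k + 7) (2 * 4 ^ k) _ rfl
    ?_ h2 hcard (fun e q => cf A (4 ^ k) (y q) e q) ?_ _ ?_
  · have : (2 : ℤ) ^ (n + 4) ≤ ((∏ q ∈ prs A (4 ^ k), q : ℕ) : ℤ) := by exact_mod_cast h1
    rw [pow_add] at this
    have h3 : (0 : ℤ) < 2 ^ n := by positivity
    linarith
  · intro e q hq
    rw [cf_spec hq]
    push_cast
    rw [hy q (mem_prs.1 hq).2.1 (mem_prs.1 hq).2.2]
  · intro e
    unfold rr prs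
    rw [Finset.sum_filter]

lemma PolyB.of_size_var {F : (ℕ → ℕ) → ℕ} (h : Fn F) : PolyB fun v => Nat.size (F v) := h.2

/-- An integer-valued function whose residues modulo large primes are definable has a definable
sign. -/
theorem CH.neg {Y : (ℕ → ℕ) → ℤ} {y : ℕ → (ℕ → ℕ) → ℕ} {A N : (ℕ → ℕ) → ℕ}
    (hy : Fn fun v => y (v 0) (tail v)) (hA : Fn A) (hN : Fn N)
    (hres : ∀ v q, q.Prime → A v < q → ((y q v : ℕ) : ZMod q) = (Y v : ZMod q))
    (hY : ∀ v, |Y v| < 2 ^ N v) : CH fun v => Y v < 0 := by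
  classical
  -- the exponent
  set K : (ℕ → ℕ) → ℕ := fun v => Nat.size (2 * (2 * A v + N v + 4)) + 7 with hK
  have hKF : Fn K := ((((Fn.const 2).mul (((Fn.const 2).mul hA).add hN |>.add
    (Fn.const 4))).size).add (Fn.const 7))
  have hKP : PolyB K := ((((Fn.const 2).mul (((Fn.const 2).mul hA).add hN |>.add
    (Fn.const 4))).2).add (PolyB.const 7))
  have hX : Fn fun v => 4 ^ K v := by
    refine (((Fn.const 2).mul hKF).two_pow ((PolyB.const 2).mul hKP)).congr fun v => ?_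
    rw [pow_mul]
    norm_num
  have hBe : Fn fun v => 2 * K v + 7 := ((Fn.const 2).mul hKF).add (Fn.const 7)
  have hBp : PolyB fun v => 2 * K v + 7 := ((PolyB.const 2).mul hKP).add (PolyB.const 7)
  have h2B : Fn fun v => 2 ^ (2 * K v + 7) := hBe.two_pow hBp
  -- the approximations
  have hcf : Fn fun v => cf (v 0) (v 1) (v 2) (v 3) (v 4) := by
    unfold cf
    refine ((((Fn.powM (Fn.const 2) (Fn.var 3) (Fn.var 4)).mul (Fn.var 2)).mul
      (Fn.invM ?_ (Fn.var 4)))).md (Fn.var 4)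
    have : Fn fun v => if (v 4).Prime then RootCH.md (∏ k ∈ range (v 1 + 1),
        if k.Prime ∧ v 0 < k ∧ k ≠ v 4 then k else 1) (v 4) else 0 := by
      refine Fn.prodMod (T := fun v => v 1 + 1) (P := fun v => v 4)
        (g := fun k v => if k.Prime ∧ v 0 < k ∧ k ≠ v 4 then k else 1) ((Fn.var 1).add Fn.one)
        (Fn.var 4) ?_
      exact Fn.ite ((CH.prime (Fn.var 0)).and ((CH.lt (Fn.var 1) (Fn.var 0)).and
        (CH.eq (Fn.var 0) (Fn.var 5)).not)) (Fn.var 0) Fn.one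
    exact this
  have hrr : Fn fun w => rr (A (tail w)) (4 ^ K (tail w)) (2 * K (tail w) + 7) (w 0)
      (fun q => y q (tail w)) := by
    unfold rr
    refine (Fn.sum (T := fun w => 4 ^ K (tail w) + 1) (C := fun w => 2 ^ (2 * K (tail w) + 7))
      (g := fun q w => if q.Prime ∧ A (tail w) < q then 2 ^ (2 * K (tail w) + 7) *
        cf (A (tail w)) (4 ^ K (tail w)) (y q (tail w)) (w 0) q / q else 0)
      (hX.shift.add Fn.one) h2B.shift ?_ ?_).mod h2B.shift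
    · -- env : q, e, v
      refine Fn.ite ((CH.prime (Fn.var 0)).and (CH.lt hA.shift.shift (Fn.var 0)))
        ((h2B.shift.shift.mul (Fn.comp5 hcf hA.shift.shift hX.shift.shift ?_ (Fn.var 1)
          (Fn.var 0))).div (Fn.var 0)) Fn.zero
      exact hy.rename (fun k => match k with | 0 => 0 | k + 1 => k + 2)
    · intro w q _
      split_ifs
      · rcases Nat.eq_zero_or_pos q with rfl | hq
        · simp
        · have h3 : cf (A (tail w)) (4 ^ K (tail w)) (y q (tail w)) (w 0) q ≤ q := md_le _ _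
          refine Nat.div_le_of_le_mul ?_
          rw [mul_comm q]
          exact Nat.mul_le_mul_left _ h3
      · positivity
  have key : CH fun v => ∃ e < 2 * 4 ^ K v + 1,
      (5 * 2 ^ (2 * K v + 7) ≤ 8 * rr (A v) (4 ^ K v) (2 * K v + 7) e (fun q => y q v) ∧
        8 * rr (A v) (4 ^ K v) (2 * K v + 7) e (fun q => y q v) < 7 * 2 ^ (2 * K v + 7)) ∧
      ∀ e' < e, ¬ (2 ^ (2 * K v + 7) ≤
        8 * rr (A v) (4 ^ K v) (2 * K v + 7) e' (fun q => y q v) ∧
        8 * rr (A v) (4 ^ K v) (2 * K v + 7) e' (fun q => y q v) < 3 * 2 ^ (2 * K v + 7)) := by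
    refine CH.exB (B := fun v => 2 * 4 ^ K v + 1) (R := fun e v =>
      (5 * 2 ^ (2 * K v + 7) ≤ 8 * rr (A v) (4 ^ K v) (2 * K v + 7) e (fun q => y q v) ∧
        8 * rr (A v) (4 ^ K v) (2 * K v + 7) e (fun q => y q v) < 7 * 2 ^ (2 * K v + 7)) ∧
      ∀ e' < e, ¬ (2 ^ (2 * K v + 7) ≤
        8 * rr (A v) (4 ^ K v) (2 * K v + 7) e' (fun q => y q v) ∧
        8 * rr (A v) (4 ^ K v) (2 * K v + 7) e' (fun q => y q v) < 3 * 2 ^ (2 * K v + 7)))
      (((Fn.const 2).mul hX).add Fn.one) ?_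
    refine ((CH.le ((Fn.const 5).mul h2B.shift) ((Fn.const 8).mul hrr)).and
      (CH.lt ((Fn.const 8).mul hrr) ((Fn.const 7).mul h2B.shift))).and ?_
    refine CH.allB (B := fun w => w 0) (R := fun e' w => ¬ (2 ^ (2 * K (tail w) + 7) ≤
        8 * rr (A (tail w)) (4 ^ K (tail w)) (2 * K (tail w) + 7) e' (fun q => y q (tail w)) ∧
        8 * rr (A (tail w)) (4 ^ K (tail w)) (2 * K (tail w) + 7) e' (fun q => y q (tail w)) <
          3 * 2 ^ (2 * K (tail w) + 7))) (Fn.var 0) ?_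
    have hrr2 := hrr.rename (fun k => match k with | 0 => 0 | k + 1 => k + 2)
    exact ((CH.le h2B.shift.shift ((Fn.const 8).mul hrr2)).and
      (CH.lt ((Fn.const 8).mul hrr2) ((Fn.const 3).mul h2B.shift.shift))).not
  refine key.congr fun v => ?_
  refine (sign_test (A v) (N v) (K v) (by simp [hK]) ?_ (Y v) (hY v) (fun q => y q v)
    (hres v)).symm
  have h1 := Nat.lt_size_self (2 * (2 * A v + N v + 4))
  have h2 : 2 ^ Nat.size (2 * (2 * A v + N v + 4)) ≤ 4 ^ K v := by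
    calc 2 ^ Nat.size (2 * (2 * A v + N v + 4)) ≤ 2 ^ K v :=
          Nat.pow_le_pow_right (by norm_num) (by simp [hK])
      _ ≤ 4 ^ K v := Nat.pow_le_pow_left (by norm_num) _
  omega

end RootCH
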