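import Pool.Agent.Work.MP_859ada_lc.CH.RBound
import Pool.Agent.Work.MP_859ada_lc.CH.Sign

namespace RootCH

open Finset Polynomial

/-- environment: `j, S, A, K, q, u, c` -/
theorem CH.resNeg : CH fun v => resC (v 5) (v 6) (v 4) (v 3) (v 2) (v 1) (v 0) < 0 := by
  have hU : Fn fun v => v 5 := Fn.var 5
  refine CH.neg (Y := fun v => resC (v 5) (v 6) (v 4) (v 3) (v 2) (v 1) (v 0))
    (y := fun p v => evR (v 5) (v 6) (v 4) (v 3) (v 2) (v 1) (v 0) p)
    (A := fun v => 2 ^ (5 * (Nat.size (v 5) - 1) + 20))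
    (N := fun v => bits (v 5) (v 4) (v 0)) ?_ ?_ ?_ ?_ ?_
  · exact Fn.evR (Fn.var 6) (Fn.var 7) (Fn.var 5) (Fn.var 4) (Fn.var 3) (Fn.var 2) (Fn.var 1)
      (Fn.var 0)
  · exact (((Fn.const 5).mul hU.len).add (Fn.const 20)).two_pow
      (((PolyB.const 5).mul (PolyB.len hU)).add (PolyB.const 20))
  · unfold bits
    exact (((((Fn.const 18).mul hU.bigE).add (Fn.var 4)).add (Fn.var 0)).add (Fn.const 8)).mul
      hU.NN
  · intro v p hp hlt
    have := Fact.mk hp
    refine cast_evR _ _ _ _ _ _ _ ?_ ?_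
    · refine lt_of_le_of_lt (Nat.pow_le_pow_right (by norm_num) ?_) hlt
      unfold ww; omega
    · have h1 : NN (v 5) ^ 3 = 2 ^ (3 * (Nat.size (v 5) - 1) + 6) := by
        unfold NN; rw [← pow_mul]; congr 1; ring
      have h2 : 8 * NN (v 5) ^ 3 ≤ 2 ^ (5 * (Nat.size (v 5) - 1) + 20) := by
        rw [h1]
        calc 8 * 2 ^ (3 * (Nat.size (v 5) - 1) + 6) = 2 ^ (3 * (Nat.size (v 5) - 1) + 9) := by
              rw [show 3 * (Nat.size (v 5) - 1) + 9 = 3 * (Nat.size (v 5) - 1) + 6 + 3 by ring,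
                pow_add 2 _ 3]; ring
          _ ≤ _ := Nat.pow_le_pow_right (by norm_num) (by omega)
      have h3 : 1 ≤ NN (v 5) ^ 3 := Nat.one_le_pow _ _ (one_le_NN _)
      omega
  · intro v
    exact resC_lt _ _ _ _ _ _ _

/-- the certificate form of the root problem -/
theorem root_iff (u c : ℕ) : (∃ x : ℝ, aeval x (pol u c) = 0) ↔
    ∃ q < Nat.size u - 1 + 3, ∃ K < 2 ^ (ww u * (Nat.size u - 1 + 2)),
      ∃ A < 2 ^ (ww u * (Nat.size u - 1 + 2)), ∃ S < 2 ^ (ww u * (Nat.size u - 1 + 2)),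
      ∃ j < NN u + 1, resC u c q K A S j < 0 := by
  have hdeg := natDegree_pol_le u c
  have hn := nrm_pol_le u c
  constructor
  · intro h
    obtain ⟨l, j, h1, h2, h3, h4⟩ := cert_of_root hdeg hn h
    have hW : 2 ^ ww u = 8 * bigE (Nat.size u - 1) := by
      rw [ww, bigE, show 5 * (Nat.size u - 1) + 14 = (5 * (Nat.size u - 1) + 11) + 3 by ring,
        pow_add 2 _ 3]; ring
    have hNW : 2 ^ (Nat.size u - 1 + 2) < 2 ^ ww u :=
      Nat.pow_lt_pow_right (by norm_num) (by unfold ww; omega)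
    have hE0 : 0 < bigE (Nat.size u - 1) := by unfold bigE; positivity
    have hL8 : 4 * (Nat.size u - 1 + 4) < 2 ^ ww u := by
      have h5 : Nat.size u - 1 + 4 < 2 ^ (Nat.size u - 1 + 4) := Nat.lt_two_pow_self
      have h6 : 2 ^ (Nat.size u - 1 + 4) * 4 ≤ 2 ^ ww u := by
        rw [show (4 : ℕ) = 2 ^ 2 by norm_num, ← pow_add]
        exact Nat.pow_le_pow_right (by norm_num) (by unfold ww; omega)
      omega
    have hmem : ∀ i < l.length, l.getD i (0, 0, 0) ∈ l := by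
      intro i hi
      rw [List.getD_eq_getElem _ _ hi]
      exact List.getElem_mem hi
    obtain ⟨K, hK1, hK2⟩ := exists_dig (ww u) l.length (fun i => (l.getD i (0, 0, 0)).1)
      (fun i hi => lt_of_le_of_lt (h3 _ (hmem i hi)).2.1 hNW)
    obtain ⟨A, hA1, hA2⟩ := exists_dig (ww u) l.length (fun i => (l.getD i (0, 0, 0)).2.1)
      (fun i hi => by
        have := (h3 _ (hmem i hi)).2.2.1
        rw [hW]; omega)
    obtain ⟨S, hS1, hS2⟩ := exists_dig (ww u) l.length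
      (fun i => ((l.getD i (0, 0, 0)).2.2 + (2 * (Nat.size u - 1 + 4) : ℕ)).toNat)
      (fun i hi => by
        have h5 := (abs_le.1 (h3 _ (hmem i hi)).2.2.2)
        rw [← Int.ofNat_lt, Int.toNat_of_nonneg (by push_cast; linarith [h5.1])]
        have h6 : ((4 * (Nat.size u - 1 + 4) : ℕ) : ℤ) < ((2 ^ ww u : ℕ) : ℤ) := by
          exact_mod_cast hL8
        refine lt_of_le_of_lt ?_ h6
        push_cast
        linarith [h5.2])
    have hpow : 2 ^ (ww u * l.length) ≤ 2 ^ (ww u * (Nat.size u - 1 + 2)) :=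
      Nat.pow_le_pow_right (by norm_num) (Nat.mul_le_mul_left _ h1)
    have hlst : lst u l.length K A S = l := by
      apply List.ext_getElem
      · unfold lst; simp
      · intro i hi1 hi2
        unfold lst
        rw [List.getElem_map, List.getElem_range, hK2 i hi2, hA2 i hi2, hS2 i hi2]
        have h5 := (abs_le.1 (h3 _ (hmem i hi2)).2.2.2)
        rw [Int.toNat_of_nonneg (by push_cast; linarith [h5.1])]
        rw [List.getD_eq_getElem _ _ hi2]
        ext <;> simp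
    refine ⟨l.length, by omega, K, lt_of_lt_of_le hK1 hpow, A, lt_of_lt_of_le hA1 hpow, S,
      lt_of_lt_of_le hS1 hpow, j, by unfold NN; omega, ?_⟩
    unfold resC tp cst NN
    rw [hlst]
    exact h4
  · rintro ⟨q, _, K, _, A, _, S, _, j, _, h⟩
    refine root_of_res hdeg hn (tp u c q K A S j) ?_ h
    unfold tp
    refine (natDegree_gpoly_le _ _ _ _).trans ?_
    rw [Fp_natDegree hdeg]

/-- real root existence is in `CH` (environment `u, c`) -/
theorem CH.realRoot : CH fun v => ∃ x : ℝ, aeval x (pol (v 0) (v 1)) = 0 := by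
  have hU : Fn fun v => v 0 := Fn.var 0
  have hB : Fn fun v => 2 ^ (ww (v 0) * (Nat.size (v 0) - 1 + 2)) :=
    (hU.ww.mul (hU.len.add (Fn.const 2))).two_pow
      ((PolyB.ww hU).mul ((PolyB.len hU).add (PolyB.const 2)))
  have key : CH fun v => ∃ q < Nat.size (v 0) - 1 + 3,
      ∃ K < 2 ^ (ww (v 0) * (Nat.size (v 0) - 1 + 2)),
      ∃ A < 2 ^ (ww (v 0) * (Nat.size (v 0) - 1 + 2)),
      ∃ S < 2 ^ (ww (v 0) * (Nat.size (v 0) - 1 + 2)),
      ∃ j < NN (v 0) + 1, resC (v 0) (v 1) q K A S j < 0 := by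
    refine CH.exB (R := fun q v => ∃ K < 2 ^ (ww (v 0) * (Nat.size (v 0) - 1 + 2)),
      ∃ A < 2 ^ (ww (v 0) * (Nat.size (v 0) - 1 + 2)),
      ∃ S < 2 ^ (ww (v 0) * (Nat.size (v 0) - 1 + 2)),
      ∃ j < NN (v 0) + 1, resC (v 0) (v 1) q K A S j < 0) (hU.len.add (Fn.const 3)) ?_
    refine CH.exB (R := fun K v => ∃ A < 2 ^ (ww (v 1) * (Nat.size (v 1) - 1 + 2)),
      ∃ S < 2 ^ (ww (v 1) * (Nat.size (v 1) - 1 + 2)),
      ∃ j < NN (v 1) + 1, resC (v 1) (v 2) (v 0) K A S j < 0) hB.shift ?_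
    refine CH.exB (R := fun A v => ∃ S < 2 ^ (ww (v 2) * (Nat.size (v 2) - 1 + 2)),
      ∃ j < NN (v 2) + 1, resC (v 2) (v 3) (v 1) (v 0) A S j < 0) hB.shift.shift ?_
    refine CH.exB (R := fun S v => ∃ j < NN (v 3) + 1,
      resC (v 3) (v 4) (v 2) (v 1) (v 0) S j < 0) hB.shift.shift.shift ?_
    refine CH.exB (R := fun j v => resC (v 4) (v 5) (v 3) (v 2) (v 1) (v 0) j < 0)
      ((Fn.NN (Fn.var 4)).add Fn.one) ?_
    exact CH.resNeg
  exact key.congr fun v => (root_iff (v 0) (v 1)).symm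

/-- validity of a code is in `CH` -/
theorem CH.good : CH fun v => Good (Nat.size (v 0) - 1) (v 1) := by
  have hU : Fn fun v => v 0 := Fn.var 0
  unfold Good
  have h3 : Fn fun v => 2 ^ ((Nat.size (v 0) - 1 + 3) * (3 * (Nat.size (v 0) - 1))) :=
    ((hU.len.add (Fn.const 3)).mul ((Fn.const 3).mul hU.len)).two_pow
      (((PolyB.len hU).add (PolyB.const 3)).mul ((PolyB.const 3).mul (PolyB.len hU)))
  refine (CH.lt (Fn.var 1) h3).and (CH.allB (B := fun v => Nat.size (v 0) - 1)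
    (R := fun k v => dig (Nat.size (v 0) - 1 + 3) (v 1) (3 * k) < 5 ∧
      (dig (Nat.size (v 0) - 1 + 3) (v 1) (3 * k) < 2 →
        dig (Nat.size (v 0) - 1 + 3) (v 1) (3 * k + 1) = 0 ∧
        dig (Nat.size (v 0) - 1 + 3) (v 1) (3 * k + 2) = 0) ∧
      (2 ≤ dig (Nat.size (v 0) - 1 + 3) (v 1) (3 * k) →
        dig (Nat.size (v 0) - 1 + 3) (v 1) (3 * k + 1) < k ∧
        dig (Nat.size (v 0) - 1 + 3) (v 1) (3 * k + 2) < k)) hU.len ?_)
  have hV : Fn fun v => v 1 := Fn.var 1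
  have hd : ∀ a, Fn fun v => dig (Nat.size (v 1) - 1 + 3) (v 2) (3 * v 0 + a) := fun a =>
    Fn.dig' (hV.len.add (Fn.const 3)) (Fn.var 2) (((Fn.const 3).mul (Fn.var 0)).add (Fn.const a))
      ((PolyB.len hV).add (PolyB.const 3))
  exact (CH.lt (hd 0) (Fn.const 5)).and (((CH.lt (hd 0) (Fn.const 2)).imp
    ((CH.eq (hd 1) Fn.zero).and (CH.eq (hd 2) Fn.zero))).and
    ((CH.le (Fn.const 2) (hd 0)).imp ((CH.lt (hd 1) (Fn.var 0)).and (CH.lt (hd 2) (Fn.var 0)))))

theorem CH.root : CH fun v => ROOT (v 0) (v 1) := by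
  refine ((((CH.isP2 (Fn.var 0)).and ((CH.eq ((Fn.var 0).len) Fn.zero).not.and CH.good)).and
    CH.realRoot)).congr fun v => ?_
  exact (exists_enc_iff (v 0) (v 1) fun P => ∃ x : ℝ, aeval x (poly P) = 0).symm

end RootCH
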