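import Pool.Agent.Work.MP_859ada_lc.CH.Basic

namespace RootCH

lemma PolyB.size_of_le {F G : (ℕ → ℕ) → ℕ} (hG : PolyB fun v => Nat.size (G v))
    (h : ∀ v, F v ≤ G v) : PolyB fun v => Nat.size (F v) :=
  hG.mono fun v => Nat.size_le_size (h v)

lemma size_add_le (a b : ℕ) : Nat.size (a + b) ≤ Nat.size a + Nat.size b + 1 := by
  rw [Nat.size_le]
  have h1 := Nat.lt_size_self a
  have h2 := Nat.lt_size_self b
  have e1 : 2 ^ Nat.size a ≤ 2 ^ (Nat.size a + Nat.size b) := Nat.pow_le_pow_right (by norm_num) (by omega)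
  have e2 : 2 ^ Nat.size b ≤ 2 ^ (Nat.size a + Nat.size b) := Nat.pow_le_pow_right (by norm_num) (by omega)
  rw [pow_succ]; omega

lemma size_mul_le (a b : ℕ) : Nat.size (a * b) ≤ Nat.size a + Nat.size b := by
  rw [Nat.size_le, pow_add]
  have h1 := Nat.lt_size_self a
  have h2 := Nat.lt_size_self b
  rcases Nat.eq_zero_or_pos a with rfl | ha
  · simp
  · exact Nat.mul_lt_mul'' h1 h2

lemma Fn.add {F G : (ℕ → ℕ) → ℕ} (hF : Fn F) (hG : Fn G) : Fn fun v => F v + G v := by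
  refine ⟨?_, ((hF.2.add hG.2).add (PolyB.const 1)).mono fun v => size_add_le _ _⟩
  exact (CH.comp3 (P := fun a b c => a + b = c) (CH.add 0 1 2) hF.shift hG.shift (Fn.var 0))

lemma Fn.mul {F G : (ℕ → ℕ) → ℕ} (hF : Fn F) (hG : Fn G) : Fn fun v => F v * G v := by
  refine ⟨?_, (hF.2.add hG.2).mono fun v => size_mul_le _ _⟩
  exact (CH.comp3 (P := fun a b c => a * b = c) (CH.mul 0 1 2) hF.shift hG.shift (Fn.var 0))

lemma Fn.zero : Fn fun _ => 0 := by
  refine ⟨(CH.add 0 0 0).congr fun v => ?_, by simpa using PolyB.const 0⟩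
  show v 0 + v 0 = v 0 ↔ 0 = v 0
  omega

lemma Fn.one : Fn fun _ => 1 := by
  refine ⟨((CH.mul 0 0 0).and (CH.add 0 0 0).not).congr fun v => ?_,
    by simpa using PolyB.const 1⟩
  constructor
  · rintro ⟨h1, h2⟩
    have h3 : v 0 ≠ 0 := by omega
    have : v 0 = 1 := Nat.eq_of_mul_eq_mul_left (Nat.pos_of_ne_zero h3) (by omega)
    exact this.symm
  · intro h
    rw [← h]; simp

lemma Fn.const (a : ℕ) : Fn fun _ => a := by
  induction a with
  | zero => exact Fn.zero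
  | succ a ih => exact ih.add Fn.one

lemma CH.eq {F G : (ℕ → ℕ) → ℕ} (hF : Fn F) (hG : Fn G) : CH fun v => F v = G v :=
  CH.comp2 (P := fun a b => a = b) (CH.eqv 0 1) hF hG

lemma le_graph : CH fun v => v 0 ≤ v 1 := by
  refine (((CH.add 1 0 2)).ex [1] 1).congr fun v => ?_
  constructor
  · rintro ⟨y, _, h2⟩
    have h2' : v 0 + y = v 1 := h2
    omega
  · intro h
    refine ⟨v 1 - v 0, ?_, ?_⟩
    · have : bd [1] 1 v = 2 ^ (Nat.size (v 1) + 1) := by simp [bd, len]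
      rw [this, pow_succ]
      have := Nat.lt_size_self (v 1)
      omega
    · change v 0 + (v 1 - v 0) = v 1
      omega

lemma CH.le {F G : (ℕ → ℕ) → ℕ} (hF : Fn F) (hG : Fn G) : CH fun v => F v ≤ G v :=
  CH.comp2 (P := fun a b => a ≤ b) le_graph hF hG

lemma CH.lt {F G : (ℕ → ℕ) → ℕ} (hF : Fn F) (hG : Fn G) : CH fun v => F v < G v :=
  (CH.le (hF.add Fn.one) hG).congr fun v => by omega

/-- bounded existential quantifier with a definable bound -/
lemma CH.exB {B : (ℕ → ℕ) → ℕ} (hB : Fn B) {R : ℕ → (ℕ → ℕ) → Prop}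
    (hR : CH fun v => R (v 0) (tail v)) : CH fun v => ∃ y < B v, R y v := by
  obtain ⟨J, c, hb⟩ := hB.bound
  refine (((CH.lt (Fn.var 0) hB.shift).and hR).ex J c).congr fun v => ?_
  constructor
  · rintro ⟨y, _, h1, h2⟩
    exact ⟨y, h1, h2⟩
  · rintro ⟨y, h1, h2⟩
    exact ⟨y, h1.trans (hb v), h1, h2⟩

lemma CH.allB {B : (ℕ → ℕ) → ℕ} (hB : Fn B) {R : ℕ → (ℕ → ℕ) → Prop}
    (hR : CH fun v => R (v 0) (tail v)) : CH fun v => ∀ y < B v, R y v := by
  refine (CH.exB hB (R := fun y v => ¬ R y v) hR.not).not.congr fun v => ?_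
  push Not
  exact Iff.rfl

/-- existential quantifier without a bound when the witness is bounded anyway -/
lemma CH.exU {B : (ℕ → ℕ) → ℕ} (hB : PolyB fun v => Nat.size (B v)) {R : ℕ → (ℕ → ℕ) → Prop}
    (hR : CH fun v => R (v 0) (tail v)) (hb : ∀ v y, R y v → y ≤ B v) :
    CH fun v => ∃ y, R y v := by
  obtain ⟨J, c, hc⟩ := hB
  refine (hR.ex J c).congr fun v => ?_
  constructor
  · rintro ⟨y, _, h⟩; exact ⟨y, h⟩
  · rintro ⟨y, h⟩
    exact ⟨y, lt_of_le_of_lt (hb v y h) (Nat.size_le.1 (hc v)), h⟩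

/-- a function is definable when its graph is and its length is bounded -/
lemma Fn.of_graph {F : (ℕ → ℕ) → ℕ} {R : ℕ → (ℕ → ℕ) → Prop}
    (hR : CH fun v => R (v 0) (tail v)) (h : ∀ v y, R y v ↔ F v = y)
    (hb : PolyB fun v => Nat.size (F v)) : Fn F :=
  ⟨hR.congr fun v => h _ _, hb⟩

lemma cnt_eq_card (B : ℕ) (P : ℕ → Prop) [DecidablePred P] :
    cnt B P = ((Finset.range B).filter P).card := by
  unfold cnt
  rw [← Set.ncard_coe_finset]
  congr 1
  ext y; simp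

lemma cnt_le (B : ℕ) (P : ℕ → Prop) : cnt B P ≤ B := by
  classical
  rw [cnt_eq_card]
  exact (Finset.card_filter_le _ _).trans (by simp)

lemma cnt_congr_bound {B C : ℕ} (h : B ≤ C) (P : ℕ → Prop) :
    cnt C (fun y => y < B ∧ P y) = cnt B P := by
  unfold cnt
  congr 1
  ext y
  simp only [Set.mem_ofPred_eq]
  constructor
  · rintro ⟨_, h1, h2⟩; exact ⟨h1, h2⟩
  · rintro ⟨h1, h2⟩; exact ⟨by omega, h1, h2⟩

/-- counting below a definable bound is a definable function -/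
lemma Fn.count {B : (ℕ → ℕ) → ℕ} (hB : Fn B) {R : ℕ → (ℕ → ℕ) → Prop}
    (hR : CH fun v => R (v 0) (tail v)) :
    Fn fun v => cnt (B v) (fun y => R y v) := by
  obtain ⟨J, c, hb⟩ := hB.bound
  have hS : CH fun v => v 0 < B (tail v) ∧ R (v 0) (tail v) :=
    (CH.lt (Fn.var 0) hB.shift).and hR
  -- environment: v 0 = z, tail v the parameters
  have key : CH fun v => v 0 ≤ cnt (B (tail v)) (fun y => R y (tail v)) := by
    have h1 : CH fun w => w 0 < B (tail (tail w)) ∧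
        R (w 0) (tail (tail w)) := by
      refine (hS.rename (fun k => match k with | 0 => 0 | k + 1 => k + 2)).congr fun v => ?_
      have : tail (v ∘ fun k => match k with | 0 => 0 | k + 1 => k + 2)
          = tail (tail v) := by funext k; rfl
      rw [this]; rfl
    refine (h1.count (J.map (· + 1)) c 0).congr fun v => ?_
    have e1 : bd (J.map (· + 1)) c v = bd J c (tail v) := by
      rw [show tail v = v ∘ (fun k => k + 1) from rfl, bd_comp]
    rw [e1]
    have e2 := cnt_congr_bound (hb (tail v)).le (fun y => R y (tail v))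
    rw [← e2]
    rfl
  refine ⟨?_, (hB.2).mono fun v => Nat.size_le_size (cnt_le _ _)⟩
  have key2 : CH fun v => v 0 + 1 ≤
      cnt (B (tail v)) (fun y => R y (tail v)) := by
    refine (CH.subst (key.rename (fun k => match k with | 0 => 0 | k + 1 => k + 2))
      ((Fn.var 0).add Fn.one)).congr fun v => ?_
    exact Iff.rfl
  refine (key.and key2.not).congr fun v => ?_
  show _ ↔ cnt (B (tail v)) (fun y => R y (tail v)) = v 0
  omega

lemma Fn.ite {R : (ℕ → ℕ) → Prop} [DecidablePred R] (hR : CH R) {F G : (ℕ → ℕ) → ℕ}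
    (hF : Fn F) (hG : Fn G) : Fn fun v => if R v then F v else G v := by
  refine Fn.of_graph (R := fun y v => (R v ∧ F v = y) ∨ (¬ R v ∧ G v = y))
    ((hR.shift.and (CH.eq hF.shift (Fn.var 0))).or (hR.shift.not.and (CH.eq hG.shift (Fn.var 0))))
    (fun v y => ?_) ((hF.2.add hG.2).mono fun v => ?_)
  · split_ifs with h <;> simp [h]
  · split_ifs <;> omega

lemma Fn.sub {F G : (ℕ → ℕ) → ℕ} (hF : Fn F) (hG : Fn G) : Fn fun v => F v - G v := by
  refine Fn.of_graph (R := fun y v => (F v ≤ G v ∧ y = 0) ∨ (y + G v = F v))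
    (((CH.le hF.shift hG.shift).and (CH.eq (Fn.var 0) Fn.zero)).or
      (CH.eq ((Fn.var 0).add hG.shift) hF.shift)) (fun v y => by omega)
    (PolyB.size_of_le hF.2 fun v => Nat.sub_le _ _)

theorem Fn.rename {F : (ℕ → ℕ) → ℕ} (hF : Fn F) (r : ℕ → ℕ) : Fn fun v => F (v ∘ r) := by
  refine ⟨(hF.1.rename (lift r)).congr fun v => ?_, hF.2.comp (fun v => v ∘ r) fun i =>
    PolyB.size_var (r i)⟩
  have : tail (v ∘ lift r) = tail v ∘ r := by funext k; rfl
  rw [this]; rfl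

/-- swap the first two places -/
def swp : ℕ → ℕ
  | 0 => 1
  | 1 => 0
  | k + 2 => k + 2

theorem Fn.subst {F : (ℕ → ℕ) → ℕ} (hF : Fn F) {A : (ℕ → ℕ) → ℕ} (hA : Fn A) :
    Fn fun v => F (cons (A v) v) := by
  refine ⟨?_, hF.2.comp (fun v => cons (A v) v) fun i => ?_⟩
  · refine (CH.subst (hF.1.rename swp) hA.shift).congr fun v => ?_
    have : tail (cons (A (tail v)) v ∘ swp) = cons (A (tail v)) (tail v) := by
      funext k; cases k <;> rfl
    rw [this]; rfl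
  · cases i with
    | zero => exact hA.2
    | succ i => exact PolyB.size_var i

lemma Fn.comp1 {f : ℕ → ℕ} (h : Fn fun v => f (v 0)) {A : (ℕ → ℕ) → ℕ} (hA : Fn A) :
    Fn fun v => f (A v) := h.subst hA

lemma Fn.comp2 {f : ℕ → ℕ → ℕ} (h : Fn fun v => f (v 0) (v 1)) {A B : (ℕ → ℕ) → ℕ}
    (hA : Fn A) (hB : Fn B) : Fn fun v => f (A v) (B v) :=
  (h.subst hA.shift).subst hB

lemma Fn.comp3 {f : ℕ → ℕ → ℕ → ℕ} (h : Fn fun v => f (v 0) (v 1) (v 2))
    {A B C : (ℕ → ℕ) → ℕ} (hA : Fn A) (hB : Fn B) (hC : Fn C) :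
    Fn fun v => f (A v) (B v) (C v) :=
  ((h.subst hA.shift.shift).subst hB.shift).subst hC

lemma Fn.comp4 {f : ℕ → ℕ → ℕ → ℕ → ℕ} (h : Fn fun v => f (v 0) (v 1) (v 2) (v 3))
    {A B C D : (ℕ → ℕ) → ℕ} (hA : Fn A) (hB : Fn B) (hC : Fn C) (hD : Fn D) :
    Fn fun v => f (A v) (B v) (C v) (D v) :=
  (((h.subst hA.shift.shift.shift).subst hB.shift.shift).subst hC.shift).subst hD

lemma Fn.comp5 {f : ℕ → ℕ → ℕ → ℕ → ℕ → ℕ} (h : Fn fun v => f (v 0) (v 1) (v 2) (v 3) (v 4))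
    {A B C D E : (ℕ → ℕ) → ℕ} (hA : Fn A) (hB : Fn B) (hC : Fn C) (hD : Fn D) (hE : Fn E) :
    Fn fun v => f (A v) (B v) (C v) (D v) (E v) :=
  ((((h.subst hA.shift.shift.shift.shift).subst hB.shift.shift.shift).subst
    hC.shift.shift).subst hD.shift).subst hE

lemma Fn.comp6 {f : ℕ → ℕ → ℕ → ℕ → ℕ → ℕ → ℕ}
    (h : Fn fun v => f (v 0) (v 1) (v 2) (v 3) (v 4) (v 5))
    {A B C D E G : (ℕ → ℕ) → ℕ} (hA : Fn A) (hB : Fn B) (hC : Fn C) (hD : Fn D) (hE : Fn E)
    (hG : Fn G) : Fn fun v => f (A v) (B v) (C v) (D v) (E v) (G v) :=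
  (((((h.subst hA.shift.shift.shift.shift.shift).subst hB.shift.shift.shift.shift).subst
    hC.shift.shift.shift).subst hD.shift.shift).subst hE.shift).subst hG

end RootCH
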