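import Pool.Agent.Work.MP_859ada_lc.CH.Norm
import Pool.Agent.Work.MP_859ada_lc.CH.Cert

namespace RootCH

open Finset Polynomial

/-- the big constant is `2 ^ bigM L` -/
def bigM (L : ℕ) : ℕ := 2 ^ (3 * L + 4)

/-- the exponent of the bounds for the derivatives -/
def bigE (L : ℕ) : ℕ := 2 ^ (5 * L + 11)

/-- The monic polynomial attached to `f`. -/
noncomputable def Fp (f : ℤ[X]) (L : ℕ) : ℤ[X] :=
  X ^ (2 ^ (L + 2)) + C (2 ^ (3 * bigM L)) * f ^ 2 - C (2 ^ bigM L)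

lemma bigM_eq (L : ℕ) : bigM L = 16 * (2 ^ L) ^ 3 := by
  unfold bigM
  rw [pow_add, mul_comm 3 L, pow_mul]; ring

lemma aeval_ofReal (P : ℤ[X]) (x : ℝ) : aeval (x : ℂ) P = ((aeval x P : ℝ) : ℂ) := by
  have := aeval_algebraMap_apply ℂ x P
  simpa using this

lemma norm_aeval_ofReal (P : ℤ[X]) (x : ℝ) : ‖aeval (x : ℂ) P‖ = |aeval x P| := by
  rw [aeval_ofReal, Complex.norm_real]; rfl

lemma aeval_real_eq (P : ℤ[X]) (x : ℝ) : aeval x P = (P.map (Int.castRingHom ℝ)).eval x := by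
  have : Int.castRingHom ℝ = algebraMap ℤ ℝ := rfl
  rw [this, eval_map_algebraMap]

/-- positive minimum -/
lemma abs_lower (f : ℤ[X]) (D : ℕ) (hD : 1 ≤ D) (hdeg : f.natDegree ≤ D) (hn : nrm f ≤ 2 ^ D)
    (hroot : ∀ x : ℝ, aeval x f ≠ 0) (x : ℝ) : 1 < 2 ^ (16 * D ^ 3) * |aeval x f| := by
  have hf0 : f ≠ 0 := by
    rintro rfl; exact hroot 0 (by simp)
  have hbig : (1 : ℝ) < 2 ^ (16 * D ^ 3) := one_lt_pow₀ (by norm_num) (by positivity)
  rcases Nat.eq_zero_or_pos f.natDegree with h0 | hpos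
  · rw [eq_C_of_natDegree_eq_zero h0, aeval_C]
    have h1 : f.coeff 0 ≠ 0 := by
      intro h; apply hf0; rw [eq_C_of_natDegree_eq_zero h0, h, C_0]
    have h2 : (1 : ℝ) ≤ |((f.coeff 0 : ℤ) : ℝ)| := by
      have : (1 : ℤ) ≤ |f.coeff 0| := Int.one_le_abs h1
      exact_mod_cast this
    have h3 : (algebraMap ℤ ℝ) (f.coeff 0) = ((f.coeff 0 : ℤ) : ℝ) := rfl
    rw [h3]
    nlinarith
  · -- the minimum of |f|
    set fr := f.map (Int.castRingHom ℝ) with hfr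
    have hfrdeg : fr.natDegree = f.natDegree := natDegree_map_eq_of_injective Int.cast_injective f
    have hcont : Continuous fun y : ℝ => ‖fr.eval y‖ := fr.continuous.norm
    have htend : Filter.Tendsto (fun y : ℝ => ‖fr.eval y‖) (Filter.cocompact ℝ) Filter.atTop := by
      have h1 : 0 < fr.degree := by
        rw [← natDegree_pos_iff_degree_pos, hfrdeg]; exact hpos
      exact tendsto_norm_atTop fr h1 tendsto_norm_cocompact_atTop
    obtain ⟨c, hc⟩ := hcont.exists_forall_le htend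
    have hc' : ∀ y, |aeval c f| ≤ |aeval y f| := by
      intro y
      rw [aeval_real_eq, aeval_real_eq]
      exact hc y
    -- critical point
    have hcrit : fr.derivative.eval c = 0 := by
      have hmin : IsLocalMin (fun y : ℝ => (fr ^ 2).eval y) c := by
        refine Filter.Eventually.of_forall fun y => ?_
        have h1 := hc y
        simp only [Real.norm_eq_abs] at h1
        change (fr ^ 2).eval c ≤ (fr ^ 2).eval y
        rw [eval_pow, eval_pow]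
        exact sq_le_sq.2 h1
      have h2 := hmin.hasDerivAt_eq_zero ((fr ^ 2).hasDerivAt c)
      rw [derivative_pow, eval_mul, eval_mul, eval_pow, eval_C] at h2
      have h3 : fr.eval c ≠ 0 := by
        rw [hfr, ← aeval_real_eq]; exact hroot c
      norm_num at h2
      exact h2.resolve_left h3
    have hcritC : aeval (c : ℂ) (hasseDeriv 1 f) = 0 := by
      rw [aeval_ofReal, aeval_real_eq, hasseDeriv_one, ← derivative_map, ← hfr, hcrit]; simp
    have hder0 : hasseDeriv 1 f ≠ 0 := by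
      rw [hasseDeriv_one]
      intro h
      have := derivative_eq_zero.1 h
      omega
    have hn1 : nrm (hasseDeriv 1 f) ≤ 2 ^ (2 * D) := by
      calc nrm (hasseDeriv 1 f) ≤ 2 ^ f.natDegree * nrm f := nrm_hasseDeriv_le _ _
        _ ≤ 2 ^ D * 2 ^ D := Nat.mul_le_mul (Nat.pow_le_pow_right (by norm_num) hdeg) hn
        _ = _ := by rw [← pow_add]; congr 1; ring
    have hA : ((|(hasseDeriv 1 f).leadingCoeff| : ℤ) : ℝ) ≤ 2 ^ (2 * D) := by
      have h1 : (hasseDeriv 1 f).leadingCoeff.natAbs ≤ 2 ^ (2 * D) :=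
        (natAbs_coeff_le _ _).trans hn1
      rw [Int.abs_eq_natAbs]
      exact_mod_cast h1
    have hBB : ∀ z : ℂ, aeval z (hasseDeriv 1 f) = 0 → ‖aeval z f‖ ≤ 2 ^ (D + 2 * D * D) := by
      intro z hz
      have h1 : ‖z‖ ≤ 2 ^ (2 * D) := by
        refine (norm_root_le _ hder0 z hz).trans ?_
        exact_mod_cast hn1
      have h2 := norm_aeval_le f z (2 ^ (2 * D)) (one_le_pow₀ (by norm_num)) h1 D hdeg
      refine h2.trans ?_
      rw [pow_add, ← pow_mul]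
      refine mul_le_mul_of_nonneg_right ?_ (by positivity)
      exact_mod_cast hn
    have h3 := alg_lower (hasseDeriv 1 f) f hder0 (c : ℂ) hcritC (by
      rw [aeval_ofReal]; exact_mod_cast hroot c) (2 ^ (2 * D)) (2 ^ (D + 2 * D * D))
      (by exact_mod_cast hA) (one_le_pow₀ (by norm_num)) hBB D hdeg
    rw [norm_aeval_ofReal] at h3
    have hdd : (hasseDeriv 1 f).natDegree ≤ D := by
      have := natDegree_hasseDeriv_le f 1; omega
    have h4 : (2 : ℝ) ^ (2 * D) ^ 1 = 2 ^ (2 * D) := by rw [pow_one]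
    have h5 : ((2 : ℝ) ^ (2 * D)) ^ D * (2 ^ (D + 2 * D * D)) ^ (hasseDeriv 1 f).natDegree
        < 2 ^ (16 * D ^ 3) := by
      rw [← pow_mul, ← pow_mul, ← pow_add]
      refine pow_lt_pow_right₀ (by norm_num) ?_
      have e1 : (D + 2 * D * D) * (hasseDeriv 1 f).natDegree ≤ (D + 2 * D * D) * D :=
        Nat.mul_le_mul_left _ hdd
      nlinarith [Nat.mul_le_mul hD hD, Nat.mul_le_mul (Nat.mul_le_mul hD hD) hD,
        Nat.mul_le_mul_left (D * D) hD, Nat.mul_le_mul_left D hD]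
    have hpos' : 0 < |aeval c f| := abs_pos.2 (hroot c)
    calc (1 : ℝ) ≤ _ := h3
      _ < 2 ^ (16 * D ^ 3) * |aeval c f| := mul_lt_mul_of_pos_right h5 hpos'
      _ ≤ 2 ^ (16 * D ^ 3) * |aeval x f| := mul_le_mul_of_nonneg_left (hc' x) (by positivity)

section

variable {f : ℤ[X]} {L : ℕ}

lemma natDegree_sq_lt (hdeg : f.natDegree ≤ 2 ^ L) :
    (C (2 ^ (3 * bigM L)) * f ^ 2 - C (2 ^ bigM L) : ℤ[X]).natDegree < 2 ^ (L + 2) := by
  rw [natDegree_sub_C]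
  refine lt_of_le_of_lt (natDegree_C_mul_le _ _) ?_
  refine lt_of_le_of_lt natDegree_pow_le ?_
  have : 0 < 2 ^ L := by positivity
  rw [pow_add]; omega

lemma Fp_eq (f : ℤ[X]) (L : ℕ) : Fp f L =
    X ^ (2 ^ (L + 2)) + (C (2 ^ (3 * bigM L)) * f ^ 2 - C (2 ^ bigM L)) := by
  unfold Fp; ring

lemma Fp_monic (hdeg : f.natDegree ≤ 2 ^ L) : (Fp f L).Monic := by
  rw [Fp_eq]
  exact monic_X_pow_add (lt_of_le_of_lt degree_le_natDegree (by
    exact_mod_cast natDegree_sq_lt hdeg))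

lemma Fp_natDegree (hdeg : f.natDegree ≤ 2 ^ L) : (Fp f L).natDegree = 2 ^ (L + 2) := by
  rw [Fp_eq]
  rw [natDegree_add_eq_left_of_natDegree_lt, natDegree_X_pow]
  rw [natDegree_X_pow]; exact natDegree_sq_lt hdeg

lemma Fp_aeval (x : ℝ) : aeval x (Fp f L) =
    x ^ (2 ^ (L + 2)) + 2 ^ (3 * bigM L) * (aeval x f) ^ 2 - 2 ^ bigM L := by
  unfold Fp
  rw [map_sub, map_add, map_mul, aeval_C, aeval_C, map_pow, map_pow, aeval_X]
  simp

/-- if `f` has no real root then `F` is positive -/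
lemma Fp_pos (hdeg : f.natDegree ≤ 2 ^ L) (hn : nrm f ≤ 2 ^ 2 ^ L)
    (hroot : ∀ x : ℝ, aeval x f ≠ 0) (x : ℝ) : 0 < aeval x (Fp f L) := by
  rw [Fp_aeval]
  have h1 := abs_lower f (2 ^ L) Nat.one_le_two_pow hdeg hn hroot x
  rw [← bigM_eq] at h1
  have h2 : (0 : ℝ) ≤ x ^ (2 ^ (L + 2)) := by
    have : Even (2 ^ (L + 2)) := by
      rw [pow_succ]; exact even_two.mul_left _
    exact this.pow_nonneg x
  set M : ℝ := 2 ^ bigM L with hM
  have hMpos : 0 < M := by positivity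
  have e1 : (2 : ℝ) ^ (3 * bigM L) = M ^ 3 := by rw [hM, ← pow_mul]; congr 1; ring
  rw [e1]
  have h3 : 1 < (M * |aeval x f|) ^ 2 := by
    have := pow_lt_pow_left₀ h1 (by norm_num) (n := 2) (by norm_num)
    simpa using this
  rw [mul_pow, sq_abs] at h3
  nlinarith

/-- if `f` has a real root then `F` has a negative value -/
lemma Fp_neg (hn : nrm f ≤ 2 ^ 2 ^ L) (hroot : ∃ x : ℝ, aeval x f = 0) :
    ∃ x : ℝ, aeval x (Fp f L) < 0 := by
  have hM : (0 : ℝ) < 2 ^ bigM L := by positivity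
  by_cases hf : f = 0
  · refine ⟨0, ?_⟩
    rw [Fp_aeval, hf]
    have : (2 : ℕ) ^ (L + 2) ≠ 0 := by positivity
    simp [zero_pow this]
  · obtain ⟨x, hx⟩ := hroot
    refine ⟨x, ?_⟩
    rw [Fp_aeval, hx]
    have h1 : |x| ≤ 2 ^ 2 ^ L := by
      have h2 := norm_root_le f hf (x : ℂ) (by rw [aeval_ofReal, hx]; simp)
      rw [Complex.norm_real, Real.norm_eq_abs] at h2
      refine h2.trans ?_
      exact_mod_cast hn
    have h3 : x ^ (2 ^ (L + 2)) ≤ ((2 : ℝ) ^ 2 ^ L) ^ (2 ^ (L + 2)) := by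
      calc x ^ (2 ^ (L + 2)) ≤ |x ^ (2 ^ (L + 2))| := le_abs_self _
        _ = |x| ^ (2 ^ (L + 2)) := abs_pow _ _
        _ ≤ _ := pow_le_pow_left₀ (abs_nonneg _) h1 _
    have h4 : ((2 : ℝ) ^ 2 ^ L) ^ (2 ^ (L + 2)) < 2 ^ bigM L := by
      rw [← pow_mul]
      refine pow_lt_pow_right₀ (by norm_num) ?_
      rw [bigM, ← pow_add]
      exact Nat.pow_lt_pow_right (by norm_num) (by omega)
    simp only [ne_eq, OfNat.ofNat_ne_zero, not_false_eq_true, zero_pow, mul_zero, add_zero]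
    linarith

lemma nrm_Fp_le (hn : nrm f ≤ 2 ^ 2 ^ L) : nrm (Fp f L) ≤ 2 ^ (4 * bigM L) := by
  have h1 : nrm (X ^ (2 ^ (L + 2)) : ℤ[X]) ≤ 1 := by
    refine (nrm_pow_le _ _).trans ?_
    rw [nrm_X, one_pow]
  have h2 : nrm (C (2 ^ (3 * bigM L)) * f ^ 2) ≤ 2 ^ (3 * bigM L) * (2 ^ 2 ^ L) ^ 2 := by
    refine (nrm_mul_le _ _).trans (Nat.mul_le_mul ?_ ((nrm_pow_le _ _).trans
      (Nat.pow_le_pow_left hn _)))
    rw [nrm_C, Int.natAbs_pow]; rfl
  have h3 : nrm (C (2 ^ bigM L) : ℤ[X]) = 2 ^ bigM L := by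
    rw [nrm_C, Int.natAbs_pow]; rfl
  have h4 : nrm (Fp f L) ≤ 1 + 2 ^ (3 * bigM L) * (2 ^ 2 ^ L) ^ 2 + 2 ^ bigM L := by
    unfold Fp
    refine (nrm_sub_le _ _).trans ?_
    rw [h3]
    refine Nat.add_le_add_right ((nrm_add_le _ _).trans (add_le_add h1 h2)) _
  refine h4.trans ?_
  set D := 2 ^ L with hD
  have hD1 : 1 ≤ D := Nat.one_le_two_pow
  have hb : 2 * D + 2 ≤ bigM L := by
    rw [bigM_eq, ← hD]
    nlinarith [Nat.mul_le_mul hD1 hD1, Nat.mul_le_mul (Nat.mul_le_mul hD1 hD1) hD1,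
        Nat.mul_le_mul_left (D * D) hD1, Nat.mul_le_mul_left D hD1]
  have e1 : 2 ^ (3 * bigM L) * (2 ^ D) ^ 2 * 4 ≤ 2 ^ (4 * bigM L) := by
    rw [← pow_mul, show (4 : ℕ) = 2 ^ 2 by norm_num, ← pow_add, ← pow_add]
    refine Nat.pow_le_pow_right (by norm_num) ?_
    omega
  have e2 : 2 ^ bigM L ≤ 2 ^ (3 * bigM L) := Nat.pow_le_pow_right (by norm_num) (by omega)
  have e3 : 1 ≤ (2 ^ D) ^ 2 := Nat.one_le_pow _ _ (by positivity)
  have e4 : 2 ^ (3 * bigM L) ≤ 2 ^ (3 * bigM L) * (2 ^ D) ^ 2 := Nat.le_mul_of_pos_right _ e3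
  have e5 : 1 ≤ 2 ^ (3 * bigM L) := Nat.one_le_two_pow
  omega

lemma derivs_bound (hdeg : f.natDegree ≤ 2 ^ L) (hn : nrm f ≤ 2 ^ 2 ^ L) (k : ℕ) (z : ℂ)
    (hz : aeval z (Fp f L) = 0) :
    ‖aeval z (hasseDeriv k (Fp f L))‖ ≤ 2 ^ (512 * (2 ^ L) ^ 4) := by
  have hF0 : Fp f L ≠ 0 := (Fp_monic hdeg).ne_zero
  have h1 : ‖z‖ ≤ 2 ^ (4 * bigM L) := by
    refine (norm_root_le _ hF0 z hz).trans ?_
    exact_mod_cast nrm_Fp_le hn
  have hN := Fp_natDegree (f := f) (L := L) hdeg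
  have h2 : nrm (hasseDeriv k (Fp f L)) ≤ 2 ^ (2 ^ (L + 2) + 4 * bigM L) := by
    refine (nrm_hasseDeriv_le _ _).trans ?_
    rw [hN, pow_add 2 (2 ^ (L + 2))]
    exact Nat.mul_le_mul_left _ (nrm_Fp_le hn)
  have h3 := norm_aeval_le (hasseDeriv k (Fp f L)) z (2 ^ (4 * bigM L))
    (one_le_pow₀ (by norm_num)) h1 (2 ^ (L + 2)) (by
      have := natDegree_hasseDeriv_le (Fp f L) k
      rw [hN] at this; omega)
  refine h3.trans ?_
  calc (nrm (hasseDeriv k (Fp f L)) : ℝ) * (2 ^ (4 * bigM L)) ^ 2 ^ (L + 2)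
      ≤ 2 ^ (2 ^ (L + 2) + 4 * bigM L) * (2 ^ (4 * bigM L)) ^ 2 ^ (L + 2) := by
        refine mul_le_mul_of_nonneg_right ?_ (by positivity)
        exact_mod_cast h2
    _ = 2 ^ (2 ^ (L + 2) + 4 * bigM L + 4 * bigM L * 2 ^ (L + 2)) := by
        rw [← pow_mul, ← pow_add]
    _ ≤ _ := by
        refine pow_le_pow_right₀ (by norm_num) ?_
        rw [bigM_eq, pow_add]
        set D := 2 ^ L with hD
        have hD1 : 1 ≤ D := Nat.one_le_two_pow
        have e1 : D ≤ D ^ 4 := Nat.le_self_pow (by norm_num) D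
        have e2 : D ^ 3 ≤ D ^ 4 := Nat.pow_le_pow_right hD1 (by norm_num)
        have e3 : 4 * (16 * D ^ 3) * (D * 2 ^ 2) = 256 * D ^ 4 := by ring
        rw [e3]; omega

lemma derivs_upper (hdeg : f.natDegree ≤ 2 ^ L) (hn : nrm f ≤ 2 ^ 2 ^ L) (k : ℕ) (z : ℂ)
    (hz : aeval z (Fp f L) = 0) : ‖aeval z (hasseDeriv k (Fp f L))‖ ≤ 2 ^ bigE L := by
  refine (derivs_bound hdeg hn k z hz).trans (pow_le_pow_right₀ (by norm_num) ?_)
  unfold bigE
  rw [show 512 = 2 ^ 9 by norm_num, ← pow_mul, ← pow_add]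
  exact Nat.pow_le_pow_right (by norm_num) (by omega)

lemma derivs_lower (hdeg : f.natDegree ≤ 2 ^ L) (hn : nrm f ≤ 2 ^ 2 ^ L) (k : ℕ) (z : ℂ)
    (hz : aeval z (Fp f L) = 0) (hne : aeval z (hasseDeriv k (Fp f L)) ≠ 0) :
    1 ≤ 2 ^ bigE L * ‖aeval z (hasseDeriv k (Fp f L))‖ := by
  have hm := Fp_monic (f := f) (L := L) hdeg
  have h1 := alg_lower (Fp f L) (hasseDeriv k (Fp f L)) hm.ne_zero z hz hne 1
    (2 ^ (512 * (2 ^ L) ^ 4)) (by rw [hm.leadingCoeff]; simp) (one_le_pow₀ (by norm_num))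
    (fun w hw => derivs_bound hdeg hn k w hw) _ le_rfl
  rw [one_pow, one_mul, Fp_natDegree hdeg, ← pow_mul] at h1
  have e : 512 * (2 ^ L) ^ 4 * 2 ^ (L + 2) = bigE L := by
    unfold bigE
    rw [show 512 = 2 ^ 9 by norm_num, ← pow_mul, ← pow_add, ← pow_add]
    congr 1; ring
  rwa [e] at h1

/-- a real root gives a certificate -/
theorem cert_of_root (hdeg : f.natDegree ≤ 2 ^ L) (hn : nrm f ≤ 2 ^ 2 ^ L)
    (h : ∃ x : ℝ, aeval x f = 0) : ∃ (l : List (ℕ × ℕ × ℤ)) (j : ℕ), l.length ≤ L + 2 ∧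
      j ≤ 2 ^ (L + 2) ∧
      (∀ t ∈ l, 1 ≤ t.1 ∧ t.1 ≤ 2 ^ (L + 2) ∧ t.2.1 ≤ 3 * bigE L ∧ |t.2.2| ≤ 2 * (L + 4)) ∧
      resultant (Fp f L) (gpoly (Fp f L) (bigE L) l ((l.length + 1) * 2 ^ (2 * bigE L) + j))
        (2 ^ (L + 2)) (2 * 2 ^ (L + 2)) < 0 := by
  have hm := Fp_monic (f := f) (L := L) hdeg
  have hN := Fp_natDegree (f := f) (L := L) hdeg
  have hlog : Nat.log 2 (2 ^ (L + 2)) = L + 2 := Nat.log_pow (by norm_num) _
  obtain ⟨x, hx⟩ := Fp_neg hn h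
  rw [aeval_real_eq] at hx
  have hodd := exists_odd_root _ (hm.map (Int.castRingHom ℝ)) x hx
  have hroots : ∀ (α : ℝ), ((Fp f L).map (Int.castRingHom ℝ)).eval α = 0 →
      aeval (α : ℂ) (Fp f L) = 0 := by
    intro α hα
    rw [aeval_ofReal, aeval_real_eq, hα]; simp
  have hval : ∀ (α : ℝ) (k : ℕ), ‖aeval (α : ℂ) (hasseDeriv k (Fp f L))‖ =
      |(hasseDeriv k ((Fp f L).map (Int.castRingHom ℝ))).eval α| := by
    intro α k
    rw [norm_aeval_ofReal, aeval_real_eq, map_hasseDeriv]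
  have hcert := exists_cert (Fp f L) hm (bigE L) ?_ ?_ ?_ hodd
  · obtain ⟨l, j, h1, h2, h3, h4⟩ := hcert
    rw [hN] at h2 h3 h4
    rw [hN, hlog] at h1
    rw [hlog] at h3
    refine ⟨l, j, h1, h2, fun t ht => ?_, h4⟩
    obtain ⟨h5, h6, h7, h8⟩ := h3 t ht
    refine ⟨h5, h6, h7, h8.trans ?_⟩
    push_cast
    linarith
  · rw [hN]
    have e1 : 3 ≤ 2 ^ (L + 2) := by
      rw [pow_add]; have : 1 ≤ 2 ^ L := Nat.one_le_two_pow
      omega
    calc 2 ^ (L + 2) + 3 ≤ 2 ^ (L + 2) + 2 ^ (L + 2) := by omega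
      _ = 2 ^ (L + 3) := by ring
      _ ≤ 2 ^ bigE L := by
        refine Nat.pow_le_pow_right (by norm_num) ?_
        calc L + 3 ≤ 2 ^ (L + 3) := Nat.lt_two_pow_self.le
          _ ≤ bigE L := Nat.pow_le_pow_right (by norm_num) (by omega)
  · intro α k hα hne
    rw [← hval]
    refine derivs_lower hdeg hn k α (hroots α hα) ?_
    rw [← norm_ne_zero_iff, hval]
    exact abs_ne_zero.2 hne
  · intro α k hα
    rw [← hval]
    exact derivs_upper hdeg hn k α (hroots α hα)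

/-- a negative resultant gives a real root -/
theorem root_of_res (hdeg : f.natDegree ≤ 2 ^ L) (hn : nrm f ≤ 2 ^ 2 ^ L) (g : ℤ[X])
    (hg : g.natDegree ≤ 2 * 2 ^ (L + 2))
    (h : resultant (Fp f L) g (2 ^ (L + 2)) (2 * 2 ^ (L + 2)) < 0) :
    ∃ x : ℝ, aeval x f = 0 := by
  have hm := Fp_monic (f := f) (L := L) hdeg
  have hN := Fp_natDegree (f := f) (L := L) hdeg
  by_contra hno
  push Not at hno
  have hpos : ∀ x : ℝ, 0 < ((Fp f L).map (Int.castRingHom ℝ)).eval x := by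
    intro x
    rw [← aeval_real_eq]; exact Fp_pos hdeg hn hno x
  have hr := resultant_map_map (Fp f L) g (2 ^ (L + 2)) (2 * 2 ^ (L + 2)) (Int.castRingHom ℝ)
  have hdegr : ((Fp f L).map (Int.castRingHom ℝ)).natDegree = 2 ^ (L + 2) := by
    rw [hm.natDegree_map, hN]
  have h5 := res_nonneg' ((Fp f L).map (Int.castRingHom ℝ))
    (g.map (Int.castRingHom ℝ)) (hm.map _) (2 * 2 ^ (L + 2)) (natDegree_map_le.trans hg)
    (fun x => (hpos x).ne')
  rw [hdegr, hr] at h5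
  have h6 : ((0 : ℤ) : ℝ) ≤ ((resultant (Fp f L) g (2 ^ (L + 2)) (2 * 2 ^ (L + 2)) : ℤ) : ℝ) := by
    simpa using h5
  exact absurd h (not_lt.2 (Int.cast_le.1 h6))

end

end RootCH
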