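import Pool.Agent.Work.MP_859ada_lc.CH.Sum

namespace RootCH

open Finset

/-- remainder, with value `0` for modulus `0` -/
def md (x p : ℕ) : ℕ := if p = 0 then 0 else x % p

lemma md_le (x p : ℕ) : md x p ≤ p := by
  unfold md; split_ifs with h
  · omega
  · exact (Nat.mod_lt _ (Nat.pos_of_ne_zero h)).le

lemma md_lt {x p : ℕ} (hp : 0 < p) : md x p < p := by
  unfold md; rw [if_neg hp.ne']; exact Nat.mod_lt _ hp

lemma md_eq {x p : ℕ} (hp : p ≠ 0) : md x p = x % p := by simp [md, hp]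

lemma md_lt_two_pow (x p : ℕ) : md x p < 2 ^ Nat.size p := 
  lt_of_le_of_lt (md_le x p) (Nat.lt_size_self p)

lemma Fn.md {F G : (ℕ → ℕ) → ℕ} (hF : Fn F) (hG : Fn G) : Fn fun v => RootCH.md (F v) (G v) := by
  unfold RootCH.md
  exact Fn.ite (CH.eq hG Fn.zero) Fn.zero (hF.mod hG)

lemma md_mul_md (a b p : ℕ) : md (md a p * md b p) p = md (a * b) p := by
  unfold md; split_ifs
  · rfl
  · rw [← Nat.mul_mod]

lemma md_md (a p : ℕ) : md (md a p) p = md a p := by
  unfold md; split_ifs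
  · rfl
  · rw [Nat.mod_mod]

/-- modular exponentiation -/
lemma powM_aux (a e p : ℕ) : ∀ i ≤ Nat.size e,
    Nat.rec (motive := fun _ => ℕ) (md 1 p)
      (fun i r => md (r * r * (if e / 2 ^ (Nat.size e - 1 - i) % 2 = 1 then a else 1)) p) i
    = md (a ^ (e / 2 ^ (Nat.size e - i))) p := by
  intro i
  induction i with
  | zero =>
    intro _
    have : e / 2 ^ (Nat.size e) = 0 := Nat.div_eq_of_lt (Nat.lt_size_self e)
    simp [this]
  | succ i ih =>
    intro hi
    have ih' := ih (by omega)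
    simp only at ih' ⊢
    rw [ih']
    set n := Nat.size e
    have e1 : n - 1 - i = n - (i + 1) := by omega
    rw [e1]
    have e2 : e / 2 ^ (n - i) = e / 2 ^ (n - (i + 1)) / 2 := by
      rw [Nat.div_div_eq_div_mul, ← pow_succ]
      congr 2; omega
    rw [e2]
    set q := e / 2 ^ (n - (i + 1))
    have hq := Nat.div_add_mod q 2
    rw [show md (a ^ (q / 2)) p * md (a ^ (q / 2)) p * (if q % 2 = 1 then a else 1) =
      (md (a ^ (q / 2)) p * md (a ^ (q / 2)) p) * (if q % 2 = 1 then a else 1) from rfl]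
    have key : md ((md (a ^ (q / 2)) p * md (a ^ (q / 2)) p) * (if q % 2 = 1 then a else 1)) p
        = md ((a ^ (q / 2) * a ^ (q / 2)) * (if q % 2 = 1 then a else 1)) p := by
      rw [← md_mul_md (md (a ^ (q / 2)) p * md (a ^ (q / 2)) p), md_mul_md (a ^ (q / 2)),
        md_mul_md]
    rw [key]
    congr 1
    rcases Nat.mod_two_eq_zero_or_one q with h | h
    · rw [h] at hq ⊢
      simp only [zero_ne_one, if_false, mul_one]
      rw [← pow_add]; congr 1; omega
    · rw [h] at hq ⊢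
      simp only [if_true]
      rw [← pow_add, ← pow_succ]; congr 1; omega

lemma Fn.powM3 : Fn fun v => RootCH.md (v 0 ^ v 1) (v 2) := by
  have hrec : Fn fun v => Nat.rec (motive := fun _ => ℕ) (RootCH.md 1 (v 2))
      (fun i r => RootCH.md (r * r * (if v 1 / 2 ^ (Nat.size (v 1) - 1 - i) % 2 = 1
        then v 0 else 1)) (v 2)) (Nat.size (v 1)) := by
    refine Fn.natRec (w := fun v => Nat.size (v 2))
      (h := fun i r v => RootCH.md (r * r * (if v 1 / 2 ^ (Nat.size (v 1) - 1 - i) % 2 = 1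
        then v 0 else 1)) (v 2)) (Fn.var 1).size (PolyB.size_var 1) (Fn.var 2).size
      (PolyB.size_var 2) (Fn.one.md (Fn.var 2)) ?_ ?_
    · -- environment : i, r, v0, v1, v2
      have hE : Fn fun v => 2 ^ (Nat.size (v 3) - 1 - v 0) :=
        Fn.two_pow (((Fn.var 3).size.sub Fn.one).sub (Fn.var 0))
          ((PolyB.size_var 3).mono fun v => by omega)
      exact (((Fn.var 1).mul (Fn.var 1)).mul (Fn.ite (CH.eq (((Fn.var 3).div hE).mod (Fn.const 2))
        Fn.one) (Fn.var 2) Fn.one)).md (Fn.var 4)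
    · intro v i hi
      cases i with
      | zero => exact md_lt_two_pow _ _
      | succ i => exact md_lt_two_pow _ _
  refine hrec.congr fun v => ?_
  rw [powM_aux _ _ _ _ le_rfl]
  simp

lemma Fn.powM {A E P : (ℕ → ℕ) → ℕ} (hA : Fn A) (hE : Fn E) (hP : Fn P) :
    Fn fun v => RootCH.md (A v ^ E v) (P v) :=
  Fn.comp3 (f := fun a e p => RootCH.md (a ^ e) p) Fn.powM3 hA hE hP

lemma CH.prime {F : (ℕ → ℕ) → ℕ} (hF : Fn F) : CH fun v => (F v).Prime := by
  refine CH.comp1 (P := Nat.Prime) ?_ hF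
  refine ((CH.le (Fn.const 2) (Fn.var 0)).and (CH.allB (R := fun m v => m ∣ v 0 → m = 1)
    (Fn.var 0) ?_)).congr fun v => Nat.prime_def_lt.symm
  exact (CH.dvd (Fn.var 0) (Fn.var 1)).imp (CH.eq (Fn.var 0) Fn.one)

theorem Fn.sumMod {T P : (ℕ → ℕ) → ℕ} {g : ℕ → (ℕ → ℕ) → ℕ} (hT : Fn T) (hP : Fn P)
    (hg : Fn fun v => g (v 0) (tail v)) :
    Fn fun v => RootCH.md (∑ k ∈ range (T v), RootCH.md (g k v) (P v)) (P v) :=
  (Fn.sum (g := fun k v => RootCH.md (g k v) (P v)) hT hP (hg.md hP.shift)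
    fun _ _ _ => md_le _ _).md hP

end RootCH
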