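import Mathlib

namespace RootCH

open Finset Polynomial

/-- truncated geometric sum `(X^T - (X^N - F)^(K+1)) / F` -/
noncomputable def geo {L : Type*} [CommRing L] (F : L[X]) (N K : ℕ) : L[X] :=
  ∑ k ∈ range (K + 1), (X ^ N - F) ^ k * (X ^ N) ^ (K - k)

lemma mul_geo {L : Type*} [CommRing L] (F : L[X]) (N K : ℕ) :
    F * geo F N K = X ^ (N * (K + 1)) - (X ^ N - F) ^ (K + 1) := by
  have h := (Commute.all (X ^ N - F) ((X : L[X]) ^ N)).geom_sum₂_mul (K + 1)
  have e : geo F N K = ∑ i ∈ range (K + 1), (X ^ N - F) ^ i * ((X : L[X]) ^ N) ^ (K + 1 - 1 - i) := by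
    unfold geo; simp
  rw [← e] at h
  have : F = -((X ^ N - F) - X ^ N) := by ring
  calc F * geo F N K = -(geo F N K * ((X ^ N - F) - X ^ N)) := by ring
    _ = _ := by rw [h, ← pow_mul]; ring

theorem coeff_powersum {L : Type*} [Field L] (F h : L[X]) (hF : F.Monic) (hs : F.Splits)
    (hN : 1 ≤ F.natDegree) (K : ℕ) (hd : h.natDegree ≤ K) :
    (h * derivative F * geo F F.natDegree K).coeff (F.natDegree * (K + 1) - 1) =
      (F.roots.map h.eval).sum := by
  classical
  set N := F.natDegree with hNdef
  set T := N * (K + 1) with hT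
  have hTpos : 0 < T := Nat.mul_pos hN (by omega)
  set G := X ^ N - F with hG
  -- degree of G
  have hGd : G.natDegree ≤ N - 1 := by
    have h1 : G.degree < N := by
      rw [hG]
      have := degree_sub_lt_left (p := (X : L[X]) ^ N) (q := F) (by
        rw [degree_X_pow, degree_eq_natDegree hF.ne_zero]) (pow_ne_zero _ X_ne_zero) (by
        rw [leadingCoeff_X_pow, hF.leadingCoeff])
      rwa [degree_X_pow] at this
    rcases eq_or_ne G 0 with h0 | h0
    · rw [h0]; simp
    · have := (natDegree_lt_iff_degree_lt h0).2 h1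
      omega
  have hGK : (G ^ (K + 1)).natDegree ≤ (N - 1) * (K + 1) := by
    refine (natDegree_pow_le).trans ?_
    rw [mul_comm]
    exact Nat.mul_le_mul_right _ hGd
  have hlt : (N - 1) * (K + 1) + (K + 1) = T := by
    rw [hT]
    obtain ⟨m, hm⟩ : ∃ m, N = m + 1 := ⟨N - 1, by omega⟩
    rw [hm]; simp; ring
  set W := (X : L[X]) ^ T - G ^ (K + 1) with hW
  have hWgeo : F * geo F N K = W := by rw [mul_geo]
  have hWmonic : W.Monic := by
    rw [hW]
    refine (monic_X_pow T).sub_of_left ?_
    rw [degree_X_pow]
    refine lt_of_le_of_lt degree_le_natDegree ?_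
    exact_mod_cast (by omega : (G ^ (K + 1)).natDegree < T)
  have hWdeg : W.natDegree = T := by
    rw [hW, natDegree_sub_eq_left_of_natDegree_lt]
    · simp
    · rw [natDegree_X_pow]; omega
  -- each root
  have hroot : ∀ α ∈ F.roots, (h * (F /ₘ (X - C α)) * geo F N K).coeff (T - 1) = h.eval α := by
    intro α hα
    have hr : IsRoot F α := isRoot_of_mem_roots hα
    have e1 : (X - C α) * (F /ₘ (X - C α)) = F := mul_divByMonic_eq_iff_isRoot.2 hr
    set Fa := F /ₘ (X - C α) with hFa
    have e2 : (X - C α) * (Fa * geo F N K) = W := by rw [← mul_assoc, e1, hWgeo]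
    have hm : (Fa * geo F N K).Monic := (monic_X_sub_C α).of_mul_monic_left (by rw [e2]; exact hWmonic)
    have hdeg : (Fa * geo F N K).natDegree = T - 1 := by
      have := (monic_X_sub_C α).natDegree_mul hm
      rw [e2, hWdeg, natDegree_X_sub_C] at this
      omega
    have e3 : h = C (h.eval α) + (X - C α) * (h /ₘ (X - C α)) := by
      conv_lhs => rw [← modByMonic_add_div h (X - C α), modByMonic_X_sub_C_eq_C_eval]
    set ha := h /ₘ (X - C α) with hha
    have e4 : h * Fa * geo F N K = C (h.eval α) * (Fa * geo F N K) + ha * W := by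
      rw [← e2]
      conv_lhs => rw [e3]
      ring
    rw [e4, coeff_add, coeff_C_mul]
    have e5 : (Fa * geo F N K).coeff (T - 1) = 1 := by
      rw [← hdeg]; exact hm
    rw [e5, mul_one]
    have e6 : (ha * W).coeff (T - 1) = 0 := by
      rw [hW, mul_sub, coeff_sub, coeff_mul_X_pow', if_neg (by omega), zero_sub, neg_eq_zero]
      rcases eq_or_ne ha 0 with h0 | h0
      · rw [h0]; simp
      · apply coeff_eq_zero_of_natDegree_lt
        have h1 : ha.natDegree = h.natDegree - 1 := by
          rw [hha, natDegree_divByMonic _ (monic_X_sub_C α), natDegree_X_sub_C]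
        have h2 : 1 ≤ h.natDegree := by
          by_contra hc
          apply h0
          rw [hha, divByMonic_eq_zero_iff (monic_X_sub_C α), degree_X_sub_C]
          refine lt_of_le_of_lt degree_le_natDegree ?_
          have : h.natDegree = 0 := by omega
          rw [this]; norm_num
        have h3 := natDegree_mul_le (p := ha) (q := G ^ (K + 1))
        omega
    rw [e6, add_zero]
  -- derivative as a sum over the roots
  have hprod : F = (F.roots.map fun α => X - C α).prod := hs.eq_prod_roots_of_monic hF
  have hder : derivative F = (F.roots.map fun α => F /ₘ (X - C α)).sum := by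
    conv_lhs => rw [hprod, derivative_prod]
    congr 1
    refine Multiset.map_congr rfl fun α hα => ?_
    have hr : IsRoot F α := isRoot_of_mem_roots hα
    have e1 : (X - C α) * (F /ₘ (X - C α)) = F := mul_divByMonic_eq_iff_isRoot.2 hr
    have e2 : (X - C α) * ((F.roots.erase α).map fun α => X - C α).prod = F := by
      conv_rhs => rw [hprod]
      rw [← Multiset.cons_erase hα, Multiset.map_cons, Multiset.prod_cons, Multiset.cons_erase hα]
    have : ((F.roots.erase α).map fun α => X - C α).prod = F /ₘ (X - C α) :=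
      mul_left_cancel₀ (X_sub_C_ne_zero α) (by rw [e2, e1])
    rw [this]; simp
  rw [hder, ← Multiset.sum_map_mul_left, ← Multiset.sum_map_mul_right]
  have hmap : ∀ (φ : L[X] →+ L) (S : Multiset L) (f : L → L[X]),
      φ (S.map f).sum = (S.map fun x => φ (f x)).sum := by
    intro φ S f
    rw [map_multiset_sum, Multiset.map_map]; rfl
  have := hmap (lcoeff L (T - 1)).toAddMonoidHom F.roots
    (fun i => h * (F /ₘ (X - C i)) * geo F N K)
  simp only [LinearMap.toAddMonoidHom_coe, lcoeff_apply] at this
  rw [this]
  congr 1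
  exact Multiset.map_congr rfl fun α hα => hroot α hα

end RootCH
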