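import Pool.Agent.Work.MP_859ada_lc.CH.NI
import Pool.Agent.Work.MP_859ada_lc.CH.PS
import Pool.Agent.Work.MP_859ada_lc.CH.FF

namespace RootCH

open Finset Polynomial

lemma map_logser {K L : Type*} [Field K] [Field L] (φ : K →+* L) (P : ℕ → K) (N : ℕ) :
    (logser P N).map φ = logser (fun m => φ (P m)) N := by
  unfold logser
  rw [← coe_mapRingHom, map_sum]
  refine Finset.sum_congr rfl fun m _ => ?_
  simp [coe_mapRingHom]

lemma map_expser {K L : Type*} [Field K] [Field L] (φ : K →+* L) (z : K[X]) (N : ℕ) :
    (expser z N).map φ = expser (z.map φ) N := by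
  unfold expser
  rw [← coe_mapRingHom, map_sum]
  refine Finset.sum_congr rfl fun m _ => ?_
  simp [coe_mapRingHom]

lemma map_geo {K L : Type*} [CommRing K] [CommRing L] (φ : K →+* L) (F : K[X]) (N M : ℕ) :
    (geo F N M).map φ = geo (F.map φ) N M := by
  unfold geo
  rw [← coe_mapRingHom, map_sum]
  refine Finset.sum_congr rfl fun m _ => ?_
  simp [coe_mapRingHom]

/-- the power sums -/
noncomputable def psum {K : Type*} [CommRing K] (F g : K[X]) (N m : ℕ) : K :=
  (g ^ m * derivative F * geo F N (2 * N * m)).coeff (N * (2 * N * m + 1) - 1)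

lemma map_psum {K L : Type*} [CommRing K] [CommRing L] (φ : K →+* L) (F g : K[X]) (N m : ℕ) :
    φ (psum F g N m) = psum (F.map φ) (g.map φ) N m := by
  unfold psum
  rw [← coeff_map, Polynomial.map_mul, Polynomial.map_mul, Polynomial.map_pow, derivative_map,
    map_geo]

theorem res_eq_coeff (p : ℕ) [hp : Fact p.Prime] (F g : (ZMod p)[X]) (hF : F.Monic) (N : ℕ)
    (hN : F.natDegree = N) (hN1 : 1 ≤ N) (hg : g.natDegree ≤ 2 * N) (hNp : N < p) :
    resultant F g N (2 * N) = (expser (logser (psum F g N) N) N).coeff N := by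
  classical
  set φ := algebraMap (ZMod p) (AlgebraicClosure (ZMod p)) with hφ
  apply φ.injective
  rw [← resultant_map_map, ← coeff_map, map_expser, map_logser]
  have hFm : (F.map φ).Monic := hF.map φ
  have hd : (F.map φ).natDegree = N := by rw [hF.natDegree_map, hN]
  have hs : (F.map φ).Splits := IsAlgClosed.splits _
  have hres : resultant (F.map φ) (g.map φ) N (2 * N) =
      ((F.map φ).roots.map (g.map φ).eval).prod := by
    have := resultant_eq_prod_eval (F.map φ) (g.map φ) (2 * N) (natDegree_map_le.trans hg) hs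
    rw [hd, hFm.leadingCoeff, one_pow, one_mul] at this
    exact this
  rw [hres]
  -- enumerate the roots
  have hcard : Multiset.card (F.map φ).roots = N := by
    rw [← hs.natDegree_eq_card_roots, hd]
  obtain ⟨l, hl⟩ : ∃ l : List (AlgebraicClosure (ZMod p)), (l : Multiset _) = (F.map φ).roots :=
    ⟨_, Multiset.coe_toList _⟩
  have hll : l.length = N := by
    rw [← hcard, ← hl, Multiset.coe_card]
  subst hll
  have hch : ∀ k, 1 ≤ k → k ≤ l.length → ((k : ℕ) : AlgebraicClosure (ZMod p)) ≠ 0 := by
    intro k h1 h2 h3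
    have : ((k : ℕ) : ZMod p) = 0 := by
      apply φ.injective
      rw [map_natCast, h3, map_zero]
    rw [ZMod.natCast_eq_zero_iff] at this
    have := Nat.le_of_dvd (by omega) this
    omega
  have hfin : ∀ h : AlgebraicClosure (ZMod p) → AlgebraicClosure (ZMod p),
      (F.map φ).roots.map h = (univ.val.map fun i : Fin l.length => h (l.get i)) := by
    intro h
    rw [← hl, Multiset.map_coe, Fin.univ_val_map]
    congr 1
    conv_lhs => rw [← List.ofFn_get l]
    rw [List.map_ofFn]; rfl
  rw [hfin]
  have := prod_eq_coeff_exp l.length (fun i => (g.map φ).eval (l.get i)) hch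
    (fun m => φ (psum F g l.length m)) ?_
  · rw [this]; rfl
  · intro m hm1 hm2
    rw [map_psum]
    have h1 := coeff_powersum (F.map φ) ((g.map φ) ^ m) hFm hs (by rw [hd]; exact hN1)
      (2 * l.length * m) (by
        refine natDegree_pow_le.trans ?_
        rw [mul_comm m]
        exact Nat.mul_le_mul_right _ (natDegree_map_le.trans hg))
    rw [hd] at h1
    unfold psum
    rw [h1, hfin]
    simp only [eval_pow]
    rfl

end RootCH
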