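import Mathlib

namespace RootCH

open Finset Polynomial

section

variable {L : Type*} [Field L]

/-- logarithmic series built from power sums -/
noncomputable def logser (P : ℕ → L) (N : ℕ) : L[X] :=
  ∑ m ∈ range N, C ((-1) ^ m * P (m + 1) * (((m + 1 : ℕ) : L))⁻¹) * X ^ (m + 1)

/-- truncated exponential -/
noncomputable def expser (z : L[X]) (N : ℕ) : L[X] :=
  ∑ k ∈ range (N + 1), C ((k.factorial : L)⁻¹) * z ^ k

lemma X_dvd_logser (P : ℕ → L) (N : ℕ) : X ∣ logser P N := by
  unfold logser
  refine Finset.dvd_sum fun m _ => ?_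
  exact Dvd.dvd.mul_left (dvd_pow_self X (by omega)) _

lemma coeff_derivative_logser (P : ℕ → L) (N : ℕ) (hch : ∀ k, 1 ≤ k → k ≤ N → (k : L) ≠ 0)
    (i : ℕ) (hi : i < N) : (derivative (logser P N)).coeff i = (-1) ^ i * P (i + 1) := by
  rw [coeff_derivative]
  unfold logser
  rw [finsetSum_coeff, Finset.sum_eq_single i]
  · rw [coeff_C_mul, coeff_X_pow, if_pos rfl]
    have h := hch (i + 1) (by omega) (by omega)
    push_cast at h ⊢
    field_simp
  · intro m _ hm
    rw [coeff_C_mul, coeff_X_pow, if_neg (by omega), mul_zero]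
  · intro h; exact absurd (mem_range.2 hi) h

lemma derivative_expser (z : L[X]) (N : ℕ) (hch : ∀ k, 1 ≤ k → k ≤ N → (k : L) ≠ 0) :
    derivative (expser z N) = derivative z * (expser z N - C ((N.factorial : L)⁻¹) * z ^ N) := by
  have hfac : ∀ k ≤ N, ((k.factorial : ℕ) : L) ≠ 0 := by
    intro k
    induction k with
    | zero => intro _; simp
    | succ k ih =>
      intro hk
      rw [Nat.factorial_succ]
      push_cast
      have := hch (k + 1) (by omega) hk
      push_cast at this
      exact mul_ne_zero this (ih (by omega))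
  have e1 : expser z N - C ((N.factorial : L)⁻¹) * z ^ N =
      ∑ k ∈ range N, C ((k.factorial : L)⁻¹) * z ^ k := by
    unfold expser; rw [sum_range_succ]; ring
  rw [e1]
  unfold expser
  rw [derivative_sum, sum_range_succ', Finset.mul_sum]
  simp only [pow_zero, mul_one, derivative_C, add_zero]
  refine Finset.sum_congr rfl fun k hk => ?_
  rw [mem_range] at hk
  rw [derivative_mul, derivative_C, zero_mul, zero_add, derivative_pow_succ]
  have h1 := hfac k (by omega)
  have h2 := hch (k + 1) (by omega) (by omega)
  have e2 : C ((((k + 1).factorial : ℕ) : L)⁻¹) * C ((k : L) + 1) = C ((k.factorial : L)⁻¹) := by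
    rw [← C_mul]
    congr 1
    rw [Nat.factorial_succ]
    push_cast at h2 ⊢
    field_simp
  calc C ((((k + 1).factorial : ℕ) : L)⁻¹) * (C ((k : L) + 1) * z ^ k * derivative z)
      = (C ((((k + 1).factorial : ℕ) : L)⁻¹) * C ((k : L) + 1)) * z ^ k * derivative z := by ring
    _ = _ := by rw [e2]; ring

/-- recursion for the coefficients of the exponential -/
lemma expser_rec (P : ℕ → L) (N : ℕ) (hch : ∀ k, 1 ≤ k → k ≤ N → (k : L) ≠ 0) (k : ℕ)
    (hk : k < N) : ((k + 1 : ℕ) : L) * (expser (logser P N) N).coeff (k + 1) =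
      ∑ a ∈ antidiagonal k, (-1) ^ a.1 * P (a.1 + 1) * (expser (logser P N) N).coeff a.2 := by
  have h := congrArg (fun q => q.coeff k) (derivative_expser (logser P N) N hch)
  simp only [coeff_derivative] at h
  rw [mul_comm] at h
  push_cast
  rw [h, coeff_mul]
  refine Finset.sum_congr rfl fun a ha => ?_
  rw [HasAntidiagonal.mem_antidiagonal] at ha
  rw [coeff_derivative_logser P N hch a.1 (by omega)]
  congr 1
  rw [coeff_sub, sub_eq_self, coeff_C_mul]
  obtain ⟨w, hw⟩ := X_dvd_logser P N
  have : (logser P N ^ N).coeff a.2 = 0 := by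
    rw [hw, mul_pow, mul_comm, coeff_mul_X_pow', if_neg (by omega)]
  rw [this, mul_zero]

theorem prod_eq_coeff_exp (N : ℕ) (y : Fin N → L) (hch : ∀ k, 1 ≤ k → k ≤ N → (k : L) ≠ 0)
    (P : ℕ → L) (hP : ∀ m, 1 ≤ m → m ≤ N → P m = ∑ i, y i ^ m) :
    (expser (logser P N) N).coeff N = ∏ i, y i := by
  have key : ∀ k ≤ N, (expser (logser P N) N).coeff k =
      MvPolynomial.aeval y (MvPolynomial.esymm (Fin N) L k) := by
    intro k
    induction k using Nat.strong_induction_on with
    | _ k ih =>
      intro hk
      rcases Nat.eq_zero_or_pos k with rfl | hk0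
      · rw [MvPolynomial.esymm_zero, map_one]
        unfold expser
        rw [sum_range_succ', coeff_add]
        have h0 : (∑ k ∈ range N, C (((k + 1).factorial : L)⁻¹) * logser P N ^ (k + 1)).coeff 0
            = 0 := by
          rw [finsetSum_coeff]
          refine Finset.sum_eq_zero fun j _ => ?_
          obtain ⟨w, hw⟩ := X_dvd_logser P N
          rw [coeff_C_mul, hw, mul_pow, mul_comm (X ^ (j + 1)), coeff_mul_X_pow',
            if_neg (by omega), mul_zero]
        rw [h0]; simp
      · obtain ⟨j, rfl⟩ : ∃ j, k = j + 1 := ⟨k - 1, by omega⟩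
        have hne := hch (j + 1) (by omega) hk
        apply mul_left_cancel₀ hne
        rw [expser_rec P N hch j (by omega)]
        have hN := congrArg (MvPolynomial.aeval y) (MvPolynomial.mul_esymm_eq_sum (Fin N) L (j + 1))
        simp only [map_mul, map_natCast, map_pow, map_neg, map_one, map_sum] at hN
        rw [hN]
        have e1 : (antidiagonal (j + 1)).filter (fun a => a.1 < j + 1) =
            (antidiagonal j).map ⟨fun a => (a.2, a.1 + 1), fun a b h => by
              simp only [Prod.mk.injEq] at h; ext <;> omega⟩ := by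
          ext ⟨a, b⟩
          simp only [mem_filter, HasAntidiagonal.mem_antidiagonal, mem_map, Function.Embedding.coeFn_mk,
            Prod.mk.injEq, Prod.exists]
          constructor
          · rintro ⟨h1, h2⟩
            exact ⟨b - 1, a, by omega, rfl, by omega⟩
          · rintro ⟨c, d, h1, h2, h3⟩
            omega
        rw [e1, Finset.sum_map, Finset.mul_sum]
        refine Finset.sum_congr rfl fun a ha => ?_
        rw [HasAntidiagonal.mem_antidiagonal] at ha
        simp only [Function.Embedding.coeFn_mk]
        rw [ih a.2 (by omega) (by omega), hP (a.1 + 1) (by omega) (by omega)]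
        have e2 : MvPolynomial.aeval y (MvPolynomial.psum (Fin N) L (a.1 + 1)) =
            ∑ i, y i ^ (a.1 + 1) := by
          simp [MvPolynomial.psum]
        rw [e2]
        have e3 : (-1 : L) ^ (j + 1 + 1) * (-1) ^ a.2 = (-1) ^ a.1 := by
          rw [← pow_add]
          have : j + 1 + 1 + a.2 = a.1 + 2 * (a.2 + 1) := by omega
          rw [this, pow_add, pow_mul]; norm_num
        rw [← e3]; ring
  rw [key N le_rfl, MvPolynomial.esymm]
  have : powersetCard N (univ : Finset (Fin N)) = {univ} := by
    have := Finset.powersetCard_self (univ : Finset (Fin N))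
    rwa [Finset.card_fin] at this
  rw [this, Finset.sum_singleton]
  simp

end

end RootCH
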