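import Pool.Agent.Work.MP_859ada_lc.CH.Alg

namespace RootCH

open Finset Polynomial

/-- sum of the absolute values of the coefficients -/
noncomputable def nrm (P : ℤ[X]) : ℕ := ∑ i ∈ P.support, (P.coeff i).natAbs

lemma nrm_eq_range {P : ℤ[X]} {n : ℕ} (h : P.natDegree < n) :
    nrm P = ∑ i ∈ range n, (P.coeff i).natAbs := by
  unfold nrm
  refine Finset.sum_subset (fun i hi => ?_) fun i _ hi => ?_
  · rw [mem_range]
    exact lt_of_le_of_lt (le_natDegree_of_mem_supp i hi) h
  · rw [notMem_support_iff.1 hi]; rfl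

lemma nrm_C (a : ℤ) : nrm (C a) = a.natAbs := by
  rw [nrm_eq_range (n := 1) (by simp)]; simp

lemma nrm_X : nrm X = 1 := by
  rw [nrm_eq_range (n := 2) (by rw [natDegree_X]; norm_num)]
  simp [Finset.sum_range_succ, coeff_X]

lemma nrm_add_le (P Q : ℤ[X]) : nrm (P + Q) ≤ nrm P + nrm Q := by
  set n := P.natDegree + Q.natDegree + 1 with hn
  have h1 : (P + Q).natDegree < n := by
    have := natDegree_add_le P Q; omega
  rw [nrm_eq_range h1, nrm_eq_range (P := P) (n := n) (by omega),
    nrm_eq_range (P := Q) (n := n) (by omega), ← Finset.sum_add_distrib]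
  refine Finset.sum_le_sum fun i _ => ?_
  rw [coeff_add]; exact Int.natAbs_add_le _ _

lemma nrm_neg (P : ℤ[X]) : nrm (-P) = nrm P := by
  unfold nrm; rw [support_neg]; simp

lemma nrm_sub_le (P Q : ℤ[X]) : nrm (P - Q) ≤ nrm P + nrm Q := by
  rw [sub_eq_add_neg, ← nrm_neg Q]; exact nrm_add_le _ _

lemma nrm_mul_le (P Q : ℤ[X]) : nrm (P * Q) ≤ nrm P * nrm Q := by
  classical
  set n := P.natDegree + Q.natDegree + 1 with hn
  have h1 : (P * Q).natDegree < n := by
    have := natDegree_mul_le (p := P) (q := Q); omega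
  rw [nrm_eq_range h1]
  calc ∑ i ∈ range n, ((P * Q).coeff i).natAbs
      ≤ ∑ i ∈ range n, ∑ x ∈ antidiagonal i, (P.coeff x.1).natAbs * (Q.coeff x.2).natAbs := by
        refine Finset.sum_le_sum fun i _ => ?_
        rw [coeff_mul]
        refine (Int.natAbs_sum_le _ _).trans (Finset.sum_le_sum fun x _ => ?_)
        rw [Int.natAbs_mul]
    _ ≤ ∑ x ∈ range n ×ˢ range n, (P.coeff x.1).natAbs * (Q.coeff x.2).natAbs := by
        rw [← Finset.sum_biUnion]
        · refine Finset.sum_le_sum_of_subset fun x hx => ?_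
          simp only [mem_biUnion, HasAntidiagonal.mem_antidiagonal, mem_range, mem_product] at hx ⊢
          obtain ⟨i, hi, h⟩ := hx
          omega
        · intro i _ j _ hij
          rw [Function.onFun, Finset.disjoint_left]
          intro x h1 h2
          rw [HasAntidiagonal.mem_antidiagonal] at h1 h2
          exact hij (h1.symm.trans h2)
    _ = nrm P * nrm Q := by
        rw [nrm_eq_range (P := P) (n := n) (by omega), nrm_eq_range (P := Q) (n := n) (by omega),
          Finset.sum_mul_sum, Finset.sum_product]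

lemma nrm_pow_le (P : ℤ[X]) (k : ℕ) : nrm (P ^ k) ≤ nrm P ^ k := by
  induction k with
  | zero => rw [pow_zero, pow_zero, ← C_1, nrm_C]; simp
  | succ k ih => rw [pow_succ, pow_succ]; exact (nrm_mul_le _ _).trans (Nat.mul_le_mul_right _ ih)

lemma one_le_nrm {P : ℤ[X]} (h : P ≠ 0) : 1 ≤ nrm P := by
  unfold nrm
  have h1 : P.natDegree ∈ P.support := natDegree_mem_support_of_nonzero h
  have h2 : 1 ≤ (P.coeff P.natDegree).natAbs := by
    have : P.coeff P.natDegree ≠ 0 := leadingCoeff_ne_zero.2 h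
    omega
  exact h2.trans (Finset.single_le_sum (f := fun i => (P.coeff i).natAbs) (fun _ _ => Nat.zero_le _) h1)

lemma natAbs_coeff_le (P : ℤ[X]) (i : ℕ) : (P.coeff i).natAbs ≤ nrm P := by
  by_cases h : i ∈ P.support
  · exact Finset.single_le_sum (f := fun i => (P.coeff i).natAbs) (fun _ _ => Nat.zero_le _) h
  · rw [notMem_support_iff.1 h]; simp

lemma norm_aeval_le (P : ℤ[X]) (z : ℂ) (R : ℝ) (hR : 1 ≤ R) (hz : ‖z‖ ≤ R) (n : ℕ)
    (hn : P.natDegree ≤ n) : ‖aeval z P‖ ≤ nrm P * R ^ n := by
  rw [aeval_eq_sum_range' (n := n + 1) (by omega), nrm_eq_range (n := n + 1) (by omega)]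
  refine (norm_sum_le _ _).trans ?_
  push_cast
  rw [Finset.sum_mul]
  refine Finset.sum_le_sum fun i hi => ?_
  rw [mem_range] at hi
  rw [zsmul_eq_mul, norm_mul, Complex.norm_intCast, norm_pow]
  refine mul_le_mul ?_ ?_ (by positivity) (by positivity)
  · simp
  · exact (pow_le_pow_left₀ (norm_nonneg _) hz i).trans (pow_le_pow_right₀ hR (by omega))

/-- roots are bounded by the norm -/
lemma norm_root_le (P : ℤ[X]) (hP : P ≠ 0) (z : ℂ) (hz : aeval z P = 0) : ‖z‖ ≤ nrm P := by
  have h1 : (1 : ℝ) ≤ nrm P := by exact_mod_cast one_le_nrm hP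
  rcases le_or_gt ‖z‖ 1 with h | h
  · exact h.trans h1
  · have hz0 : 0 < ‖z‖ := by linarith
    set n := P.natDegree with hn
    have h2 : aeval z P = ∑ i ∈ range n, P.coeff i • z ^ i + P.coeff n • z ^ n := by
      rw [aeval_eq_sum_range, Finset.sum_range_succ]
    rw [h2] at hz
    have h3 : P.coeff n • z ^ n = -∑ i ∈ range n, P.coeff i • z ^ i := by
      rw [eq_neg_iff_add_eq_zero, add_comm]; exact hz
    have hlc : (1 : ℝ) ≤ |(P.coeff n : ℝ)| := by
      have : (1 : ℤ) ≤ |P.coeff n| := Int.one_le_abs (leadingCoeff_ne_zero.2 hP)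
      exact_mod_cast this
    have hn0 : n ≠ 0 := by
      intro h0
      rw [h0] at h3
      simp only [range_zero, sum_empty, neg_zero, pow_zero, zsmul_eq_mul, mul_one] at h3
      rw [h0] at hlc
      have : P.coeff 0 = 0 := by exact_mod_cast h3
      rw [this] at hlc
      simp at hlc
      linarith
    have h4 : ‖z‖ ^ n ≤ nrm P * ‖z‖ ^ (n - 1) := by
      calc ‖z‖ ^ n ≤ |(P.coeff n : ℝ)| * ‖z‖ ^ n := le_mul_of_one_le_left (by positivity) hlc
        _ = ‖P.coeff n • z ^ n‖ := by
            rw [zsmul_eq_mul, norm_mul, Complex.norm_intCast, norm_pow]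
        _ = ‖∑ i ∈ range n, P.coeff i • z ^ i‖ := by rw [h3, norm_neg]
        _ ≤ ∑ i ∈ range n, ‖P.coeff i • z ^ i‖ := norm_sum_le _ _
        _ ≤ ∑ i ∈ range n, ((P.coeff i).natAbs : ℝ) * ‖z‖ ^ (n - 1) := by
            refine Finset.sum_le_sum fun i hi => ?_
            rw [mem_range] at hi
            rw [zsmul_eq_mul, norm_mul, Complex.norm_intCast, norm_pow]
            refine mul_le_mul (by simp) (pow_le_pow_right₀ h.le (by omega)) (by positivity)
              (by positivity)
        _ = (∑ i ∈ range n, (P.coeff i).natAbs : ℕ) * ‖z‖ ^ (n - 1) := by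
            push_cast; rw [Finset.sum_mul]
        _ ≤ nrm P * ‖z‖ ^ (n - 1) := by
            refine mul_le_mul_of_nonneg_right ?_ (by positivity)
            rw [nrm_eq_range (n := n + 1) (by omega), Finset.sum_range_succ]
            push_cast
            have : (0 : ℝ) ≤ ((P.coeff n).natAbs : ℝ) := by positivity
            linarith
    have h5 : ‖z‖ ^ n = ‖z‖ * ‖z‖ ^ (n - 1) := by
      rw [← pow_succ']; congr 1; omega
    rw [h5] at h4
    exact le_of_mul_le_mul_right h4 (by positivity)

lemma nrm_hasseDeriv_le (P : ℤ[X]) (k : ℕ) : nrm (hasseDeriv k P) ≤ 2 ^ P.natDegree * nrm P := by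
  have h1 : (hasseDeriv k P).natDegree < P.natDegree + 1 := by
    have := natDegree_hasseDeriv_le P k; omega
  rw [nrm_eq_range h1]
  have h2 : nrm P = ∑ i ∈ range (P.natDegree + 1 + k), (P.coeff i).natAbs :=
    nrm_eq_range (by omega)
  rw [h2, Finset.mul_sum]
  calc ∑ i ∈ range (P.natDegree + 1), ((hasseDeriv k P).coeff i).natAbs
      ≤ ∑ i ∈ range (P.natDegree + 1), 2 ^ P.natDegree * (P.coeff (i + k)).natAbs := by
        refine Finset.sum_le_sum fun i _ => ?_
        rw [hasseDeriv_coeff, Int.natAbs_mul, Int.natAbs_natCast]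
        rcases le_or_gt (i + k) P.natDegree with h | h
        · refine Nat.mul_le_mul_right _ ?_
          calc (i + k).choose k ≤ 2 ^ (i + k) := Nat.choose_le_two_pow _ _
            _ ≤ 2 ^ P.natDegree := Nat.pow_le_pow_right (by norm_num) h
        · rw [coeff_eq_zero_of_natDegree_lt h]; simp
    _ ≤ _ := by
        rw [← Finset.sum_image (f := fun i => 2 ^ P.natDegree * (P.coeff i).natAbs)
          (g := fun i => i + k)]
        · refine Finset.sum_le_sum_of_subset fun x hx => ?_
          simp only [mem_image, mem_range] at hx ⊢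
          omega
        · intro a _ b _ h; simpa using h

end RootCH
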