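import Pool.Agent.Work.MP_859ada_lc.CH.Resid2

namespace RootCH

open Finset Polynomial

lemma norm_prod_le_pow (s : Multiset ℂ) (h : ℂ → ℂ) (G : ℝ) (hG : 0 ≤ G)
    (hb : ∀ z ∈ s, ‖h z‖ ≤ G) : ‖(s.map h).prod‖ ≤ G ^ Multiset.card s := by
  induction s using Multiset.induction_on with
  | empty => simp
  | cons a s ih =>
    rw [Multiset.map_cons, Multiset.prod_cons, Multiset.card_cons, norm_mul, pow_succ']
    exact mul_le_mul (hb a (Multiset.mem_cons_self a s))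
      (ih fun z hz => hb z (Multiset.mem_cons_of_mem hz)) (norm_nonneg _) hG

/-- a bound for the resultant with a monic polynomial -/
lemma res_abs_le (F g : ℤ[X]) (hF : F.Monic) (n : ℕ) (hn : g.natDegree ≤ n) (G : ℝ) (hG : 0 ≤ G)
    (h : ∀ z : ℂ, aeval z F = 0 → ‖aeval z g‖ ≤ G) :
    |((resultant F g F.natDegree n : ℤ) : ℝ)| ≤ G ^ F.natDegree := by
  have hmap := resultant_map_map F g F.natDegree n (Int.castRingHom ℂ)
  have hd : (F.map (Int.castRingHom ℂ)).natDegree = F.natDegree := hF.natDegree_map _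
  have h1 := resultant_eq_prod_eval (F.map (Int.castRingHom ℂ)) (g.map (Int.castRingHom ℂ)) n
    (natDegree_map_le.trans hn) (IsAlgClosed.splits _)
  rw [hd, hmap, (hF.map (Int.castRingHom ℂ)).leadingCoeff, one_pow, one_mul] at h1
  have heval : ∀ (z : ℂ) (r : ℤ[X]), (r.map (Int.castRingHom ℂ)).eval z = aeval z r := by
    intro z r
    have : Int.castRingHom ℂ = algebraMap ℤ ℂ := rfl
    rw [this, eval_map_algebraMap]
  have h2 : |((resultant F g F.natDegree n : ℤ) : ℝ)| =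
      ‖(Int.castRingHom ℂ) (resultant F g F.natDegree n)‖ := by
    rw [eq_intCast, Complex.norm_intCast]
  rw [h2, h1]
  refine (norm_prod_le_pow _ _ G hG fun z hz => ?_).trans ?_
  · rw [heval]
    refine h z ?_
    rw [← heval]; exact isRoot_of_mem_roots hz
  · rw [← (IsAlgClosed.splits (F.map (Int.castRingHom ℂ))).natDegree_eq_card_roots, hd]

lemma le_two_pow_of (q : ℕ) : (q : ℝ) + 1 ≤ 2 ^ q := by
  exact_mod_cast Nat.lt_two_pow_self (n := q)

lemma term_bound (E a : ℕ) (m : ℤ) (D : ℂ) (hD : ‖D‖ ≤ 2 ^ E) (ha : a ≤ 8 * E)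
    (hm : |(m : ℝ)| ≤ 2 ^ E) : ‖((2 : ℂ) ^ a * D - (m : ℂ) * 2 ^ E) ^ 2‖ ≤ 2 ^ (18 * E + 2) := by
  have h3 : ‖(2 : ℂ)‖ = 2 := by simp
  have h2 : ‖(2 : ℂ) ^ a * D‖ ≤ 2 ^ (9 * E) := by
    rw [norm_mul, norm_pow, h3]
    calc (2 : ℝ) ^ a * ‖D‖ ≤ 2 ^ (8 * E) * 2 ^ E :=
          mul_le_mul (pow_le_pow_right₀ (by norm_num) ha) hD (norm_nonneg _) (by positivity)
      _ = 2 ^ (9 * E) := by rw [← pow_add]; congr 1; ring
  have h4 : ‖(m : ℂ) * 2 ^ E‖ ≤ 2 ^ (9 * E) := by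
    rw [norm_mul, Complex.norm_intCast, norm_pow, h3]
    calc |(m : ℝ)| * 2 ^ E ≤ 2 ^ E * 2 ^ E := mul_le_mul_of_nonneg_right hm (by positivity)
      _ = 2 ^ (2 * E) := by rw [← pow_add]; congr 1; ring
      _ ≤ 2 ^ (9 * E) := pow_le_pow_right₀ (by norm_num) (by omega)
  rw [norm_pow]
  have h9 := (norm_sub_le _ _).trans (add_le_add h2 h4)
  calc _ ≤ ((2 : ℝ) ^ (9 * E) + 2 ^ (9 * E)) ^ 2 := pow_le_pow_left₀ (norm_nonneg _) h9 2
    _ = 2 ^ (18 * E + 2) := by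
      rw [← two_mul, mul_pow, ← pow_mul, ← pow_add]; congr 1; ring

lemma gpoly_bound (F : ℤ[X]) (z : ℂ) (E : ℕ) (l : List (ℕ × ℕ × ℤ)) (c : ℤ)
    (hD : ∀ k, ‖aeval z (hasseDeriv k F)‖ ≤ 2 ^ E)
    (hl : ∀ t ∈ l, t.2.1 ≤ 8 * E ∧ |(t.2.2 : ℝ)| ≤ 2 ^ E) :
    ‖aeval z (gpoly F E l c)‖ ≤ l.length * 2 ^ (18 * E + 2) + |(c : ℝ)| := by
  have heval : ∀ (r : ℤ[X]), (r.map (Int.castRingHom ℂ)).eval z = aeval z r := by
    intro r
    have : Int.castRingHom ℂ = algebraMap ℤ ℂ := rfl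
    rw [this, eval_map_algebraMap]
  rw [← heval, map_gpoly, eval_gpoly]
  refine (norm_sub_le _ _).trans (add_le_add ?_ ?_)
  · induction l with
    | nil => simp
    | cons t l ih =>
      rw [List.map_cons, List.sum_cons, List.length_cons]
      have h1 := hl t List.mem_cons_self
      have h2 := term_bound E t.2.1 t.2.2 ((hasseDeriv t.1 (F.map (Int.castRingHom ℂ))).eval z)
        (by rw [← map_hasseDeriv, heval]; exact hD _) h1.1 h1.2
      have h3 := ih fun t ht => hl t (List.mem_cons_of_mem _ ht)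
      refine (norm_add_le _ _).trans ((add_le_add h2 h3).trans (le_of_eq ?_))
      push_cast
      ring
  · rw [eq_intCast, Complex.norm_intCast]

/-- size of the exponent -/
def bits (u q j : ℕ) : ℕ := (18 * bigE (Nat.size u - 1) + q + j + 8) * NN u

lemma final_bound (E q j : ℕ) : (q : ℝ) * 2 ^ (18 * E + 2) + (((q : ℝ) + 1) * 2 ^ (2 * E) + j) ≤
    2 ^ (18 * E + q + j + 4) := by
  have h6 := le_two_pow_of q
  have h7 := le_two_pow_of j
  have h8 : (1 : ℝ) ≤ 2 ^ j := one_le_pow₀ (by norm_num)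
  have h9 : (1 : ℝ) ≤ 2 ^ q := one_le_pow₀ (by norm_num)
  have h10 : (1 : ℝ) ≤ 2 ^ (18 * E + 2) := one_le_pow₀ (by norm_num)
  have h4 : (2 : ℝ) ^ (2 * E) ≤ 2 ^ (18 * E + 2) := pow_le_pow_right₀ (by norm_num) (by omega)
  have e1 : (2 : ℝ) ^ (18 * E + q + j + 4) = 2 ^ (18 * E + 2) * (2 ^ q * (2 ^ j * 4)) := by
    rw [show 18 * E + q + j + 4 = (18 * E + 2) + (q + (j + 2)) by ring, pow_add, pow_add 2 q,
      pow_add 2 j]
    norm_num
  rw [e1]
  have h5 : (0 : ℝ) ≤ (q : ℝ) + 1 := by positivity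
  have h12 := mul_le_mul_of_nonneg_left h4 h5
  generalize (2 : ℝ) ^ (18 * E + 2) = Z at *
  generalize (2 : ℝ) ^ (2 * E) = Y at *
  generalize (2 : ℝ) ^ q = Q at *
  generalize (2 : ℝ) ^ j = J at *
  have hj0 : (0 : ℝ) ≤ j := by positivity
  have h11 : (q : ℝ) + ((q : ℝ) + 1) + j ≤ Q * (J * 4) := by
    nlinarith [mul_nonneg (sub_nonneg.2 h9) (sub_nonneg.2 h8)]
  have h13 : (j : ℝ) ≤ Z * j := le_mul_of_one_le_left hj0 h10
  calc (q : ℝ) * Z + (((q : ℝ) + 1) * Y + j)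
      ≤ Z * ((q : ℝ) + ((q : ℝ) + 1) + j) := by linarith
    _ ≤ _ := mul_le_mul_of_nonneg_left h11 (by linarith)

lemma add_three_le_two_pow (n : ℕ) (hn : 3 ≤ n) : n + 3 ≤ 2 ^ n := by
  induction n, hn using Nat.le_induction with
  | base => norm_num
  | succ n hn ih => rw [pow_succ]; omega

lemma eight_bigE_le (L : ℕ) : 8 * bigE L ≤ 2 ^ bigE L := by
  have h1 : 8 * bigE L = 2 ^ (5 * L + 14) := by
    rw [bigE, show 5 * L + 14 = (5 * L + 11) + 3 by ring, pow_add 2 (5 * L + 11) 3]; ring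
  rw [h1]
  refine Nat.pow_le_pow_right (by norm_num) ?_
  rw [bigE]
  exact add_three_le_two_pow (5 * L + 11) (by omega)

lemma lst_bound (u q K A S : ℕ) : ∀ t ∈ lst u q K A S, t.2.1 ≤ 8 * bigE (Nat.size u - 1) ∧
    |(t.2.2 : ℝ)| ≤ 2 ^ bigE (Nat.size u - 1) := by
  intro t ht
  unfold lst at ht
  rw [List.mem_map] at ht
  obtain ⟨i, _, rfl⟩ := ht
  have hW : 2 ^ ww u = 8 * bigE (Nat.size u - 1) := by
    rw [ww, bigE, show 5 * (Nat.size u - 1) + 14 = (5 * (Nat.size u - 1) + 11) + 3 by ring,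
      pow_add 2 _ 3]; ring
  have h8 := eight_bigE_le (Nat.size u - 1)
  have hL8 : 2 * (Nat.size u - 1 + 4) ≤ 8 * bigE (Nat.size u - 1) := by
    have h1 : Nat.size u - 1 + 4 ≤ 2 ^ (Nat.size u - 1 + 4) := Nat.lt_two_pow_self.le
    have h2 : 2 ^ (Nat.size u - 1 + 4) ≤ bigE (Nat.size u - 1) :=
      Nat.pow_le_pow_right (by norm_num) (by omega)
    omega
  have ha : dig (ww u) A i < 2 ^ ww u := dig_lt _ _ _
  have hs : dig (ww u) S i < 2 ^ ww u := dig_lt _ _ _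
  rw [hW] at ha hs
  generalize bigE (Nat.size u - 1) = E at *
  generalize dig (ww u) A i = a at *
  generalize dig (ww u) S i = s at *
  generalize 2 * (Nat.size u - 1 + 4) = r at *
  refine ⟨ha.le, ?_⟩
  have h6 : (s : ℝ) ≤ ((2 ^ E : ℕ) : ℝ) := by exact_mod_cast hs.le.trans h8
  have h7 : (r : ℝ) ≤ ((2 ^ E : ℕ) : ℝ) := by exact_mod_cast hL8.trans h8
  push_cast at h6 h7 ⊢
  have h9 : (0 : ℝ) ≤ s := by positivity
  have h10 : (0 : ℝ) ≤ r := by positivity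
  rw [abs_le]
  constructor <;> linarith

theorem resC_lt (u c q K A S j : ℕ) : |resC u c q K A S j| < 2 ^ bits u q j := by
  have hdeg := natDegree_pol_le u c
  have hn := nrm_pol_le u c
  have hm := Fp_monic hdeg
  have hN : (Fp (pol u c) (Nat.size u - 1)).natDegree = NN u := Fp_natDegree hdeg
  have hterm : ∀ z : ℂ, aeval z (Fp (pol u c) (Nat.size u - 1)) = 0 →
      ‖aeval z (tp u c q K A S j)‖ ≤ 2 ^ (18 * bigE (Nat.size u - 1) + q + j + 4) := by
    intro z hz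
    refine (gpoly_bound _ z _ _ _ (fun k => derivs_upper hdeg hn k z hz)
      (lst_bound u q K A S)).trans ?_
    refine le_trans (le_of_eq ?_) (final_bound (bigE (Nat.size u - 1)) q j)
    have h1 : (lst u q K A S).length = q := by unfold lst; simp
    rw [h1]
    congr 1
    have h3 : (0 : ℤ) ≤ cst u q j := by unfold cst; positivity
    rw [← Int.cast_abs, abs_of_nonneg h3]
    unfold cst
    push_cast
    ring
  have hfin := res_abs_le (Fp (pol u c) (Nat.size u - 1)) (tp u c q K A S j) hm (2 * NN u) (by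
    unfold tp
    refine (natDegree_gpoly_le _ _ _ _).trans ?_
    rw [hN]) (2 ^ (18 * bigE (Nat.size u - 1) + q + j + 4)) (by positivity) hterm
  rw [hN, ← pow_mul] at hfin
  have hlt : (2 : ℝ) ^ ((18 * bigE (Nat.size u - 1) + q + j + 4) * NN u) < 2 ^ bits u q j := by
    refine pow_lt_pow_right₀ (by norm_num) ?_
    unfold bits
    exact Nat.mul_lt_mul_of_pos_right (by omega) (one_le_NN u)
  have := hfin.trans_lt hlt
  unfold resC
  exact_mod_cast this

end RootCH
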