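import Pool.Agent.Work.MP_859ada_lc.CH.Eval
import Pool.Agent.Work.MP_859ada_lc.CH.Gap
import Pool.Agent.Work.MP_859ada_lc.CH.ModRes

namespace RootCH

open Finset Polynomial

/-- the degree of `F` -/
def NN (u : ℕ) : ℕ := 2 ^ (Nat.size u - 1 + 2)

lemma Fn.NN {U : (ℕ → ℕ) → ℕ} (hU : Fn U) : Fn fun v => RootCH.NN (U v) :=
  (hU.len.add (Fn.const 2)).two_pow ((PolyB.len hU).add (PolyB.const 2))

lemma Fn.bigM {U : (ℕ → ℕ) → ℕ} (hU : Fn U) : Fn fun v => RootCH.bigM (Nat.size (U v) - 1) :=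
  (((Fn.const 3).mul hU.len).add (Fn.const 4)).two_pow
    (((PolyB.const 3).mul (PolyB.len hU)).add (PolyB.const 4))

lemma Fn.bigE {U : (ℕ → ℕ) → ℕ} (hU : Fn U) : Fn fun v => RootCH.bigE (Nat.size (U v) - 1) :=
  (((Fn.const 5).mul hU.len).add (Fn.const 11)).two_pow
    (((PolyB.const 5).mul (PolyB.len hU)).add (PolyB.const 11))

/-- the width of the digits in the certificates -/
def ww (u : ℕ) : ℕ := 5 * (Nat.size u - 1) + 14

lemma Fn.ww {U : (ℕ → ℕ) → ℕ} (hU : Fn U) : Fn fun v => RootCH.ww (U v) :=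
  ((Fn.const 5).mul hU.len).add (Fn.const 14)

lemma PolyB.ww {U : (ℕ → ℕ) → ℕ} (hU : Fn U) : PolyB fun v => RootCH.ww (U v) :=
  ((PolyB.const 5).mul (PolyB.len hU)).add (PolyB.const 14)

/-- `F a` modulo `p` -/
def evF (u c a p : ℕ) : ℕ :=
  md (md (a ^ NN u) p + md (2 ^ (3 * bigM (Nat.size u - 1))) p * (ev u c a p * ev u c a p) +
    (p - 1) * md (2 ^ bigM (Nat.size u - 1)) p) p

lemma Fn.evF {U C A P : (ℕ → ℕ) → ℕ} (hU : Fn U) (hC : Fn C) (hA : Fn A) (hP : Fn P) :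
    Fn fun v => RootCH.evF (U v) (C v) (A v) (P v) :=
  (((Fn.powM hA hU.NN hP).add ((Fn.powM (Fn.const 2) ((Fn.const 3).mul hU.bigM) hP).mul
    ((Fn.ev hU hC hA hP).mul (Fn.ev hU hC hA hP)))).add
    ((hP.sub Fn.one).mul (Fn.powM (Fn.const 2) hU.bigM hP))).md hP

/-- the polynomial `F` modulo `p` -/
noncomputable def Fq (u c p : ℕ) : (ZMod p)[X] :=
  (Fp (pol u c) (Nat.size u - 1)).map (Int.castRingHom (ZMod p))

lemma cast_evF {p : ℕ} (hp : p ≠ 0) (u c a : ℕ) :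
    ((evF u c a p : ℕ) : ZMod p) = (Fq u c p).eval (a : ZMod p) := by
  unfold evF Fq Fp NN
  rw [cast_md _ hp]
  push_cast
  rw [cast_md _ hp, cast_md _ hp, cast_md _ hp, cast_ev hp, cast_pred hp]
  simp only [Polynomial.map_sub, Polynomial.map_add, Polynomial.map_mul, Polynomial.map_pow,
    map_X, map_C, eval_sub, eval_add, eval_mul, eval_pow, eval_X, eval_C, map_pow, map_ofNat,
    eval_ofNat, Polynomial.map_ofNat]
  push_cast
  ring

lemma Fq_monic (u c p : ℕ) : (Fq u c p).Monic := (Fp_monic (natDegree_pol_le u c)).map _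

lemma Fq_natDegree (u c p : ℕ) [Nontrivial (ZMod p)] : (Fq u c p).natDegree = NN u := by
  unfold Fq
  rw [(Fp_monic (natDegree_pol_le u c)).natDegree_map, Fp_natDegree (natDegree_pol_le u c)]
  rfl

/-- Hasse derivatives of `F` modulo `p` -/
def evD (u c k a p : ℕ) : ℕ :=
  md ((p - 1) * sM (p - 1) p fun b => evF u c (a + (b + 1)) p * md ((b + 1) ^ (p - 1 - k)) p) p

lemma Fn.evD {U C K A P : (ℕ → ℕ) → ℕ} (hU : Fn U) (hC : Fn C) (hK : Fn K) (hA : Fn A)
    (hP : Fn P) : Fn fun v => RootCH.evD (U v) (C v) (K v) (A v) (P v) := by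
  unfold RootCH.evD
  refine ((hP.sub Fn.one).mul (Fn.sM (g := fun b v => RootCH.evF (U v) (C v) (A v + (b + 1)) (P v) *
    RootCH.md ((b + 1) ^ (P v - 1 - K v)) (P v)) (hP.sub Fn.one) hP ?_)).md hP
  exact (Fn.evF hU.shift hC.shift (hA.shift.add ((Fn.var 0).add Fn.one)) hP.shift).mul
    (Fn.powM ((Fn.var 0).add Fn.one) ((hP.shift.sub Fn.one).sub hK.shift) hP.shift)

lemma cast_evD {p : ℕ} [hp : Fact p.Prime] (u c k a : ℕ) (hk : k < p - 1)
    (hN : NN u < p - 1) :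
    ((evD u c k a p : ℕ) : ZMod p) = (hasseDeriv k (Fq u c p)).eval (a : ZMod p) := by
  have hp0 : p ≠ 0 := hp.out.ne_zero
  unfold evD
  rw [cast_md _ hp0]
  push_cast
  rw [cast_pred hp0, cast_sM hp0, hasse_eq_sum p (Fq u c p) (by rw [Fq_natDegree]; exact hN) k hk]
  rw [neg_one_mul]
  congr 1
  refine Finset.sum_congr rfl fun b _ => ?_
  push_cast
  rw [cast_evF hp0, cast_md _ hp0]
  push_cast
  rfl

/-- the list coded by the certificate -/
def lst (u q K A S : ℕ) : List (ℕ × ℕ × ℤ) :=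
  (List.range q).map fun i => (dig (ww u) K i, dig (ww u) A i,
    (dig (ww u) S i : ℤ) - (2 * (Nat.size u - 1 + 4) : ℕ))

/-- the constant coded by the certificate -/
def cst (u q j : ℕ) : ℤ := (q + 1) * 2 ^ (2 * bigE (Nat.size u - 1)) + j

/-- the test polynomial of a certificate -/
noncomputable def tp (u c q K A S j : ℕ) : ℤ[X] :=
  gpoly (Fp (pol u c) (Nat.size u - 1)) (bigE (Nat.size u - 1)) (lst u q K A S) (cst u q j)

/-- one term of the test polynomial modulo `p` -/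
def evH (u c K A S i a p : ℕ) : ℕ :=
  md (md (2 ^ dig (ww u) A i) p * evD u c (dig (ww u) K i) a p +
    (p - 1) * (dig (ww u) S i * md (2 ^ bigE (Nat.size u - 1)) p) +
    2 * (Nat.size u - 1 + 4) * md (2 ^ bigE (Nat.size u - 1)) p) p

lemma Fn.evH {U C K A S I X P : (ℕ → ℕ) → ℕ} (hU : Fn U) (hC : Fn C) (hK : Fn K) (hA : Fn A)
    (hS : Fn S) (hI : Fn I) (hX : Fn X) (hP : Fn P) :
    Fn fun v => RootCH.evH (U v) (C v) (K v) (A v) (S v) (I v) (X v) (P v) := by
  unfold RootCH.evH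
  have dA := Fn.dig' hU.ww hA hI (PolyB.ww hU)
  have dK := Fn.dig' hU.ww hK hI (PolyB.ww hU)
  have dS := Fn.dig' hU.ww hS hI (PolyB.ww hU)
  have hE := Fn.powM (Fn.const 2) hU.bigE hP
  exact ((((Fn.powM (Fn.const 2) dA hP).mul (Fn.evD hU hC dK hX hP)).add
    ((hP.sub Fn.one).mul (dS.mul hE))).add (((Fn.const 2).mul (hU.len.add (Fn.const 4))).mul
      hE)).md hP

/-- the test polynomial modulo `p` -/
def evG (u c q K A S j a p : ℕ) : ℕ :=
  md (sM q p (fun i => evH u c K A S i a p * evH u c K A S i a p) +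
    (p - 1) * ((q + 1) * md (2 ^ (2 * bigE (Nat.size u - 1))) p + j)) p

lemma Fn.evG {U C Q K A S J X P : (ℕ → ℕ) → ℕ} (hU : Fn U) (hC : Fn C) (hQ : Fn Q) (hK : Fn K)
    (hA : Fn A) (hS : Fn S) (hJ : Fn J) (hX : Fn X) (hP : Fn P) :
    Fn fun v => RootCH.evG (U v) (C v) (Q v) (K v) (A v) (S v) (J v) (X v) (P v) := by
  unfold RootCH.evG
  refine ((Fn.sM (g := fun i v => RootCH.evH (U v) (C v) (K v) (A v) (S v) i (X v) (P v) *
    RootCH.evH (U v) (C v) (K v) (A v) (S v) i (X v) (P v)) hQ hP ?_).add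
    ((hP.sub Fn.one).mul (((hQ.add Fn.one).mul (Fn.powM (Fn.const 2)
      ((Fn.const 2).mul hU.bigE) hP)).add hJ))).md hP
  have h := Fn.evH hU.shift hC.shift hK.shift hA.shift hS.shift (Fn.var 0) hX.shift hP.shift
  exact h.mul h

lemma sum_map_range {M : Type*} [AddCommMonoid M] (n : ℕ) (f : ℕ → M) :
    ((List.range n).map f).sum = ∑ i ∈ range n, f i := by
  induction n with
  | zero => simp
  | succ n ih => rw [List.range_succ, List.map_append, List.sum_append, ih, sum_range_succ]; simp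

lemma cast_evG {p : ℕ} [hp : Fact p.Prime] (u c q K A S j a : ℕ) (hk : 2 ^ ww u < p)
    (hN : NN u < p - 1) :
    ((evG u c q K A S j a p : ℕ) : ZMod p) =
      ((tp u c q K A S j).map (Int.castRingHom (ZMod p))).eval (a : ZMod p) := by
  have hp0 : p ≠ 0 := hp.out.ne_zero
  unfold evG tp
  rw [map_gpoly, eval_gpoly, cast_md _ hp0]
  push_cast
  rw [cast_sM hp0, cast_pred hp0, cast_md _ hp0]
  unfold lst cst
  rw [List.map_map, sum_map_range, sub_eq_add_neg]
  congr 1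
  · refine Finset.sum_congr rfl fun i _ => ?_
    simp only [Function.comp]
    have h1 : dig (ww u) K i < p - 1 := by
      have := dig_lt (ww u) K i; omega
    unfold evH
    push_cast
    rw [cast_md _ hp0]
    push_cast
    rw [cast_md _ hp0, cast_md _ hp0, cast_pred hp0, cast_evD _ _ _ _ h1 hN]
    unfold Fq
    push_cast
    ring
  · push_cast
    simp

end RootCH
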