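import Pool.Agent.Work.MP_859ada_lc.CH.Resid

namespace RootCH

open Finset Polynomial

/-- truncated geometric sum modulo `p` -/
def evGeo (u c M a p : ℕ) : ℕ :=
  sM (M + 1) p fun k => md ((md (md (a ^ NN u) p + (p - 1) * evF u c a p) p) ^ k) p *
    md (a ^ (NN u * (M - k))) p

lemma Fn.evGeo {U C M A P : (ℕ → ℕ) → ℕ} (hU : Fn U) (hC : Fn C) (hM : Fn M) (hA : Fn A)
    (hP : Fn P) : Fn fun v => RootCH.evGeo (U v) (C v) (M v) (A v) (P v) := by
  unfold RootCH.evGeo
  refine Fn.sM (g := fun k v => RootCH.md ((RootCH.md (RootCH.md (A v ^ RootCH.NN (U v)) (P v) +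
    (P v - 1) * RootCH.evF (U v) (C v) (A v) (P v)) (P v)) ^ k) (P v) *
    RootCH.md (A v ^ (RootCH.NN (U v) * (M v - k))) (P v)) (hM.add Fn.one) hP ?_
  have hU1 := hU.shift
  have hC1 := hC.shift
  have hM1 := hM.shift
  have hA1 := hA.shift
  have hP1 := hP.shift
  exact (Fn.powM (((Fn.powM hA1 hU1.NN hP1).add ((hP1.sub Fn.one).mul
    (Fn.evF hU1 hC1 hA1 hP1))).md hP1) (Fn.var 0) hP1).mul
    (Fn.powM hA1 (hU1.NN.mul (hM1.sub (Fn.var 0))) hP1)

lemma cast_evGeo {p : ℕ} (hp : p ≠ 0) (u c M a : ℕ) :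
    ((evGeo u c M a p : ℕ) : ZMod p) = (geo (Fq u c p) (NN u) M).eval (a : ZMod p) := by
  unfold evGeo geo
  rw [cast_sM hp, eval_finsetSum]
  refine Finset.sum_congr rfl fun k _ => ?_
  push_cast
  rw [cast_md _ hp, cast_md _ hp]
  push_cast
  rw [cast_md _ hp]
  push_cast
  rw [cast_md _ hp, cast_pred hp, cast_evF hp]
  simp only [eval_mul, eval_pow, eval_sub, eval_X]
  push_cast
  rw [← pow_mul]
  ring

lemma natDegree_geo_le {K : Type*} [CommRing K] (F : K[X]) (N M : ℕ)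
    (hF : F.natDegree ≤ N) : (geo F N M).natDegree ≤ N * M := by
  unfold geo
  refine natDegree_sum_le_of_forall_le _ _ fun k hk => ?_
  rw [mem_range] at hk
  refine natDegree_mul_le.trans ?_
  have h1 : ((X ^ N - F) ^ k).natDegree ≤ k * N := by
    refine natDegree_pow_le.trans (Nat.mul_le_mul_left _ ?_)
    exact (natDegree_sub_le _ _).trans (max_le (natDegree_X_pow_le _) hF)
  have h2 : ((X ^ N : K[X]) ^ (M - k)).natDegree ≤ (M - k) * N :=
    natDegree_pow_le.trans (Nat.mul_le_mul_left _ (natDegree_X_pow_le _))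
  have h3 : k * N + (M - k) * N = N * M := by
    rw [← add_mul, mul_comm N]; congr 1; omega
  omega

/-- the power sums modulo `p` -/
def evP (u c q K A S j m p : ℕ) : ℕ :=
  md ((p - 1) * sM (p - 1) p fun b => md (evG u c q K A S j (b + 1) p ^ m) p *
    evD u c 1 (b + 1) p * evGeo u c (2 * NN u * m) (b + 1) p *
      md ((b + 1) ^ (p - 1 - (NN u * (2 * NN u * m + 1) - 1))) p) p

lemma Fn.evP {U C Q K A S J M P : (ℕ → ℕ) → ℕ} (hU : Fn U) (hC : Fn C) (hQ : Fn Q) (hK : Fn K)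
    (hA : Fn A) (hS : Fn S) (hJ : Fn J) (hM : Fn M) (hP : Fn P) :
    Fn fun v => RootCH.evP (U v) (C v) (Q v) (K v) (A v) (S v) (J v) (M v) (P v) := by
  unfold RootCH.evP
  refine ((hP.sub Fn.one).mul (Fn.sM (g := fun b v =>
    RootCH.md (RootCH.evG (U v) (C v) (Q v) (K v) (A v) (S v) (J v) (b + 1) (P v) ^ M v) (P v) *
    RootCH.evD (U v) (C v) 1 (b + 1) (P v) *
    RootCH.evGeo (U v) (C v) (2 * RootCH.NN (U v) * M v) (b + 1) (P v) *
    RootCH.md ((b + 1) ^ (P v - 1 - (RootCH.NN (U v) * (2 * RootCH.NN (U v) * M v + 1) - 1)))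
      (P v)) (hP.sub Fn.one) hP ?_)).md hP
  have hU1 := hU.shift
  have hC1 := hC.shift
  have hM1 := hM.shift
  have hP1 := hP.shift
  have hb : Fn fun v => v 0 + 1 := (Fn.var 0).add Fn.one
  have hNM : Fn fun v => 2 * RootCH.NN (U (tail v)) * M (tail v) :=
    ((Fn.const 2).mul hU1.NN).mul hM1
  exact (((Fn.powM (Fn.evG hU1 hC1 hQ.shift hK.shift hA.shift hS.shift hJ.shift hb hP1) hM1
    hP1).mul (Fn.evD hU1 hC1 Fn.one hb hP1)).mul (Fn.evGeo hU1 hC1 hNM hb hP1)).mul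
    (Fn.powM hb ((hP1.sub Fn.one).sub ((hU1.NN.mul (hNM.add Fn.one)).sub Fn.one)) hP1)

/-- the test polynomial modulo `p` -/
noncomputable def Gq (u c q K A S j p : ℕ) : (ZMod p)[X] :=
  (tp u c q K A S j).map (Int.castRingHom (ZMod p))

lemma Gq_natDegree_le (u c q K A S j p : ℕ) : (Gq u c q K A S j p).natDegree ≤ 2 * NN u := by
  unfold Gq
  refine natDegree_map_le.trans ((natDegree_gpoly_le _ _ _ _).trans ?_)
  rw [Fp_natDegree (natDegree_pol_le u c)]
  exact le_rfl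

lemma one_le_NN (u : ℕ) : 1 ≤ NN u := Nat.one_le_two_pow

lemma cube_bound (N m : ℕ) (hN : 1 ≤ N) (hm : m ≤ N) :
    m * (2 * N) + N + N * (2 * N * m) ≤ 5 * N ^ 3 := by
  have h1 : m * (2 * N) ≤ 2 * N ^ 3 := by
    calc m * (2 * N) ≤ N * (2 * N) := Nat.mul_le_mul_right _ hm
      _ = 2 * N ^ 2 := by ring
      _ ≤ 2 * N ^ 3 := Nat.mul_le_mul_left _ (Nat.pow_le_pow_right hN (by norm_num))
  have h2 : N ≤ N ^ 3 := Nat.le_self_pow (by norm_num) N
  have h3 : N * (2 * N * m) ≤ 2 * N ^ 3 := by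
    calc N * (2 * N * m) ≤ N * (2 * N * N) := Nat.mul_le_mul_left _ (Nat.mul_le_mul_left _ hm)
      _ = 2 * N ^ 3 := by ring
  omega

lemma cast_evP {p : ℕ} [hp : Fact p.Prime] (u c q K A S j m : ℕ) (hk : 2 ^ ww u < p)
    (hN : 5 * NN u ^ 3 < p - 1) (hm : m ≤ NN u) :
    ((evP u c q K A S j m p : ℕ) : ZMod p) =
      psum (Fq u c p) (Gq u c q K A S j p) (NN u) m := by
  have hp0 : p ≠ 0 := hp.out.ne_zero
  have hN1 := one_le_NN u
  have hcb := cube_bound (NN u) m hN1 hm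
  have hNp : NN u < p - 1 := by omega
  unfold psum
  rw [coeff_eq_sum p]
  · unfold evP
    rw [cast_md _ hp0]
    push_cast
    rw [cast_pred hp0, cast_sM hp0, neg_one_mul]
    congr 1
    refine Finset.sum_congr rfl fun b _ => ?_
    push_cast
    rw [cast_md _ hp0, cast_md _ hp0, cast_evGeo hp0]
    push_cast
    rw [cast_evG u c q K A S j (b + 1) hk hNp, cast_evD u c 1 (b + 1) (by omega) hNp]
    simp only [eval_mul, eval_pow, hasseDeriv_one, Gq]
    push_cast
    rfl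
  · have h1 : (Gq u c q K A S j p ^ m).natDegree ≤ m * (2 * NN u) :=
      natDegree_pow_le.trans (Nat.mul_le_mul_left _ (Gq_natDegree_le u c q K A S j p))
    have h2 : (derivative (Fq u c p)).natDegree ≤ NN u := by
      refine (natDegree_derivative_le _).trans ?_
      rw [Fq_natDegree]; omega
    have h3 := natDegree_geo_le (Fq u c p) (NN u) (2 * NN u * m) (by rw [Fq_natDegree])
    have h4 := natDegree_mul_le (p := Gq u c q K A S j p ^ m * derivative (Fq u c p))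
      (q := geo (Fq u c p) (NN u) (2 * NN u * m))
    have h5 := natDegree_mul_le (p := Gq u c q K A S j p ^ m) (q := derivative (Fq u c p))
    omega
  · have : NN u * (2 * NN u * m + 1) - 1 ≤ NN u * (2 * NN u * m) + NN u := by
      rw [mul_add, mul_one]; omega
    omega

/-- factorial modulo `p` -/
def fac (k p : ℕ) : ℕ := if p.Prime then md (∏ i ∈ range k, (i + 1)) p else 0

lemma Fn.fac {K P : (ℕ → ℕ) → ℕ} (hK : Fn K) (hP : Fn P) :
    Fn fun v => RootCH.fac (K v) (P v) := by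
  unfold RootCH.fac
  exact Fn.prodMod (g := fun i _ => i + 1) hK hP ((Fn.var 0).add Fn.one)

lemma cast_fac {p : ℕ} (hp : p.Prime) (k : ℕ) :
    ((fac k p : ℕ) : ZMod p) = ((k.factorial : ℕ) : ZMod p) := by
  unfold fac
  rw [if_pos hp, cast_md _ hp.ne_zero, Finset.prod_range_add_one_eq_factorial]

/-- value of the logarithmic series modulo `p` -/
def evL (u c q K A S j a p : ℕ) : ℕ :=
  sM (NN u) p fun m => md ((p - 1) ^ m) p * evP u c q K A S j (m + 1) p * invM (m + 1) p *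
    md (a ^ (m + 1)) p

lemma Fn.evL {U C Q K A S J X P : (ℕ → ℕ) → ℕ} (hU : Fn U) (hC : Fn C) (hQ : Fn Q) (hK : Fn K)
    (hA : Fn A) (hS : Fn S) (hJ : Fn J) (hX : Fn X) (hP : Fn P) :
    Fn fun v => RootCH.evL (U v) (C v) (Q v) (K v) (A v) (S v) (J v) (X v) (P v) := by
  unfold RootCH.evL
  refine Fn.sM (g := fun m v => RootCH.md ((P v - 1) ^ m) (P v) *
    RootCH.evP (U v) (C v) (Q v) (K v) (A v) (S v) (J v) (m + 1) (P v) *
    RootCH.invM (m + 1) (P v) * RootCH.md (X v ^ (m + 1)) (P v)) hU.NN hP ?_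
  have hm : Fn fun v => v 0 + 1 := (Fn.var 0).add Fn.one
  have hP1 := hP.shift
  exact (((Fn.powM (hP1.sub Fn.one) (Fn.var 0) hP1).mul (Fn.evP hU.shift hC.shift hQ.shift
    hK.shift hA.shift hS.shift hJ.shift hm hP1)).mul (Fn.invM hm hP1)).mul
    (Fn.powM hX.shift hm hP1)

lemma natCast_ne_zero {p : ℕ} [hp : Fact p.Prime] (k : ℕ) (h1 : 1 ≤ k) (h2 : k < p) :
    ((k : ℕ) : ZMod p) ≠ 0 := by
  rw [Ne, ZMod.natCast_eq_zero_iff]
  intro h
  have := Nat.le_of_dvd (by omega) h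
  omega

lemma cast_evL {p : ℕ} [hp : Fact p.Prime] (u c q K A S j a : ℕ) (hk : 2 ^ ww u < p)
    (hN : 5 * NN u ^ 3 < p - 1) :
    ((evL u c q K A S j a p : ℕ) : ZMod p) =
      (logser (psum (Fq u c p) (Gq u c q K A S j p) (NN u)) (NN u)).eval (a : ZMod p) := by
  have hp0 : p ≠ 0 := hp.out.ne_zero
  have hN1 := one_le_NN u
  have hNp : NN u < p - 1 := by
    have : NN u ≤ NN u ^ 3 := Nat.le_self_pow (by norm_num) _
    omega
  unfold evL logser
  rw [cast_sM hp0, eval_finsetSum]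
  refine Finset.sum_congr rfl fun m hm => ?_
  rw [mem_range] at hm
  push_cast
  rw [cast_md _ hp0, cast_md _ hp0, cast_invM hp.out (natCast_ne_zero (m + 1) (by omega)
    (by omega)), cast_evP u c q K A S j (m + 1) hk hN (by omega)]
  push_cast
  rw [cast_pred hp0]
  simp only [eval_mul, eval_pow, eval_X, eval_C]

/-- value of the exponential series modulo `p` -/
def evX (u c q K A S j a p : ℕ) : ℕ :=
  sM (NN u + 1) p fun k => invM (fac k p) p * md (evL u c q K A S j a p ^ k) p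

lemma Fn.evX {U C Q K A S J X P : (ℕ → ℕ) → ℕ} (hU : Fn U) (hC : Fn C) (hQ : Fn Q) (hK : Fn K)
    (hA : Fn A) (hS : Fn S) (hJ : Fn J) (hX : Fn X) (hP : Fn P) :
    Fn fun v => RootCH.evX (U v) (C v) (Q v) (K v) (A v) (S v) (J v) (X v) (P v) := by
  unfold RootCH.evX
  refine Fn.sM (g := fun k v => RootCH.invM (RootCH.fac k (P v)) (P v) * RootCH.md
    (RootCH.evL (U v) (C v) (Q v) (K v) (A v) (S v) (J v) (X v) (P v) ^ k) (P v))
    (hU.NN.add Fn.one) hP ?_
  have hP1 := hP.shift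
  exact (Fn.invM (Fn.fac (Fn.var 0) hP1) hP1).mul (Fn.powM (Fn.evL hU.shift hC.shift hQ.shift
    hK.shift hA.shift hS.shift hJ.shift hX.shift hP1) (Fn.var 0) hP1)

lemma factorial_ne_zero {p : ℕ} [hp : Fact p.Prime] (k : ℕ) (h : k < p) :
    ((k.factorial : ℕ) : ZMod p) ≠ 0 := by
  rw [Ne, ZMod.natCast_eq_zero_iff, hp.out.dvd_factorial]
  omega

lemma cast_evX {p : ℕ} [hp : Fact p.Prime] (u c q K A S j a : ℕ) (hk : 2 ^ ww u < p)
    (hN : 5 * NN u ^ 3 < p - 1) :
    ((evX u c q K A S j a p : ℕ) : ZMod p) =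
      (expser (logser (psum (Fq u c p) (Gq u c q K A S j p) (NN u)) (NN u)) (NN u)).eval
        (a : ZMod p) := by
  have hp0 : p ≠ 0 := hp.out.ne_zero
  have hN1 := one_le_NN u
  have hNp : NN u < p - 1 := by
    have : NN u ≤ NN u ^ 3 := Nat.le_self_pow (by norm_num) _
    omega
  unfold evX expser
  rw [cast_sM hp0, eval_finsetSum]
  refine Finset.sum_congr rfl fun k hk' => ?_
  rw [mem_range] at hk'
  push_cast
  have h1 : ((fac k p : ℕ) : ZMod p) ≠ 0 := by
    rw [cast_fac hp.out]; exact factorial_ne_zero k (by omega)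
  rw [cast_md _ hp0, cast_invM hp.out h1, cast_fac hp.out]
  push_cast
  rw [cast_evL u c q K A S j a hk hN]
  simp only [eval_mul, eval_pow, eval_C]

/-- the resultant modulo `p` -/
def evR (u c q K A S j p : ℕ) : ℕ :=
  md ((p - 1) * sM (p - 1) p fun b => evX u c q K A S j (b + 1) p *
    md ((b + 1) ^ (p - 1 - NN u)) p) p

lemma Fn.evR {U C Q K A S J P : (ℕ → ℕ) → ℕ} (hU : Fn U) (hC : Fn C) (hQ : Fn Q) (hK : Fn K)
    (hA : Fn A) (hS : Fn S) (hJ : Fn J) (hP : Fn P) :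
    Fn fun v => RootCH.evR (U v) (C v) (Q v) (K v) (A v) (S v) (J v) (P v) := by
  unfold RootCH.evR
  refine ((hP.sub Fn.one).mul (Fn.sM (g := fun b v =>
    RootCH.evX (U v) (C v) (Q v) (K v) (A v) (S v) (J v) (b + 1) (P v) *
    RootCH.md ((b + 1) ^ (P v - 1 - RootCH.NN (U v))) (P v)) (hP.sub Fn.one) hP ?_)).md hP
  have hb : Fn fun v => v 0 + 1 := (Fn.var 0).add Fn.one
  have hP1 := hP.shift
  exact (Fn.evX hU.shift hC.shift hQ.shift hK.shift hA.shift hS.shift hJ.shift hb hP1).mul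
    (Fn.powM hb ((hP1.sub Fn.one).sub hU.shift.NN) hP1)

/-- the resultant of a certificate -/
noncomputable def resC (u c q K A S j : ℕ) : ℤ :=
  resultant (Fp (pol u c) (Nat.size u - 1)) (tp u c q K A S j) (NN u) (2 * NN u)

theorem cast_evR {p : ℕ} [hp : Fact p.Prime] (u c q K A S j : ℕ) (hk : 2 ^ ww u < p)
    (hN : 5 * NN u ^ 3 < p - 1) :
    ((evR u c q K A S j p : ℕ) : ZMod p) = ((resC u c q K A S j : ℤ) : ZMod p) := by
  have hp0 : p ≠ 0 := hp.out.ne_zero
  have hN1 := one_le_NN u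
  have hN3 : NN u ≤ NN u ^ 3 := Nat.le_self_pow (by norm_num) _
  have hN2 : NN u * NN u ≤ NN u ^ 3 := by
    calc NN u * NN u = NN u ^ 2 := by ring
      _ ≤ _ := Nat.pow_le_pow_right hN1 (by norm_num)
  have hNp : NN u < p - 1 := by omega
  have h1 : ((resC u c q K A S j : ℤ) : ZMod p) =
      resultant (Fq u c p) (Gq u c q K A S j p) (NN u) (2 * NN u) := by
    unfold resC Fq Gq
    rw [resultant_map_map]; rfl
  rw [h1, res_eq_coeff p (Fq u c p) (Gq u c q K A S j p) (Fq_monic u c p) (NN u)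
    (Fq_natDegree u c p) hN1 (Gq_natDegree_le u c q K A S j p) (by omega), coeff_eq_sum p]
  · unfold evR
    rw [cast_md _ hp0]
    push_cast
    rw [cast_pred hp0, cast_sM hp0, neg_one_mul]
    congr 1
    refine Finset.sum_congr rfl fun b _ => ?_
    push_cast
    rw [cast_md _ hp0, cast_evX u c q K A S j (b + 1) hk hN]
    push_cast
    rfl
  · unfold expser
    refine lt_of_le_of_lt (natDegree_sum_le_of_forall_le (n := NN u * NN u) _ _
      fun k hk' => ?_) (by omega)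
    rw [mem_range] at hk'
    refine (natDegree_C_mul_le _ _).trans ?_
    refine natDegree_pow_le.trans (Nat.mul_le_mul (by omega) ?_)
    unfold logser
    refine natDegree_sum_le_of_forall_le _ _ fun m hm => ?_
    rw [mem_range] at hm
    exact (natDegree_C_mul_X_pow_le _ _).trans hm
  · exact hNp

end RootCH
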