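import Pool.Agent.Work.MP_859ada_lc.CH.Norm
import Pool.Agent.Work.MP_859ada_lc.CH.Arith

namespace RootCH

open Finset Polynomial

/-! ### degree and norm -/

lemma tab_map {R S : Type*} [CommRing R] [CommRing S] (φ : R →+* S) (ops : ℕ → Op) (x : R)
    (n i : ℕ) : φ (tab ops x n i) = tab ops (φ x) n i := by
  induction n generalizing i with
  | zero => simp [tab]
  | succ n ih =>
    simp only [tab]
    split_ifs
    · cases ops n <;> simp [Op.val, ih]
    · exact ih i

lemma tab_bounds (ops : ℕ → Op) (n i : ℕ) :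
    (tab ops (X : ℤ[X]) n i).natDegree ≤ 2 ^ n ∧ nrm (tab ops (X : ℤ[X]) n i) ≤ 2 ^ 2 ^ n := by
  induction n generalizing i with
  | zero => simp [tab, nrm]
  | succ n ih =>
    have h1 : 1 ≤ 2 ^ n := Nat.one_le_two_pow
    have h2 : 2 ^ n ≤ 2 ^ (n + 1) := Nat.pow_le_pow_right (by norm_num) (by omega)
    have h3 : 2 ^ 2 ^ n ≤ 2 ^ 2 ^ (n + 1) := Nat.pow_le_pow_right (by norm_num) h2
    have h4 : 2 ^ 2 ^ n + 2 ^ 2 ^ n ≤ 2 ^ 2 ^ (n + 1) := by
      calc 2 ^ 2 ^ n + 2 ^ 2 ^ n = 2 ^ (2 ^ n + 1) := by rw [pow_succ]; ring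
        _ ≤ _ := Nat.pow_le_pow_right (by norm_num) (by rw [pow_succ 2 n]; omega)
    have h5 : 2 ^ 2 ^ n * 2 ^ 2 ^ n = 2 ^ 2 ^ (n + 1) := by
      rw [← pow_add]; congr 1; rw [pow_succ]; ring
    simp only [tab]
    split_ifs
    · cases ops n with
      | one =>
        simp only [Op.val]
        rw [← C_1, natDegree_C, nrm_C]
        exact ⟨by positivity, Nat.one_le_two_pow⟩
      | var =>
        simp only [Op.val]
        rw [natDegree_X, nrm_X]
        exact ⟨Nat.one_le_two_pow, Nat.one_le_two_pow⟩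
      | add a b =>
        simp only [Op.val]
        refine ⟨(natDegree_add_le _ _).trans (max_le ((ih a).1.trans h2) ((ih b).1.trans h2)), ?_⟩
        exact (nrm_add_le _ _).trans ((add_le_add (ih a).2 (ih b).2).trans h4)
      | sub a b =>
        simp only [Op.val]
        refine ⟨(natDegree_sub_le _ _).trans (max_le ((ih a).1.trans h2) ((ih b).1.trans h2)), ?_⟩
        exact (nrm_sub_le _ _).trans ((add_le_add (ih a).2 (ih b).2).trans h4)
      | mul a b =>
        simp only [Op.val]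
        refine ⟨natDegree_mul_le.trans ?_, ?_⟩
        · have := add_le_add (ih a).1 (ih b).1
          rw [pow_succ]; omega
        · exact (nrm_mul_le _ _).trans ((Nat.mul_le_mul (ih a).2 (ih b).2).trans h5.le)
    · exact ⟨(ih i).1.trans h2, (ih i).2.trans h3⟩

lemma natDegree_poly_le (P : List Op) : (poly P).natDegree ≤ 2 ^ P.length := (tab_bounds _ _ _).1

lemma nrm_poly_le (P : List Op) : nrm (poly P) ≤ 2 ^ 2 ^ P.length := (tab_bounds _ _ _).2

/-! ### digits -/

lemma mod_eq_sum_dig (w c n : ℕ) : c % 2 ^ (w * n) = ∑ i ∈ range n, dig w c i * 2 ^ (w * i) := by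
  induction n with
  | zero => simp [Nat.mod_one]
  | succ n ih =>
    rw [sum_range_succ, ← ih]
    have : 2 ^ (w * (n + 1)) = 2 ^ (w * n) * 2 ^ w := by rw [← pow_add]; ring_nf
    rw [this, Nat.mod_mul]
    unfold dig; ring

lemma sum_lt (w n : ℕ) (a : ℕ → ℕ) (ha : ∀ i < n, a i < 2 ^ w) :
    ∑ i ∈ range n, a i * 2 ^ (w * i) < 2 ^ (w * n) := by
  induction n with
  | zero => simp
  | succ n ih =>
    rw [sum_range_succ]
    have h1 := ih fun i hi => ha i (by omega)
    have h2 := ha n (by omega)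
    calc ∑ i ∈ range n, a i * 2 ^ (w * i) + a n * 2 ^ (w * n)
        < 2 ^ (w * n) + a n * 2 ^ (w * n) := by omega
      _ = (a n + 1) * 2 ^ (w * n) := by ring
      _ ≤ 2 ^ w * 2 ^ (w * n) := Nat.mul_le_mul_right _ h2
      _ = _ := by rw [← pow_add]; ring_nf

lemma dig_sum (w n : ℕ) (a : ℕ → ℕ) (ha : ∀ i < n, a i < 2 ^ w) (k : ℕ) (hk : k < n) :
    dig w (∑ i ∈ range n, a i * 2 ^ (w * i)) k = a k := by
  induction n with
  | zero => omega
  | succ n ih =>
    rw [sum_range_succ]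
    have hs := sum_lt w n a fun i hi => ha i (by omega)
    set s := ∑ i ∈ range n, a i * 2 ^ (w * i) with hsdef
    rcases Nat.lt_succ_iff_lt_or_eq.1 hk with h | rfl
    · rw [← ih (fun i hi => ha i (by omega)) h]
      unfold dig
      have e1 : 2 ^ (w * n) = 2 ^ (w * k) * (2 ^ w * 2 ^ (w * (n - k - 1))) := by
        rw [← pow_add, ← pow_add]
        congr 1
        obtain ⟨j, rfl⟩ : ∃ j, n = k + 1 + j := ⟨n - (k + 1), by omega⟩
        have : k + 1 + j - k - 1 = j := by omega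
        rw [this]; ring
      rw [e1, mul_comm (a n), mul_assoc, Nat.add_mul_div_left _ _ (by positivity), mul_assoc,
        Nat.add_mul_mod_self_left]
    · unfold dig
      rw [mul_comm (a k), Nat.add_mul_div_left _ _ (by positivity), Nat.div_eq_of_lt hs, zero_add,
        Nat.mod_eq_of_lt (ha k (by omega))]

/-! ### decoding -/

/-- the instruction with the given entries -/
def mkOp (t i j : ℕ) : Op :=
  match t with
  | 0 => .one
  | 1 => .var
  | 2 => .add i j
  | 3 => .sub i j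
  | _ => .mul i j

/-- the `k`-th instruction of the program with code `c` and length `L` -/
def opAt (L c k : ℕ) : Op :=
  mkOp (dig (L + 3) c (3 * k)) (dig (L + 3) c (3 * k + 1)) (dig (L + 3) c (3 * k + 2))

/-- the decoded program -/
def dec (L c : ℕ) : List Op := (List.range L).map (opAt L c)

/-- the code is valid -/
def Good (L c : ℕ) : Prop := c < 2 ^ ((L + 3) * (3 * L)) ∧ ∀ k < L,
  dig (L + 3) c (3 * k) < 5 ∧
  (dig (L + 3) c (3 * k) < 2 → dig (L + 3) c (3 * k + 1) = 0 ∧ dig (L + 3) c (3 * k + 2) = 0) ∧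
  (2 ≤ dig (L + 3) c (3 * k) → dig (L + 3) c (3 * k + 1) < k ∧ dig (L + 3) c (3 * k + 2) < k)

lemma length_dec (L c : ℕ) : (dec L c).length = L := by simp [dec]

lemma getD_dec (L c k : ℕ) (hk : k < L) : (dec L c).getD k .one = opAt L c k := by
  simp [dec, List.getD_eq_getElem?_getD, List.getElem?_range hk]

lemma mkOp_entry (o : Op) : mkOp (o.entry 0) (o.entry 1) (o.entry 2) = o := by
  cases o <;> rfl

lemma entry_mkOp (t i j n : ℕ) (hn : n < 3) (ht : t < 5) (h0 : t < 2 → i = 0 ∧ j = 0) :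
    (mkOp t i j).entry n = if n = 0 then t else if n = 1 then i else j := by
  have h1 : t = 0 ∨ t = 1 ∨ t = 2 ∨ t = 3 ∨ t = 4 := by omega
  rcases h1 with rfl | rfl | rfl | rfl | rfl
  · obtain ⟨rfl, rfl⟩ := h0 (by norm_num)
    simp [mkOp, Op.entry]
  · obtain ⟨rfl, rfl⟩ := h0 (by norm_num)
    simp [mkOp, Op.entry]
  all_goals rfl

lemma entry_lt {P : List Op} (hP : Valid P) (i : ℕ) (hi : i < 3 * P.length) :
    (P.getD (i / 3) .one).entry (i % 3) < 2 ^ (P.length + 3) := by
  have h1 := hP.2 (i / 3) (by omega)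
  have h2 : P.length < 2 ^ P.length := Nat.lt_two_pow_self
  have h3 : 2 ^ (P.length + 3) = 8 * 2 ^ P.length := by rw [pow_add]; ring
  rw [h3]
  have h4 : i / 3 < P.length := by omega
  revert h1
  cases P.getD (i / 3) .one <;> simp only [Op.entry, Op.refs] <;> intro h1
  · omega
  · split_ifs <;> omega
  all_goals (split_ifs <;> omega)

lemma dig_enc {P : List Op} (hP : Valid P) (i : ℕ) (hi : i < 3 * P.length) :
    dig (P.length + 3) (enc P) i = (P.getD (i / 3) .one).entry (i % 3) :=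
  dig_sum (P.length + 3) (3 * P.length) (fun i => (P.getD (i / 3) .one).entry (i % 3))
    (fun i hi => entry_lt hP i hi) i hi

lemma dig_enc3 {P : List Op} (hP : Valid P) (k : ℕ) (hk : k < P.length) :
    dig (P.length + 3) (enc P) (3 * k) = (P.getD k .one).entry 0 ∧
    dig (P.length + 3) (enc P) (3 * k + 1) = (P.getD k .one).entry 1 ∧
    dig (P.length + 3) (enc P) (3 * k + 2) = (P.getD k .one).entry 2 := by
  refine ⟨?_, ?_, ?_⟩
  · rw [dig_enc hP _ (by omega)]
    rw [show 3 * k / 3 = k by omega, show 3 * k % 3 = 0 by omega]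
  · rw [dig_enc hP _ (by omega)]
    rw [show (3 * k + 1) / 3 = k by omega, show (3 * k + 1) % 3 = 1 by omega]
  · rw [dig_enc hP _ (by omega)]
    rw [show (3 * k + 2) / 3 = k by omega, show (3 * k + 2) % 3 = 2 by omega]

lemma dec_enc {P : List Op} (hP : Valid P) : dec P.length (enc P) = P := by
  apply List.ext_getElem
  · rw [length_dec]
  · intro k h1 h2
    obtain ⟨e0, e1, e2⟩ := dig_enc3 hP k h2
    simp only [dec, List.getElem_map, List.getElem_range, opAt, e0, e1, e2, mkOp_entry]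
    rw [List.getD_eq_getElem _ _ h2]

lemma good_enc {P : List Op} (hP : Valid P) : Good P.length (enc P) := by
  refine ⟨sum_lt _ _ _ fun i hi => entry_lt hP i hi, fun k hk => ?_⟩
  obtain ⟨e0, e1, e2⟩ := dig_enc3 hP k hk
  rw [e0, e1, e2]
  have h1 := hP.2 k hk
  revert h1
  cases P.getD k .one <;> simp [Op.entry, Op.refs]

lemma valid_dec {L c : ℕ} (hL : L ≠ 0) (h : Good L c) : Valid (dec L c) := by
  refine ⟨?_, fun k hk => ?_⟩
  · intro h0
    have := length_dec L c
    rw [h0] at this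
    exact hL this.symm
  · rw [length_dec] at hk
    rw [getD_dec L c k hk]
    obtain ⟨h1, h2, h3⟩ := h.2 k hk
    unfold opAt
    set t := dig (L + 3) c (3 * k)
    have ht : t = 0 ∨ t = 1 ∨ t = 2 ∨ t = 3 ∨ t = 4 := by omega
    rcases ht with ht | ht | ht | ht | ht <;> rw [ht] at h3 ⊢ <;> simp only [mkOp, Op.refs]
    all_goals exact h3 (by norm_num)

lemma enc_dec {L c : ℕ} (h : Good L c) : enc (dec L c) = c := by
  unfold enc
  rw [length_dec]
  conv_rhs => rw [← Nat.mod_eq_of_lt h.1, mod_eq_sum_dig]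
  refine Finset.sum_congr rfl fun i hi => ?_
  rw [mem_range] at hi
  congr 1
  have hk : i / 3 < L := by omega
  rw [getD_dec L c _ hk]
  obtain ⟨h1, h2, h3⟩ := h.2 (i / 3) hk
  unfold opAt
  rw [entry_mkOp _ _ _ _ (Nat.mod_lt _ (by norm_num)) h1 h2]
  split_ifs with h4 h5
  · congr 1; omega
  · congr 1; omega
  · congr 1; omega

theorem exists_enc_iff (u c : ℕ) (Q : List Op → Prop) :
    (∃ P, Valid P ∧ u = 2 ^ P.length ∧ c = enc P ∧ Q P) ↔
      (IsP2 u ∧ Nat.size u - 1 ≠ 0 ∧ Good (Nat.size u - 1) c) ∧ Q (dec (Nat.size u - 1) c) := by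
  constructor
  · rintro ⟨P, hP, rfl, rfl, hQ⟩
    have hs : Nat.size (2 ^ P.length) - 1 = P.length := by rw [Nat.size_pow]; rfl
    rw [hs, dec_enc hP]
    refine ⟨⟨(isP2_iff _).2 ⟨_, rfl⟩, ?_, good_enc hP⟩, hQ⟩
    intro h0
    exact hP.1 (List.length_eq_zero_iff.1 h0)
  · rintro ⟨⟨h1, h2, h3⟩, hQ⟩
    obtain ⟨k, rfl⟩ := (isP2_iff _).1 h1
    have hs : Nat.size (2 ^ k) - 1 = k := by rw [Nat.size_pow]; rfl
    rw [hs] at h2 h3 hQ
    exact ⟨dec k c, valid_dec h2 h3, by rw [length_dec], (enc_dec h3).symm, hQ⟩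

end RootCH
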