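import Pool.Agent.Work.MP_859ada_lc.CH.Arith

namespace RootCH

open Finset

lemma sum_eq_cnt (T C : ℕ) (g : ℕ → ℕ) (hg : ∀ k < T, g k ≤ C) :
    cnt (T * (C + 1)) (fun z => z % (C + 1) < g (z / (C + 1))) = ∑ k ∈ range T, g k := by
  classical
  rw [cnt_eq_card]
  have h1 : ∑ k ∈ range T, g k = ((range T).sigma fun k => range (g k)).card := by
    rw [card_sigma]; simp
  rw [h1]
  refine card_bij' (fun z _ => ⟨z / (C + 1), z % (C + 1)⟩) (fun s _ => s.1 * (C + 1) + s.2) ?_ ?_ ?_ ?_
  · intro z hz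
    simp only [mem_filter, mem_range] at hz
    simp only [mem_sigma, mem_range]
    exact ⟨Nat.div_lt_of_lt_mul (by rw [mul_comm]; exact hz.1), hz.2⟩
  · rintro ⟨k, y⟩ hs
    simp only [mem_sigma, mem_range] at hs
    have hy : y < C + 1 := lt_of_lt_of_le hs.2 (by have := hg k hs.1; omega)
    simp only [mem_filter, mem_range]
    have e1 : (k * (C + 1) + y) / (C + 1) = k := by
      rw [mul_comm, Nat.mul_add_div (by omega), Nat.div_eq_of_lt hy, add_zero]
    have e2 : (k * (C + 1) + y) % (C + 1) = y := by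
      rw [mul_comm, Nat.mul_add_mod, Nat.mod_eq_of_lt hy]
    rw [e1, e2]
    refine ⟨?_, hs.2⟩
    calc k * (C + 1) + y < k * (C + 1) + (C + 1) := by omega
      _ = (k + 1) * (C + 1) := by ring
      _ ≤ T * (C + 1) := Nat.mul_le_mul_right _ hs.1
  · intro z hz
    simp only
    rw [mul_comm]
    exact Nat.div_add_mod z (C + 1)
  · rintro ⟨k, y⟩ hs
    simp only [mem_sigma, mem_range] at hs
    have hy : y < C + 1 := lt_of_lt_of_le hs.2 (by have := hg k hs.1; omega)
    have e1 : (k * (C + 1) + y) / (C + 1) = k := by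
      rw [mul_comm, Nat.mul_add_div (by omega), Nat.div_eq_of_lt hy, add_zero]
    have e2 : (k * (C + 1) + y) % (C + 1) = y := by
      rw [mul_comm, Nat.mul_add_mod, Nat.mod_eq_of_lt hy]
    simp only [e1, e2]

/-- exponentially long sums of definable functions -/
theorem Fn.sum {T C : (ℕ → ℕ) → ℕ} {g : ℕ → (ℕ → ℕ) → ℕ} (hT : Fn T) (hC : Fn C)
    (hg : Fn fun v => g (v 0) (tail v)) (hb : ∀ v, ∀ k < T v, g k v ≤ C v) :
    Fn fun v => ∑ k ∈ range (T v), g k v := by
  refine (Fn.count (hT.mul (hC.add Fn.one))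
    (R := fun z v => z % (C v + 1) < g (z / (C v + 1)) v) ?_).congr
    fun v => sum_eq_cnt (T v) (C v) (fun k => g k v) (hb v)
  refine CH.lt ((Fn.var 0).mod (hC.shift.add Fn.one)) ?_
  exact (hg.rename (fun k => match k with | 0 => 0 | k + 1 => k + 2)).subst
    ((Fn.var 0).div (hC.shift.add Fn.one))


end RootCH
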