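import Mathlib

namespace RootCH

open Finset Polynomial

lemma sign_of_between {a b x : ℝ} (h : SignType.sign a = SignType.sign b)
    (hx : (a ≤ x ∧ x ≤ b) ∨ (b ≤ x ∧ x ≤ a)) : SignType.sign x = SignType.sign a := by
  rcases lt_trichotomy a 0 with ha | ha | ha
  · have hb : b < 0 := by
      rw [sign_neg ha] at h; exact sign_eq_neg_one_iff.1 h.symm
    have : x < 0 := by rcases hx with hx | hx <;> linarith [hx.1, hx.2]
    rw [sign_neg ha, sign_neg this]
  · have hb : b = 0 := by
      rw [ha, sign_zero] at h; exact sign_eq_zero_iff.1 h.symm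
    have : x = 0 := by rcases hx with hx | hx <;> linarith [hx.1, hx.2]
    rw [this, ha]
  · have hb : 0 < b := by
      rw [sign_pos ha] at h; exact sign_eq_one_iff.1 h.symm
    have : 0 < x := by rcases hx with hx | hx <;> linarith [hx.1, hx.2]
    rw [sign_pos ha, sign_pos this]

lemma sign_step {f : ℝ[X]} {α β : ℝ} (hle : α ≤ β)
    (hs : ∀ x ∈ Set.Icc α β, SignType.sign ((derivative f).eval x) =
      SignType.sign ((derivative f).eval α))
    (he : SignType.sign (f.eval α) = SignType.sign (f.eval β)) :
    ∀ x ∈ Set.Icc α β, SignType.sign (f.eval x) = SignType.sign (f.eval α) := by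
  intro x hx
  have hα : α ∈ Set.Icc α β := ⟨le_rfl, hle⟩
  have hβ : β ∈ Set.Icc α β := ⟨hle, le_rfl⟩
  apply sign_of_between he
  rcases le_total 0 ((derivative f).eval α) with h0 | h0
  · left
    have hm : MonotoneOn (fun x => f.eval x) (Set.Icc α β) := by
      refine monotoneOn_of_deriv_nonneg (convex_Icc α β) f.continuous.continuousOn
        f.differentiable.differentiableOn fun y hy => ?_
      rw [Polynomial.deriv]
      have h1 := hs y (interior_subset hy)
      rcases h0.eq_or_lt with h2 | h2
      · rw [← h2, sign_zero, sign_eq_zero_iff] at h1; rw [h1]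
      · rw [sign_pos h2, sign_eq_one_iff] at h1; exact h1.le
    exact ⟨hm hα hx hx.1, hm hx hβ hx.2⟩
  · right
    have hm : AntitoneOn (fun x => f.eval x) (Set.Icc α β) := by
      refine antitoneOn_of_deriv_nonpos (convex_Icc α β) f.continuous.continuousOn
        f.differentiable.differentiableOn fun y hy => ?_
      rw [Polynomial.deriv]
      have h1 := hs y (interior_subset hy)
      rcases h0.eq_or_lt with h2 | h2
      · rw [h2, sign_zero, sign_eq_zero_iff] at h1; rw [h1]
      · rw [sign_neg h2, sign_eq_neg_one_iff] at h1; exact h1.le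
    exact ⟨hm hx hβ hx.2, hm hα hx hx.1⟩

lemma sign_iterate (F : ℝ[X]) (k : ℕ) (x : ℝ) :
    SignType.sign ((derivative^[k] F).eval x) = SignType.sign ((hasseDeriv k F).eval x) := by
  have h := congrFun (factorial_smul_hasseDeriv (R := ℝ) (k := k)) F
  have h2 : derivative^[k] F = (k.factorial : ℝ[X]) * hasseDeriv k F := by
    rw [← h, ← nsmul_eq_mul]; rfl
  rw [h2, eval_mul, eval_natCast, sign_mul, sign_pos (by exact_mod_cast k.factorial_pos), one_mul]

/-- Thom's lemma for roots of a polynomial -/
theorem thom {F : ℝ[X]} (hF : F ≠ 0) {α β : ℝ} (hlt : α < β) (hα : F.eval α = 0)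
    (hβ : F.eval β = 0) : ∃ k, 1 ≤ k ∧ k ≤ F.natDegree ∧
      SignType.sign ((hasseDeriv k F).eval α) ≠ SignType.sign ((hasseDeriv k F).eval β) := by
  by_contra hcon
  push Not at hcon
  have key : ∀ j, j ≤ F.natDegree → ∀ x ∈ Set.Icc α β,
      SignType.sign ((derivative^[F.natDegree - j] F).eval x) =
        SignType.sign ((derivative^[F.natDegree - j] F).eval α) := by
    intro j
    induction j with
    | zero =>
      intro _ x _
      have h1 : (derivative^[F.natDegree] F).natDegree = 0 := by
        have := natDegree_iterate_derivative F F.natDegree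
        omega
      rw [Nat.sub_zero, eq_C_of_natDegree_eq_zero h1, eval_C, eval_C]
    | succ j ih =>
      intro hj
      have h1 : F.natDegree - j = F.natDegree - (j + 1) + 1 := by omega
      have h2 := ih (by omega)
      rw [h1, Function.iterate_succ_apply'] at h2
      refine sign_step hlt.le h2 ?_
      rcases Nat.eq_zero_or_pos (F.natDegree - (j + 1)) with h0 | h0
      · rw [h0]; simp [hα, hβ]
      · rw [sign_iterate, sign_iterate]
        exact hcon _ h0 (by omega)
  have h0 := key F.natDegree le_rfl
  rw [Nat.sub_self] at h0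
  simp only [Function.iterate_zero, id_eq, hα, sign_zero, sign_eq_zero_iff] at h0
  refine hF (eq_zero_of_infinite_isRoot F ?_)
  exact (Set.Icc_infinite hlt).mono fun x hx => h0 x hx

/-- Halving: a nonempty set of real roots has an element which is isolated by few derivative
signs. -/
theorem isolate {F : ℝ[X]} (hF : F ≠ 0) (S : Finset ℝ) (hS : S.Nonempty)
    (hroot : ∀ x ∈ S, F.eval x = 0) : ∃ α ∈ S, ∃ l : List ℕ, l.length ≤ Nat.log 2 S.card ∧
      (∀ k ∈ l, 1 ≤ k ∧ k ≤ F.natDegree) ∧
      ∀ β ∈ S, (∀ k ∈ l, SignType.sign ((hasseDeriv k F).eval β) =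
        SignType.sign ((hasseDeriv k F).eval α)) → β = α := by
  classical
  induction hn : S.card using Nat.strong_induction_on generalizing S with
  | _ n ih =>
    obtain ⟨α, hα⟩ := hS
    by_cases h1 : S.card = 1
    · refine ⟨α, hα, [], by simp, by simp, fun β hβ _ => ?_⟩
      exact Finset.card_le_one.1 h1.le β hβ α hα
    · have h2 : 1 < S.card := by
        have := Finset.card_pos.2 ⟨α, hα⟩; omega
      obtain ⟨a, ha, b, hb, hab⟩ := Finset.one_lt_card.1 h2
      obtain ⟨k, hk1, hk2, hk3⟩ : ∃ k, 1 ≤ k ∧ k ≤ F.natDegree ∧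
          SignType.sign ((hasseDeriv k F).eval a) ≠ SignType.sign ((hasseDeriv k F).eval b) := by
        rcases lt_or_gt_of_ne hab with h | h
        · exact thom hF h (hroot a ha) (hroot b hb)
        · obtain ⟨k, h1, h2, h3⟩ := thom hF h (hroot b hb) (hroot a ha)
          exact ⟨k, h1, h2, fun e => h3 e.symm⟩
      set σ : ℝ → SignType := fun x => SignType.sign ((hasseDeriv k F).eval x) with hσ
      -- the smaller of two classes
      obtain ⟨c, hc, hcard⟩ : ∃ c ∈ S, 2 * (S.filter fun x => σ x = σ c).card ≤ S.card := by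
        have hdisj : Disjoint (S.filter fun x => σ x = σ a) (S.filter fun x => σ x = σ b) := by
          rw [Finset.disjoint_filter]
          intro x _ h3 h4
          exact hk3 (h3.symm.trans h4)
        have hle : (S.filter fun x => σ x = σ a).card + (S.filter fun x => σ x = σ b).card
            ≤ S.card := by
          rw [← Finset.card_union_of_disjoint hdisj]
          exact Finset.card_le_card (Finset.union_subset (filter_subset _ _) (filter_subset _ _))
        rcases le_total (S.filter fun x => σ x = σ a).card (S.filter fun x => σ x = σ b).card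
          with h | h
        · exact ⟨a, ha, by omega⟩
        · exact ⟨b, hb, by omega⟩
      set T := S.filter fun x => σ x = σ c with hT
      have hcT : c ∈ T := by rw [hT, mem_filter]; exact ⟨hc, rfl⟩
      have hTpos : 0 < T.card := Finset.card_pos.2 ⟨c, hcT⟩
      obtain ⟨d, hd, l, hl1, hl2, hl3⟩ := ih T.card (by omega) T ⟨c, hcT⟩
        (fun x hx => hroot x (mem_of_mem_filter x hx)) rfl
      have hdS : d ∈ S := mem_of_mem_filter d hd
      have hdσ : σ d = σ c := (mem_filter.1 hd).2
      refine ⟨d, hdS, k :: l, ?_, ?_, ?_⟩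
      · rw [List.length_cons]
        have h3 : Nat.log 2 (2 * T.card) = Nat.log 2 T.card + 1 := by
          rw [mul_comm]; exact Nat.log_mul_base (by norm_num) (by omega)
        have h4 : Nat.log 2 (2 * T.card) ≤ Nat.log 2 n := Nat.log_mono_right (by omega)
        omega
      · intro k' hk'
        rcases List.mem_cons.1 hk' with rfl | h
        · exact ⟨hk1, hk2⟩
        · exact hl2 k' h
      · intro β hβ hall
        refine hl3 β ?_ fun k' hk' => hall k' (List.mem_cons_of_mem _ hk')
        rw [hT, mem_filter]
        exact ⟨hβ, (hall k List.mem_cons_self).trans hdσ⟩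

end RootCH
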